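import Pool.Agent.Lib.Hin.Raw

/-!
# Chunk ALG: the ordered semiring structure

All the usual laws by induction: `h.ind {x | Q x} (h.comp Q (by ar))` for `Q` arithmetical
(`zero_add`, `succ_add`, `add_comm`, `add_assoc`, `zero_mul`, `succ_mul`, `mul_comm`, `mul_add`,
`mul_assoc`, `one_mul`, `0 + 1 = 1`; every `x` is `0` or `y + 1`; `add_left_cancel`;
`x < y ↔ ∃ z, y = x + (z + 1)` (induction on `y`), trichotomy; then `x ≤ y := x < y ∨ x = y`).
The closure lemmas of `Ar` are for `=`, `<`, `+`, `*`, connectives and quantifiers over `M`.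
-/

namespace Pool.Agent.Lib.Hin

universe u

namespace Raw

section
variable {M : Type u} [Zero M] [One M] [Add M] [Mul M] [LT M] {S : Set (Set M)}

theorem induct (h : Raw S) (Q : M → Prop) (hQ : Ar S (fun v => Q (v 0))) (h0 : Q 0)
    (h1 : ∀ x, Q x → Q (x + 1)) : ∀ x, Q x :=
  fun x => h.ind {x | Q x} (h.comp Q hQ) h0 h1 x

theorem zadd (h : Raw S) : ∀ x : M, 0 + x = x :=
  h.induct (fun x => 0 + x = x) (by (repeat' (first
      | assumption | exact ArT.const _ | exact ArT.var _ | apply ArT.add | apply ArT.mul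
      | apply ArT.pr | exact Ar.prop _ | apply Ar.and | apply Ar.or | apply Ar.not | apply Ar.iff
      | apply Ar.ex | apply Ar.imp | apply Ar.all | apply Ar.eq | apply Ar.ne | apply Ar.lt
      | apply Ar.le | apply Ar.bit | apply Ar.E | (apply Ar.mem; assumption)
      | (refine Ar.app1 ?_ ?_; assumption) | (refine Ar.app2 ?_ ?_ ?_; assumption)
      | (refine Ar.app3 ?_ ?_ ?_ ?_; assumption)))) (h.add_zero' 0)
    (fun x hx => by rw [h.add_succ', hx])

theorem sadd (h : Raw S) (x : M) : ∀ y : M, (x + 1) + y = (x + y) + 1 :=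
  h.induct (fun y => (x + 1) + y = (x + y) + 1) (by (repeat' (first
      | assumption | exact ArT.const _ | exact ArT.var _ | apply ArT.add | apply ArT.mul
      | apply ArT.pr | exact Ar.prop _ | apply Ar.and | apply Ar.or | apply Ar.not | apply Ar.iff
      | apply Ar.ex | apply Ar.imp | apply Ar.all | apply Ar.eq | apply Ar.ne | apply Ar.lt
      | apply Ar.le | apply Ar.bit | apply Ar.E | (apply Ar.mem; assumption)
      | (refine Ar.app1 ?_ ?_; assumption) | (refine Ar.app2 ?_ ?_ ?_; assumption)
      | (refine Ar.app3 ?_ ?_ ?_ ?_; assumption)))) (by rw [h.add_zero', h.add_zero'])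
    (fun y hy => by rw [h.add_succ', hy, h.add_succ'])

theorem acomm (h : Raw S) (x : M) : ∀ y : M, x + y = y + x :=
  h.induct (fun y => x + y = y + x) (by (repeat' (first
      | assumption | exact ArT.const _ | exact ArT.var _ | apply ArT.add | apply ArT.mul
      | apply ArT.pr | exact Ar.prop _ | apply Ar.and | apply Ar.or | apply Ar.not | apply Ar.iff
      | apply Ar.ex | apply Ar.imp | apply Ar.all | apply Ar.eq | apply Ar.ne | apply Ar.lt
      | apply Ar.le | apply Ar.bit | apply Ar.E | (apply Ar.mem; assumption)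
      | (refine Ar.app1 ?_ ?_; assumption) | (refine Ar.app2 ?_ ?_ ?_; assumption)
      | (refine Ar.app3 ?_ ?_ ?_ ?_; assumption)))) (by rw [h.add_zero', h.zadd])
    (fun y hy => by rw [h.add_succ', hy, h.sadd])

theorem aassoc (h : Raw S) (x y : M) : ∀ z : M, (x + y) + z = x + (y + z) :=
  h.induct (fun z => (x + y) + z = x + (y + z)) (by (repeat' (first
      | assumption | exact ArT.const _ | exact ArT.var _ | apply ArT.add | apply ArT.mul
      | apply ArT.pr | exact Ar.prop _ | apply Ar.and | apply Ar.or | apply Ar.not | apply Ar.iff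
      | apply Ar.ex | apply Ar.imp | apply Ar.all | apply Ar.eq | apply Ar.ne | apply Ar.lt
      | apply Ar.le | apply Ar.bit | apply Ar.E | (apply Ar.mem; assumption)
      | (refine Ar.app1 ?_ ?_; assumption) | (refine Ar.app2 ?_ ?_ ?_; assumption)
      | (refine Ar.app3 ?_ ?_ ?_ ?_; assumption)))) (by rw [h.add_zero', h.add_zero'])
    (fun z hz => by rw [h.add_succ', hz, h.add_succ', h.add_succ'])

theorem aleft (h : Raw S) (x y z : M) : x + (y + z) = y + (x + z) := by
  rw [← h.aassoc, h.acomm x y, h.aassoc]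

theorem zmul (h : Raw S) : ∀ x : M, 0 * x = 0 :=
  h.induct (fun x => 0 * x = 0) (by (repeat' (first
      | assumption | exact ArT.const _ | exact ArT.var _ | apply ArT.add | apply ArT.mul
      | apply ArT.pr | exact Ar.prop _ | apply Ar.and | apply Ar.or | apply Ar.not | apply Ar.iff
      | apply Ar.ex | apply Ar.imp | apply Ar.all | apply Ar.eq | apply Ar.ne | apply Ar.lt
      | apply Ar.le | apply Ar.bit | apply Ar.E | (apply Ar.mem; assumption)
      | (refine Ar.app1 ?_ ?_; assumption) | (refine Ar.app2 ?_ ?_ ?_; assumption)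
      | (refine Ar.app3 ?_ ?_ ?_ ?_; assumption)))) (h.mul_zero' 0)
    (fun x hx => by rw [h.mul_succ', hx, h.add_zero'])

theorem smul (h : Raw S) (x : M) : ∀ y : M, (x + 1) * y = x * y + y :=
  h.induct (fun y => (x + 1) * y = x * y + y) (by (repeat' (first
      | assumption | exact ArT.const _ | exact ArT.var _ | apply ArT.add | apply ArT.mul
      | apply ArT.pr | exact Ar.prop _ | apply Ar.and | apply Ar.or | apply Ar.not | apply Ar.iff
      | apply Ar.ex | apply Ar.imp | apply Ar.all | apply Ar.eq | apply Ar.ne | apply Ar.lt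
      | apply Ar.le | apply Ar.bit | apply Ar.E | (apply Ar.mem; assumption)
      | (refine Ar.app1 ?_ ?_; assumption) | (refine Ar.app2 ?_ ?_ ?_; assumption)
      | (refine Ar.app3 ?_ ?_ ?_ ?_; assumption))))
    (by rw [h.mul_zero', h.mul_zero', h.add_zero'])
    (fun y hy => by
      rw [h.mul_succ', hy, h.mul_succ', h.aassoc, h.aassoc, h.aleft y x 1])

theorem mcomm (h : Raw S) (x : M) : ∀ y : M, x * y = y * x :=
  h.induct (fun y => x * y = y * x) (by (repeat' (first
      | assumption | exact ArT.const _ | exact ArT.var _ | apply ArT.add | apply ArT.mul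
      | apply ArT.pr | exact Ar.prop _ | apply Ar.and | apply Ar.or | apply Ar.not | apply Ar.iff
      | apply Ar.ex | apply Ar.imp | apply Ar.all | apply Ar.eq | apply Ar.ne | apply Ar.lt
      | apply Ar.le | apply Ar.bit | apply Ar.E | (apply Ar.mem; assumption)
      | (refine Ar.app1 ?_ ?_; assumption) | (refine Ar.app2 ?_ ?_ ?_; assumption)
      | (refine Ar.app3 ?_ ?_ ?_ ?_; assumption)))) (by rw [h.mul_zero', h.zmul])
    (fun y hy => by rw [h.mul_succ', hy, h.smul])

theorem madd (h : Raw S) (x y : M) : ∀ z : M, x * (y + z) = x * y + x * z :=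
  h.induct (fun z => x * (y + z) = x * y + x * z) (by (repeat' (first
      | assumption | exact ArT.const _ | exact ArT.var _ | apply ArT.add | apply ArT.mul
      | apply ArT.pr | exact Ar.prop _ | apply Ar.and | apply Ar.or | apply Ar.not | apply Ar.iff
      | apply Ar.ex | apply Ar.imp | apply Ar.all | apply Ar.eq | apply Ar.ne | apply Ar.lt
      | apply Ar.le | apply Ar.bit | apply Ar.E | (apply Ar.mem; assumption)
      | (refine Ar.app1 ?_ ?_; assumption) | (refine Ar.app2 ?_ ?_ ?_; assumption)
      | (refine Ar.app3 ?_ ?_ ?_ ?_; assumption))))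
    (by rw [h.add_zero', h.mul_zero', h.add_zero'])
    (fun z hz => by rw [h.add_succ', h.mul_succ', hz, h.mul_succ', h.aassoc])

theorem addm (h : Raw S) (x y z : M) : (x + y) * z = x * z + y * z := by
  rw [h.mcomm, h.madd, h.mcomm z x, h.mcomm z y]

theorem massoc (h : Raw S) (x y : M) : ∀ z : M, (x * y) * z = x * (y * z) :=
  h.induct (fun z => (x * y) * z = x * (y * z)) (by (repeat' (first
      | assumption | exact ArT.const _ | exact ArT.var _ | apply ArT.add | apply ArT.mul
      | apply ArT.pr | exact Ar.prop _ | apply Ar.and | apply Ar.or | apply Ar.not | apply Ar.iff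
      | apply Ar.ex | apply Ar.imp | apply Ar.all | apply Ar.eq | apply Ar.ne | apply Ar.lt
      | apply Ar.le | apply Ar.bit | apply Ar.E | (apply Ar.mem; assumption)
      | (refine Ar.app1 ?_ ?_; assumption) | (refine Ar.app2 ?_ ?_ ?_; assumption)
      | (refine Ar.app3 ?_ ?_ ?_ ?_; assumption))))
    (by rw [h.mul_zero', h.mul_zero', h.mul_zero'])
    (fun z hz => by rw [h.mul_succ', hz, h.mul_succ', h.madd])

theorem omul (h : Raw S) (x : M) : 1 * x = x := by
  have h1 : (1 : M) = 0 + 1 := (h.zadd 1).symm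
  rw [h1, h.smul, h.zmul, h.zadd]

theorem mulo (h : Raw S) (x : M) : x * 1 = x := by rw [h.mcomm, h.omul]

theorem cases' (h : Raw S) : ∀ x : M, x = 0 ∨ ∃ y, x = y + 1 :=
  h.induct (fun x => x = 0 ∨ ∃ y, x = y + 1) (by (repeat' (first
      | assumption | exact ArT.const _ | exact ArT.var _ | apply ArT.add | apply ArT.mul
      | apply ArT.pr | exact Ar.prop _ | apply Ar.and | apply Ar.or | apply Ar.not | apply Ar.iff
      | apply Ar.ex | apply Ar.imp | apply Ar.all | apply Ar.eq | apply Ar.ne | apply Ar.lt
      | apply Ar.le | apply Ar.bit | apply Ar.E | (apply Ar.mem; assumption)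
      | (refine Ar.app1 ?_ ?_; assumption) | (refine Ar.app2 ?_ ?_ ?_; assumption)
      | (refine Ar.app3 ?_ ?_ ?_ ?_; assumption)))) (Or.inl rfl)
    (fun x _ => Or.inr ⟨x, rfl⟩)

theorem acanc (h : Raw S) (y z : M) : ∀ x : M, x + y = x + z → y = z :=
  h.induct (fun x => x + y = x + z → y = z) (by (repeat' (first
      | assumption | exact ArT.const _ | exact ArT.var _ | apply ArT.add | apply ArT.mul
      | apply ArT.pr | exact Ar.prop _ | apply Ar.and | apply Ar.or | apply Ar.not | apply Ar.iff
      | apply Ar.ex | apply Ar.imp | apply Ar.all | apply Ar.eq | apply Ar.ne | apply Ar.lt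
      | apply Ar.le | apply Ar.bit | apply Ar.E | (apply Ar.mem; assumption)
      | (refine Ar.app1 ?_ ?_; assumption) | (refine Ar.app2 ?_ ?_ ?_; assumption)
      | (refine Ar.app3 ?_ ?_ ?_ ?_; assumption))))
    (fun hh => by rwa [h.zadd, h.zadd] at hh)
    (fun x hx hh => by
      rw [h.sadd, h.sadd] at hh
      exact hx (h.succ_inj _ _ hh))

theorem lt_iff' (h : Raw S) (x : M) : ∀ y : M, x < y ↔ ∃ z, y = x + (z + 1) :=
  h.induct (fun y => x < y ↔ ∃ z, y = x + (z + 1)) (by (repeat' (first
      | assumption | exact ArT.const _ | exact ArT.var _ | apply ArT.add | apply ArT.mul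
      | apply ArT.pr | exact Ar.prop _ | apply Ar.and | apply Ar.or | apply Ar.not | apply Ar.iff
      | apply Ar.ex | apply Ar.imp | apply Ar.all | apply Ar.eq | apply Ar.ne | apply Ar.lt
      | apply Ar.le | apply Ar.bit | apply Ar.E | (apply Ar.mem; assumption)
      | (refine Ar.app1 ?_ ?_; assumption) | (refine Ar.app2 ?_ ?_ ?_; assumption)
      | (refine Ar.app3 ?_ ?_ ?_ ?_; assumption))))
    (by
      constructor
      · intro h0; exact absurd h0 (h.not_lt_zero' x)
      · rintro ⟨z, hz⟩
        rw [h.add_succ'] at hz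
        exact absurd hz.symm (h.succ_ne_zero _))
    (fun y hy => by
      rw [h.lt_succ', hy]
      constructor
      · rintro (⟨z, hz⟩ | hxy)
        · exact ⟨z + 1, by rw [hz, h.add_succ' x (z + 1)]⟩
        · exact ⟨0, by rw [h.zadd, hxy]⟩
      · rintro ⟨z, hz⟩
        rcases h.cases' z with h0 | ⟨w, hw⟩
        · right
          rw [h0, h.zadd] at hz
          exact (h.succ_inj _ _ hz).symm
        · left
          refine ⟨w, ?_⟩
          rw [hw, h.add_succ' x (w + 1)] at hz
          exact h.succ_inj _ _ hz)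

theorem lt_def' (h : Raw S) {x y : M} (z : M) (hz : y = x + (z + 1)) : x < y :=
  (h.lt_iff' x y).2 ⟨z, hz⟩

theorem irrefl' (h : Raw S) (x : M) : ¬ x < x := by
  intro hx
  obtain ⟨z, hz⟩ := (h.lt_iff' x x).1 hx
  have h1 : x + 0 = x + (z + 1) := by rw [h.add_zero']; exact hz
  exact h.succ_ne_zero z (h.acanc _ _ _ h1).symm

theorem trans' (h : Raw S) {x y z : M} (hxy : x < y) (hyz : y < z) : x < z := by
  obtain ⟨a, ha⟩ := (h.lt_iff' x y).1 hxy
  obtain ⟨b, hb⟩ := (h.lt_iff' y z).1 hyz
  refine h.lt_def' (a + 1 + b) ?_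
  rw [hb, ha, h.aassoc, h.aassoc (a + 1) b 1]

theorem tri' (h : Raw S) (x : M) : ∀ y : M, x < y ∨ x = y ∨ y < x :=
  h.induct (fun y => x < y ∨ x = y ∨ y < x) (by (repeat' (first
      | assumption | exact ArT.const _ | exact ArT.var _ | apply ArT.add | apply ArT.mul
      | apply ArT.pr | exact Ar.prop _ | apply Ar.and | apply Ar.or | apply Ar.not | apply Ar.iff
      | apply Ar.ex | apply Ar.imp | apply Ar.all | apply Ar.eq | apply Ar.ne | apply Ar.lt
      | apply Ar.le | apply Ar.bit | apply Ar.E | (apply Ar.mem; assumption)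
      | (refine Ar.app1 ?_ ?_; assumption) | (refine Ar.app2 ?_ ?_ ?_; assumption)
      | (refine Ar.app3 ?_ ?_ ?_ ?_; assumption))))
    (by
      rcases h.cases' x with h0 | ⟨w, hw⟩
      · exact Or.inr (Or.inl h0)
      · exact Or.inr (Or.inr (h.lt_def' w (by rw [h.zadd, hw]))))
    (fun y hy => by
      rcases hy with h1 | h1 | h1
      · exact Or.inl ((h.lt_succ' _ _).2 (Or.inl h1))
      · exact Or.inl ((h.lt_succ' _ _).2 (Or.inr h1))
      · obtain ⟨z, hz⟩ := (h.lt_iff' y x).1 h1
        rcases h.cases' z with h0 | ⟨w, hw⟩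
        · right; left
          rw [hz, h0, h.zadd]
        · right; right
          refine h.lt_def' w ?_
          rw [hz, hw, h.add_succ' y (w + 1), h.sadd y (w + 1)])

theorem add_lt' (h : Raw S) {y z : M} (hyz : y < z) (x : M) : x + y < x + z := by
  obtain ⟨a, ha⟩ := (h.lt_iff' y z).1 hyz
  exact h.lt_def' a (by rw [ha, h.aassoc])

theorem mul_lt' (h : Raw S) {x y z : M} (hx : 0 < x) (hyz : y < z) : x * y < x * z := by
  obtain ⟨a, ha⟩ := (h.lt_iff' y z).1 hyz
  obtain ⟨b, hb⟩ := (h.lt_iff' 0 x).1 hx
  rw [h.zadd] at hb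
  refine h.lt_def' (b * (a + 1) + a) ?_
  rw [ha, h.madd, hb, h.smul b (a + 1), h.aassoc (b * (a + 1)) a 1]

end

end Raw

/-- the semiring structure -/
@[reducible] noncomputable def algSemiring {M : Type u} [iz : Zero M] [io : One M] [ia : Add M]
    [im : Mul M] [il : LT M] {S : Set (Set M)} (h : Raw S) : CommSemiring M where
  zero := iz.zero
  one := io.one
  add := fun x y => ia.add x y
  mul := fun x y => im.mul x y
  add_assoc := h.aassoc
  zero_add := h.zadd
  add_zero := h.add_zero'
  add_comm := h.acomm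
  left_distrib := h.madd
  right_distrib := h.addm
  zero_mul := h.zmul
  mul_zero := h.mul_zero'
  mul_assoc := h.massoc
  one_mul := h.omul
  mul_one := h.mulo
  mul_comm := h.mcomm
  nsmul := nsmulRec
  npow := npowRec

open Classical in
/-- the order -/
@[reducible] noncomputable def algOrder {M : Type u} [iz : Zero M] [io : One M] [ia : Add M]
    [im : Mul M] [il : LT M] {S : Set (Set M)} (h : Raw S) : LinearOrder M where
  le x y := x < y ∨ x = y
  lt x y := il.lt x y
  le_refl x := Or.inr rfl
  le_trans x y z hxy hyz := by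
    rcases hxy with hxy | rfl
    · rcases hyz with hyz | rfl
      · exact Or.inl (h.trans' hxy hyz)
      · exact Or.inl hxy
    · exact hyz
  lt_iff_le_not_ge x y := by
    constructor
    · intro hxy
      refine ⟨Or.inl hxy, ?_⟩
      rintro (hyx | hyx)
      · exact h.irrefl' x (h.trans' hxy hyx)
      · subst hyx; exact h.irrefl' _ hxy
    · rintro ⟨hxy | hxy, hn⟩
      · exact hxy
      · exact absurd (Or.inr hxy.symm) hn
  le_antisymm x y hxy hyx := by
    rcases hxy with hxy | rfl
    · rcases hyx with hyx | rfl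
      · exact absurd (h.trans' hxy hyx) (h.irrefl' x)
      · rfl
    · rfl
  le_total x y := by
    rcases h.tri' x y with h1 | h1 | h1
    · exact Or.inl (Or.inl h1)
    · exact Or.inl (Or.inr h1)
    · exact Or.inr (Or.inl h1)
  toDecidableLE := Classical.decRel _

theorem alg_exists {M : Type u} [iz : Zero M] [io : One M] [ia : Add M] [im : Mul M] [il : LT M]
    {S : Set (Set M)} (h : Raw S) :
    ∃ (i1 : CommSemiring M) (i2 : LinearOrder M),
      iz = (MulZeroClass.toZero : Zero M) ∧
      io = (AddMonoidWithOne.toOne : One M) ∧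
      ia = (Distrib.toAdd : Add M) ∧
      im = (Distrib.toMul : Mul M) ∧
      il = i2.toLT ∧
      IsStrictOrderedRing M ∧ CanonicallyOrderedAdd M ∧ Disc M := by
  refine ⟨algSemiring h, algOrder h, rfl, rfl, rfl, rfl, rfl, ?_, ?_, ?_⟩
  · let i1 := algSemiring h
    let i2 := algOrder h
    have hle : ∀ x y : M, x ≤ y ↔ (x < y ∨ x = y) := fun x y => Iff.rfl
    have hz1 : (0 : M) < 1 := h.lt_def' 0 (by
      show (1 : M) = 0 + (0 + 1)
      simp)
    have hal : ∀ a b c : M, a ≤ b → c + a ≤ c + b := by
      rintro a b c (hab | rfl)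
      · exact Or.inl (h.add_lt' hab c)
      · exact Or.inr rfl
    have hcl : ∀ a b c : M, a + b ≤ a + c → b ≤ c := by
      intro a b c hh
      by_contra hn
      have h1 : c < b := not_le.1 hn
      have h2 : a + c < a + b := h.add_lt' h1 a
      exact absurd hh (not_le.2 h2)
    exact
      { add_le_add_left := fun a b hab c => by
          have := hal a b c hab
          rw [add_comm a c, add_comm b c]
          exact this
        add_le_add_right := fun a b hab c => hal a b c hab
        le_of_add_le_add_left := hcl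
        le_of_add_le_add_right := fun a b c hh => hcl a b c (by
          rw [add_comm a b, add_comm a c]; exact hh)
        zero_le_one := Or.inl hz1
        exists_pair_ne := ⟨0, 1, ne_of_lt hz1⟩
        mul_lt_mul_of_pos_left := fun a ha b c hbc => h.mul_lt' ha hbc
        mul_lt_mul_of_pos_right := fun a ha b c hbc => by
          have := h.mul_lt' ha hbc
          rw [mul_comm b a, mul_comm c a]
          exact this }
  · let i1 := algSemiring h
    let i2 := algOrder h
    have hsa : ∀ a b : M, a ≤ a + b := by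
      intro a b
      rcases h.cases' b with hb | ⟨c, hc⟩
      · right; rw [hb]; exact (h.add_zero' a).symm
      · left; exact h.lt_def' c (by rw [hc])
    exact
      { exists_add_of_le := by
          rintro a b (hab | rfl)
          · obtain ⟨z, hz⟩ := (h.lt_iff' a b).1 hab
            exact ⟨z + 1, hz⟩
          · exact ⟨0, (h.add_zero' a).symm⟩
        le_add_self := fun a b => by rw [add_comm b a]; exact hsa a b
        le_self_add := hsa }
  · let i1 := algSemiring h
    let i2 := algOrder h
    refine ⟨fun x y hxy => ?_⟩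
    obtain ⟨z, hz⟩ := (h.lt_iff' x y).1 hxy
    have h1 : ∀ a b : M, a ≤ a + b := by
      intro a b
      rcases h.cases' b with hb | ⟨c, hc⟩
      · right; rw [hb]; exact (h.add_zero' a).symm
      · left; exact h.lt_def' c (by rw [hc])
    have h2 : y = (x + 1) + z := by
      rw [hz, add_assoc, add_comm 1 z]
    rw [h2]
    exact h1 _ _

end Pool.Agent.Lib.Hin
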