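import Pool.Agent.Lib.Hin.Defs

/-!
# Arithmetical predicates

`Ar S P` : the predicate `P` on valuations `v : ℕ → M` is arithmetical with number parameters and
set parameters from `S`.  Tactic `ar` proves goals `Ar S (fun v => ...)`.
-/

namespace Pool.Agent.Lib.Hin

universe u

section
variable {M : Type u} [Zero M] [One M] [Add M] [Mul M] [LT M]

/-- Term functions (with parameters). -/
inductive ArT : ((ℕ → M) → M) → Prop
  | var (i : ℕ) : ArT (fun v => v i)
  | const (a : M) : ArT (fun _ => a)
  | add {s t : (ℕ → M) → M} (hs : ArT s) (ht : ArT t) : ArT (fun v => s v + t v)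
  | mul {s t : (ℕ → M) → M} (hs : ArT s) (ht : ArT t) : ArT (fun v => s v * t v)

/-- Arithmetical predicates with number parameters and set parameters from `S`. -/
inductive Ar (S : Set (Set M)) : ((ℕ → M) → Prop) → Prop
  | eq {s t : (ℕ → M) → M} (hs : ArT s) (ht : ArT t) : Ar S (fun v => s v = t v)
  | lt {s t : (ℕ → M) → M} (hs : ArT s) (ht : ArT t) : Ar S (fun v => s v < t v)
  | mem {A : Set M} (hA : A ∈ S) {t : (ℕ → M) → M} (ht : ArT t) : Ar S (fun v => t v ∈ A)
  | not {P : (ℕ → M) → Prop} (hP : Ar S P) : Ar S (fun v => ¬ P v)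
  | and {P Q : (ℕ → M) → Prop} (hP : Ar S P) (hQ : Ar S Q) : Ar S (fun v => P v ∧ Q v)
  | all {P : M → (ℕ → M) → Prop} (hP : Ar S (fun v => P (v 0) (fun i => v (i + 1)))) :
      Ar S (fun v => ∀ x, P x v)

namespace Ar

variable {S : Set (Set M)}

theorem congr {P Q : (ℕ → M) → Prop} (hP : Ar S P) (h : ∀ v, P v ↔ Q v) : Ar S Q := by
  have : P = Q := funext fun v => propext (h v)
  exact this ▸ hP

theorem or {P Q : (ℕ → M) → Prop} (hP : Ar S P) (hQ : Ar S Q) : Ar S (fun v => P v ∨ Q v) :=
  (Ar.not (Ar.and (Ar.not hP) (Ar.not hQ))).congr fun v => by tauto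

theorem imp {P Q : (ℕ → M) → Prop} (hP : Ar S P) (hQ : Ar S Q) : Ar S (fun v => P v → Q v) :=
  (Ar.not (Ar.and hP (Ar.not hQ))).congr fun v => by tauto

theorem iff {P Q : (ℕ → M) → Prop} (hP : Ar S P) (hQ : Ar S Q) : Ar S (fun v => P v ↔ Q v) :=
  (Ar.and (Ar.imp hP hQ) (Ar.imp hQ hP)).congr fun v => by tauto

theorem ex {P : M → (ℕ → M) → Prop} (hP : Ar S (fun v => P (v 0) (fun i => v (i + 1)))) :
    Ar S (fun v => ∃ x, P x v) :=
  (Ar.not (Ar.all (P := fun x v => ¬ P x v) (Ar.not hP))).congr fun v => by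
    simp only [not_forall, not_not]

theorem tr : Ar S (fun _ => True) :=
  ((Ar.eq (S := S) (ArT.const (0 : M)) (ArT.const (0 : M)))).congr fun v => by simp

theorem fa : Ar S (fun _ => False) := (Ar.not tr).congr fun v => by simp

/-- a constant proposition -/
theorem prop (p : Prop) : Ar S (fun _ => p) := by
  by_cases hp : p
  · exact tr.congr fun v => by simp [hp]
  · exact fa.congr fun v => by simp [hp]

end Ar

/-- renaming of variables in a term function -/
theorem ArT.rename {t : (ℕ → M) → M} (ht : ArT t) (r : ℕ → ℕ) : ArT (fun v => t (fun i => v (r i))) := by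
  induction ht with
  | var i => exact ArT.var (r i)
  | const a => exact ArT.const a
  | add _ _ ih1 ih2 => exact ArT.add ih1 ih2
  | mul _ _ ih1 ih2 => exact ArT.mul ih1 ih2

/-- renaming of variables -/
theorem Ar.rename {S : Set (Set M)} {P : (ℕ → M) → Prop} (hP : Ar S P) :
    ∀ r : ℕ → ℕ, Ar S (fun v => P (fun i => v (r i))) := by
  induction hP with
  | eq hs ht => intro r; exact Ar.eq (hs.rename r) (ht.rename r)
  | lt hs ht => intro r; exact Ar.lt (hs.rename r) (ht.rename r)
  | mem hA ht => intro r; exact Ar.mem hA (ht.rename r)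
  | not _ ih => intro r; exact Ar.not (ih r)
  | and _ _ ih1 ih2 => intro r; exact Ar.and (ih1 r) (ih2 r)
  | @all P _ ih =>
    intro r
    refine Ar.all (P := fun x v => P x (fun i => v (r i))) ?_
    exact (ih (fun i => Nat.casesOn i 0 (fun j => r j + 1)))

/-- substitution of term functions in a term function -/
theorem ArT.subst {t : (ℕ → M) → M} (ht : ArT t) {σ : ℕ → (ℕ → M) → M} (hσ : ∀ i, ArT (σ i)) :
    ArT (fun v => t (fun i => σ i v)) := by
  induction ht with
  | var i => exact hσ i
  | const a => exact ArT.const a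
  | add _ _ ih1 ih2 => exact ArT.add ih1 ih2
  | mul _ _ ih1 ih2 => exact ArT.mul ih1 ih2

/-- substitution of term functions -/
theorem Ar.subst {S : Set (Set M)} {P : (ℕ → M) → Prop} (hP : Ar S P) :
    ∀ {σ : ℕ → (ℕ → M) → M}, (∀ i, ArT (σ i)) → Ar S (fun v => P (fun i => σ i v)) := by
  induction hP with
  | eq hs ht => intro σ hσ; exact Ar.eq (hs.subst hσ) (ht.subst hσ)
  | lt hs ht => intro σ hσ; exact Ar.lt (hs.subst hσ) (ht.subst hσ)
  | mem hA ht => intro σ hσ; exact Ar.mem hA (ht.subst hσ)
  | not _ ih => intro σ hσ; exact Ar.not (ih hσ)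
  | and _ _ ih1 ih2 => intro σ hσ; exact Ar.and (ih1 hσ) (ih2 hσ)
  | @all P _ ih =>
    intro σ hσ
    refine Ar.all (P := fun x v => P x (fun i => σ i v)) ?_
    refine ih (σ := fun i => Nat.casesOn i (fun v => v 0) (fun j v => σ j (fun i => v (i + 1)))) ?_
    intro i
    cases i with
    | zero => exact ArT.var 0
    | succ j => exact (hσ j).rename (fun i => i + 1)

/-- a unary relation which is arithmetical, applied to a term -/
theorem Ar.app1 {S : Set (Set M)} {R : M → Prop} (hR : Ar S (fun v => R (v 0)))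
    {s : (ℕ → M) → M} (hs : ArT s) : Ar S (fun v => R (s v)) :=
  hR.subst (σ := fun _ => s) (fun _ => hs)

/-- a binary relation which is arithmetical, applied to terms -/
theorem Ar.app2 {S : Set (Set M)} {R : M → M → Prop} (hR : Ar S (fun v => R (v 0) (v 1)))
    {s t : (ℕ → M) → M} (hs : ArT s) (ht : ArT t) : Ar S (fun v => R (s v) (t v)) :=
  hR.subst (σ := fun i => Nat.casesOn i s (fun _ => t)) (fun i => by cases i <;> assumption)

/-- a ternary relation which is arithmetical, applied to terms -/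
theorem Ar.app3 {S : Set (Set M)} {R : M → M → M → Prop} (hR : Ar S (fun v => R (v 0) (v 1) (v 2)))
    {s t r : (ℕ → M) → M} (hs : ArT s) (ht : ArT t) (hr : ArT r) :
    Ar S (fun v => R (s v) (t v) (r v)) :=
  hR.subst (σ := fun i => Nat.casesOn i s (fun j => Nat.casesOn j t (fun _ => r)))
    (fun i => by
      rcases i with _ | _ | i <;> assumption)

end


end Pool.Agent.Lib.Hin
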