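import Pool.Agent.Lib.Hin.Ar

/-!
# The working environment: a model of `ACA_0` as an ordered semiring

`N` is an ordered semiring (`CommSemiring`, `LinearOrder`, `IsStrictOrderedRing`,
`CanonicallyOrderedAdd`) with `Disc N` (`x < y → x + 1 ≤ y`), `S : Set (Set N)` satisfies `PM S`:
arithmetical comprehension and induction.

`grind` proves linear arithmetic goals in `N` (it knows `0 ≤ x` and `x < y → x + 1 ≤ y`); write
`w + w` instead of `2 * w`.
-/

set_option linter.unusedSectionVars false

namespace Pool.Agent.Lib.Hin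

universe u

/-- discreteness of the order -/
class Disc (N : Type u) [Add N] [One N] [LE N] [LT N] : Prop where
  disc : ∀ x y : N, x < y → x + 1 ≤ y

theorem Ar.le {N : Type u} [CommSemiring N] [LinearOrder N] {S : Set (Set N)}
    {s t : (ℕ → N) → N} (hs : ArT s) (ht : ArT t) : Ar S (fun v => s v ≤ t v) :=
  (Ar.not (Ar.lt ht hs)).congr fun v => by simp

theorem Ar.ne {N : Type u} [CommSemiring N] [LinearOrder N] {S : Set (Set N)}
    {s t : (ℕ → N) → N} (hs : ArT s) (ht : ArT t) : Ar S (fun v => s v ≠ t v) :=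
  Ar.not (Ar.eq hs ht)

/-- `i` is in the finite set coded by `a, b`: `1 + (i + 1) * b` divides `a` -/
def bit {N : Type u} [CommSemiring N] (a b i : N) : Prop := ∃ q, a = (1 + (i + 1) * b) * q

/-- the words `A[x, x + l)` and `B[y, y + l)` are equal -/
def E {N : Type u} [CommSemiring N] [LinearOrder N] (A : Set N) (x : N) (B : Set N) (y l : N) :
    Prop := ∀ i, i < l → (x + i ∈ A ↔ y + i ∈ B)

/-- the code of the pair `(x, y)` -/
def pr {N : Type u} [CommSemiring N] (x y : N) : N := (x + y) * (x + y) + x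

theorem Ar.bit {N : Type u} [CommSemiring N] [LinearOrder N] {S : Set (Set N)}
    {a b i : (ℕ → N) → N} (ha : ArT a) (hb : ArT b) (hi : ArT i) :
    Ar S (fun v => bit (a v) (b v) (i v)) := by
  have h : Ar S (fun v : ℕ → N => Hin.bit (v 0) (v 1) (v 2)) := by
    apply Ar.ex
    apply Ar.eq
    · exact ArT.var _
    · exact ArT.mul (ArT.add (ArT.const _) (ArT.mul (ArT.add (ArT.var _) (ArT.const _))
        (ArT.var _))) (ArT.var _)
  exact h.app3 ha hb hi

theorem Ar.E {N : Type u} [CommSemiring N] [LinearOrder N] {S : Set (Set N)} {A B : Set N}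
    (hA : A ∈ S) (hB : B ∈ S) {x y l : (ℕ → N) → N} (hx : ArT x) (hy : ArT y) (hl : ArT l) :
    Ar S (fun v => E A (x v) B (y v) (l v)) := by
  have h : Ar S (fun v : ℕ → N => Hin.E A (v 0) B (v 1) (v 2)) := by
    apply Ar.all
    apply Ar.imp
    · exact Ar.lt (ArT.var _) (ArT.var _)
    · exact Ar.iff (Ar.mem hA (ArT.add (ArT.var _) (ArT.var _)))
        (Ar.mem hB (ArT.add (ArT.var _) (ArT.var _)))
  exact Ar.app3 (R := fun a b c => Hin.E A a B b c) h hx hy hl

theorem ArT.pr {N : Type u} [CommSemiring N] {x y : (ℕ → N) → N} (hx : ArT x) (hy : ArT y) :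
    ArT (fun v => pr (x v) (y v)) :=
  ArT.add (ArT.mul (ArT.add hx hy) (ArT.add hx hy)) hx


section
variable {N : Type u} [CommSemiring N] [LinearOrder N] [IsStrictOrderedRing N]
  [CanonicallyOrderedAdd N] [Disc N]

theorem nn_add (a b : N) : 0 ≤ a ∧ 0 ≤ b ∧ (0 : N) < 1 := ⟨zero_le, zero_le, zero_lt_one⟩
theorem nn_lt (a b : N) : 0 ≤ a ∧ 0 ≤ b ∧ (0 : N) < 1 := ⟨zero_le, zero_le, zero_lt_one⟩
theorem disc_lt {a b : N} (h : a < b) : a + 1 ≤ b := Disc.disc a b h
grind_pattern nn_add => a + b
grind_pattern nn_lt => a < b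
grind_pattern nn_lt => a ≤ b
grind_pattern disc_lt => a < b

/-- `(N, S)` satisfies arithmetical comprehension and induction. -/
structure PM (S : Set (Set N)) : Prop where
  comp : ∀ Q : N → Prop, Ar S (fun v => Q (v 0)) → {x | Q x} ∈ S
  ind : ∀ A ∈ S, (0 : N) ∈ A → (∀ x ∈ A, x + 1 ∈ A) → ∀ x, x ∈ A

variable {S : Set (Set N)}

/-- arithmetical induction -/
theorem PM.induct (h : PM S) (Q : N → Prop) (hQ : Ar S (fun v => Q (v 0))) (h0 : Q 0)
    (h1 : ∀ x, Q x → Q (x + 1)) : ∀ x, Q x :=
  fun x => h.ind {x | Q x} (h.comp Q hQ) h0 h1 x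

/-- arithmetical strong induction -/
theorem PM.strong (h : PM S) (Q : N → Prop) (hQ : Ar S (fun v => Q (v 0)))
    (h1 : ∀ x, (∀ y, y < x → Q y) → Q x) : ∀ x, Q x := by
  have key : ∀ x, ∀ y, y < x → Q y := by
    refine h.induct (fun x => ∀ y, y < x → Q y) (by (repeat' (first
        | assumption | exact ArT.const _ | exact ArT.var _ | apply ArT.add | apply ArT.mul
        | apply ArT.pr | exact Ar.prop _ | apply Ar.and | apply Ar.or | apply Ar.not | apply Ar.iff
        | apply Ar.ex | apply Ar.imp | apply Ar.all | apply Ar.eq | apply Ar.ne | apply Ar.lt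
        | apply Ar.le | apply Ar.bit | apply Ar.E | (apply Ar.mem; assumption)
        | (refine Ar.app1 ?_ ?_; assumption) | (refine Ar.app2 ?_ ?_ ?_; assumption)
        | (refine Ar.app3 ?_ ?_ ?_ ?_; assumption)))) ?_ ?_
    · intro y hy; exact absurd hy (by grind)
    · intro x ih y hy
      rcases lt_or_eq_of_le (show y ≤ x by grind) with h2 | h2
      · exact ih y h2
      · subst h2; exact h1 y ih
  intro x
  exact h1 x (key x)

/-- arithmetical least number principle -/
theorem PM.least (h : PM S) (Q : N → Prop) (hQ : Ar S (fun v => Q (v 0))) {x : N} (hx : Q x) :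
    ∃ y, Q y ∧ ∀ z, z < y → ¬ Q z := by
  by_contra hc
  have key : ∀ x, ¬ Q x := by
    refine h.strong (fun x => ¬ Q x) (by (repeat' (first
        | assumption | exact ArT.const _ | exact ArT.var _ | apply ArT.add | apply ArT.mul
        | apply ArT.pr | exact Ar.prop _ | apply Ar.and | apply Ar.or | apply Ar.not | apply Ar.iff
        | apply Ar.ex | apply Ar.imp | apply Ar.all | apply Ar.eq | apply Ar.ne | apply Ar.lt
        | apply Ar.le | apply Ar.bit | apply Ar.E | (apply Ar.mem; assumption)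
        | (refine Ar.app1 ?_ ?_; assumption) | (refine Ar.app2 ?_ ?_ ?_; assumption)
        | (refine Ar.app3 ?_ ?_ ?_ ?_; assumption)))) ?_
    intro x ih hxx
    exact hc ⟨x, hxx, ih⟩
  exact key x hx

/-- arithmetical collection -/
theorem PM.coll (h : PM S) (R : N → N → Prop) (hR : Ar S (fun v => R (v 0) (v 1))) (n : N)
    (hn : ∀ i, i < n → ∃ y, R i y) : ∃ B, ∀ i, i < n → ∃ y, y ≤ B ∧ R i y := by
  have key : ∀ m, m ≤ n → ∃ B, ∀ i, i < m → ∃ y, y ≤ B ∧ R i y := by
    refine h.induct (fun m => m ≤ n → ∃ B, ∀ i, i < m → ∃ y, y ≤ B ∧ R i y) (by (repeat' (first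
        | assumption | exact ArT.const _ | exact ArT.var _ | apply ArT.add | apply ArT.mul
        | apply ArT.pr | exact Ar.prop _ | apply Ar.and | apply Ar.or | apply Ar.not | apply Ar.iff
        | apply Ar.ex | apply Ar.imp | apply Ar.all | apply Ar.eq | apply Ar.ne | apply Ar.lt
        | apply Ar.le | apply Ar.bit | apply Ar.E | (apply Ar.mem; assumption)
        | (refine Ar.app1 ?_ ?_; assumption) | (refine Ar.app2 ?_ ?_ ?_; assumption)
        | (refine Ar.app3 ?_ ?_ ?_ ?_; assumption)))) ?_ ?_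
    · intro _; exact ⟨0, fun i hi => absurd hi (by grind)⟩
    · intro m ih hm
      obtain ⟨B, hB⟩ := ih (by grind)
      obtain ⟨y, hy⟩ := hn m (by grind)
      refine ⟨B + y, fun i hi => ?_⟩
      rcases lt_or_eq_of_le (show i ≤ m by grind) with h2 | h2
      · obtain ⟨z, hz, hz'⟩ := hB i h2
        exact ⟨z, by grind, hz'⟩
      · subst h2; exact ⟨y, by grind, hy⟩
  exact key n le_rfl

theorem E.refl (A : Set N) (x l : N) : E A x A x l := fun _ _ => Iff.rfl

theorem E.symm {A B : Set N} {x y l : N} (h : E A x B y l) : E B y A x l :=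
  fun i hi => (h i hi).symm

theorem E.trans {A B C : Set N} {x y z l : N} (h : E A x B y l) (h' : E B y C z l) : E A x C z l :=
  fun i hi => (h i hi).trans (h' i hi)

theorem E.mono {A B : Set N} {x y l l' : N} (h : E A x B y l) (hl : l' ≤ l) : E A x B y l' :=
  fun i hi => h i (lt_of_lt_of_le hi hl)

/-- a factor -/
theorem E.shift {A B : Set N} {x y l o l' : N} (h : E A x B y l) (hl : o + l' ≤ l) :
    E A (x + o) B (y + o) l' := by
  intro i hi
  have := h (o + i) (by grind)
  rwa [← add_assoc, ← add_assoc] at this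

theorem pr_inj {x y x' y' : N} (h : pr x y = pr x' y') : x = x' ∧ y = y' := by
  have key : ∀ {x y x' y' : N}, x + y < x' + y' → pr x y < pr x' y' := by
    intro x y x' y' h
    have h1 : (x + y) + 1 ≤ x' + y' := disc_lt h
    have h2 : ((x + y) + 1) * ((x + y) + 1) ≤ (x' + y') * (x' + y') := mul_self_le_mul_self zero_le h1
    have h3 : ((x + y) + 1) * ((x + y) + 1) = (x + y) * (x + y) + (x + y) + (x + y) + 1 := by ring
    unfold pr
    grind
  rcases lt_trichotomy (x + y) (x' + y') with h1 | h1 | h1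
  · exact absurd h (ne_of_lt (key h1))
  · unfold pr at h
    rw [h1] at h
    have h2 : x = x' := add_left_cancel h
    subst h2
    exact ⟨rfl, add_left_cancel h1⟩
  · exact absurd h.symm (ne_of_lt (key h1))

theorem pr_mono {x y x' y' : N} (h : x ≤ x') (h' : y ≤ y') : pr x y ≤ pr x' y' := by
  unfold pr
  exact add_le_add (mul_self_le_mul_self zero_le (add_le_add h h')) h

theorem le_pr_left (x y : N) : x ≤ pr x y := by
  unfold pr
  exact le_add_left le_rfl

theorem le_pr_right (x y : N) : y ≤ pr x y := by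
  unfold pr
  rcases eq_or_lt_of_le (zero_le (a := y)) with h | h
  · rw [← h]; exact zero_le
  · have h1 : 1 ≤ x + y := by grind
    have h2 : (x + y) * 1 ≤ (x + y) * (x + y) := mul_le_mul_of_nonneg_left h1 zero_le
    rw [mul_one] at h2
    grind

end

end Pool.Agent.Lib.Hin
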