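import Pool.Agent.Lib.Hin.Lang

/-!
# Chunk BLK: simultaneous blocking
-/

set_option linter.unusedSectionVars false

namespace Pool.Agent.Lib.Hin

universe u
variable {N : Type u} [CommSemiring N] [LinearOrder N] [IsStrictOrderedRing N]
  [CanonicallyOrderedAdd N] [Disc N] {S : Set (Set N)} {C : Set N} {L : N → N → Prop}

theorem Blk.mono {x l w N₀ x' l' N₁ : N} (hb : Blk C L x l w N₀) (he : E C x' C x l)
    (hl : l ≤ l') (hw : w < l) (hN : N₀ ≤ N₁) : Blk C L x' l' w N₁ := by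
  intro y hy hyx z hz hL hc
  refine hb y (hN.trans hy) ((hyx.mono hl).trans he) z ((hz.mono hl).trans he) hL ?_
  exact hc.trans (he w hw)

theorem blk_all (h : PM S) (hC : C ∈ S) (hL : Lang S C L)
    (hB : ∀ w x l, L x l → w < l →
      ∃ x' l' N₀, l ≤ l' ∧ E C x' C x l ∧ L x' l' ∧ Blk C L x' l' w N₀)
    {x l : N} (hx : L x l) (W : N) :
    ∃ x' l' N₀, l ≤ l' ∧ W ≤ l' ∧ E C x' C x l ∧ L x' l' ∧ ∀ w, w < W → Blk C L x' l' w N₀ := by
  have har := hL.ar
  refine h.induct (fun W => ∃ x' l' N₀, l ≤ l' ∧ W ≤ l' ∧ E C x' C x l ∧ L x' l' ∧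
    ∀ w, w < W → Blk C L x' l' w N₀) ?_ ?_ ?_ W
  · unfold Blk
    (repeat' (first
        | assumption | exact ArT.const _ | exact ArT.var _ | apply ArT.add | apply ArT.mul
        | apply ArT.pr | exact Ar.prop _ | apply Ar.and | apply Ar.or | apply Ar.not | apply Ar.iff
        | apply Ar.ex | apply Ar.imp | apply Ar.all | apply Ar.eq | apply Ar.ne | apply Ar.lt
        | apply Ar.le | apply Ar.bit | apply Ar.E | (apply Ar.mem; assumption)
        | (refine Ar.app1 ?_ ?_; assumption) | (refine Ar.app2 ?_ ?_ ?_; assumption)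
        | (refine Ar.app3 ?_ ?_ ?_ ?_; assumption)))
  · exact ⟨x, l, 0, le_rfl, zero_le, E.refl C x l, hx, fun w hw => absurd hw (by grind)⟩
  · rintro W ⟨x', l', N₀, h1, h2, h3, h4, h5⟩
    obtain ⟨x'', h6, h7⟩ := hL.ext x' l' (l' + 1) h4 (by grind)
    obtain ⟨y, k, N₁, h8, h9, h10, h11⟩ := hB W x'' (l' + 1) h7 (by grind)
    have hE : E C y C x' l' := (h9.mono (by grind)).trans h6
    refine ⟨y, k, N₀ + N₁, by grind, by grind, (hE.mono h1).trans h3, h10, fun w hw => ?_⟩
    rcases lt_or_eq_of_le (show w ≤ W by grind) with h12 | h12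
    · exact (h5 w h12).mono hE (by grind) (by grind) (by grind)
    · subst h12
      exact h11.mono (E.refl C y k) le_rfl (by grind) (by grind)

end Pool.Agent.Lib.Hin
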