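import Pool.Agent.Lib.Hin.Defs

/-!
# A Hilbert calculus for second order arithmetic

`Prov T φ`: there is a formal proof of `φ` from the axioms `T` in the usual Hilbert calculus for the
two-sorted first order language `L_2` (propositional tautologies, modus ponens, generalization,
substitution, instantiation, distribution and vacuous quantification for number and for set
quantifiers, equality axioms).
-/

namespace Pool.Agent.Lib.Hin

universe u

/-- simultaneous substitution of terms for the number variables of a term -/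
def Tm.subst (σ : ℕ → Tm) : Tm → Tm
  | .var i => σ i
  | .zero => .zero
  | .one => .one
  | .add s t => .add (s.subst σ) (t.subst σ)
  | .mul s t => .mul (s.subst σ) (t.subst σ)

/-- the substitution `σ` inside a number quantifier -/
def up (σ : ℕ → Tm) : ℕ → Tm
  | 0 => .var 0
  | i + 1 => (σ i).subst (fun j => .var (j + 1))

/-- the renaming `ρ` of the set variables inside a set quantifier -/
def upS (ρ : ℕ → ℕ) : ℕ → ℕ
  | 0 => 0
  | i + 1 => ρ i + 1

/-- simultaneous (capture avoiding) substitution of the terms `σ i` for the number variables and of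
the set variables `ρ i` for the set variables -/
def Fm.subst : (ℕ → Tm) → (ℕ → ℕ) → Fm → Fm
  | σ, _, .eq s t => .eq (s.subst σ) (t.subst σ)
  | σ, _, .lt s t => .lt (s.subst σ) (t.subst σ)
  | σ, ρ, .mem s i => .mem (s.subst σ) (ρ i)
  | σ, ρ, .neg φ => .neg (φ.subst σ ρ)
  | σ, ρ, .and φ ψ => .and (φ.subst σ ρ) (ψ.subst σ ρ)
  | σ, ρ, .all φ => .all (φ.subst (up σ) ρ)
  | σ, ρ, .allS φ => .allS (φ.subst σ (upS ρ))

/-- `φ` is a propositional tautology: true under all truth assignments to formulas that respect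
negation and conjunction. -/
def Taut (φ : Fm) : Prop :=
  ∀ val : Fm → Prop, (∀ ψ, val (.neg ψ) ↔ ¬ val ψ) → (∀ ψ χ, val (.and ψ χ) ↔ val ψ ∧ val χ) →
    val φ

/-- `Prov T φ`: `φ` is provable from the axioms `T` (free variables of axioms and theorems are
understood as universally quantified). -/
inductive Prov (T : Set Fm) : Fm → Prop
  /-- axioms -/
  | ax {φ : Fm} : φ ∈ T → Prov T φ
  /-- propositional tautologies -/
  | taut {φ : Fm} : Taut φ → Prov T φ
  /-- modus ponens -/
  | mp {φ ψ : Fm} : Prov T (.imp φ ψ) → Prov T φ → Prov T ψ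
  /-- generalization over number variables -/
  | gen {φ : Fm} : Prov T φ → Prov T (.all φ)
  /-- generalization over set variables -/
  | genS {φ : Fm} : Prov T φ → Prov T (.allS φ)
  /-- substitution for free variables -/
  | subst {φ : Fm} (σ : ℕ → Tm) (ρ : ℕ → ℕ) : Prov T φ → Prov T (φ.subst σ ρ)
  /-- `∀ x φ → φ(t)` -/
  | inst (φ : Fm) (t : Tm) : Prov T (.imp (.all φ) (φ.subst (push t .var) id))
  /-- `∀ X φ → φ(X_i)` -/
  | instS (φ : Fm) (i : ℕ) : Prov T (.imp (.allS φ) (φ.subst .var (push i id)))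
  /-- `∀ x (φ → ψ) → (∀ x φ → ∀ x ψ)` -/
  | dist (φ ψ : Fm) : Prov T (.imp (.all (.imp φ ψ)) (.imp (.all φ) (.all ψ)))
  /-- `∀ X (φ → ψ) → (∀ X φ → ∀ X ψ)` -/
  | distS (φ ψ : Fm) : Prov T (.imp (.allS (.imp φ ψ)) (.imp (.allS φ) (.allS ψ)))
  /-- `φ → ∀ x φ`, where `x` is not free in `φ` -/
  | vac (φ : Fm) : Prov T (.imp φ (.all (φ.subst (fun i => .var (i + 1)) id)))
  /-- `φ → ∀ X φ`, where `X` is not free in `φ` -/
  | vacS (φ : Fm) : Prov T (.imp φ (.allS (φ.subst .var (fun i => i + 1))))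
  /-- `t = t` -/
  | refl (t : Tm) : Prov T (.eq t t)
  /-- `s = t → (φ(s) → φ(t))` -/
  | leib (s t : Tm) (φ : Fm) : Prov T (.imp (.eq s t)
      (.imp (φ.subst (push s .var) id) (φ.subst (push t .var) id)))

/-! ### Substitution lemmas -/

theorem Tm.subst_var (t : Tm) : t.subst .var = t := by
  induction t with
  | var i => rfl
  | zero => rfl
  | one => rfl
  | add s t ih1 ih2 => simp only [Tm.subst, ih1, ih2]
  | mul s t ih1 ih2 => simp only [Tm.subst, ih1, ih2]

theorem up_var : up .var = .var := by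
  funext i; cases i <;> rfl

theorem upS_id : upS id = id := by
  funext i; cases i <;> rfl

theorem Fm.subst_id (φ : Fm) : φ.subst .var id = φ := by
  induction φ with
  | eq s t => simp only [Fm.subst, Tm.subst_var]
  | lt s t => simp only [Fm.subst, Tm.subst_var]
  | mem s i => simp only [Fm.subst, Tm.subst_var, id]
  | neg φ ih => simp only [Fm.subst, ih]
  | and φ ψ ih1 ih2 => simp only [Fm.subst, ih1, ih2]
  | all φ ih => simp only [Fm.subst, up_var, ih]
  | allS φ ih => simp only [Fm.subst, upS_id, ih]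

theorem Tm.subst_subst (σ τ : ℕ → Tm) (t : Tm) :
    (t.subst σ).subst τ = t.subst (fun i => (σ i).subst τ) := by
  induction t with
  | var i => rfl
  | zero => rfl
  | one => rfl
  | add s t ih1 ih2 => simp only [Tm.subst, ih1, ih2]
  | mul s t ih1 ih2 => simp only [Tm.subst, ih1, ih2]

theorem up_comp (σ τ : ℕ → Tm) :
    (fun i => (up σ i).subst (up τ)) = up (fun i => (σ i).subst τ) := by
  funext i
  cases i with
  | zero => rfl
  | succ i => simp only [up, Tm.subst_subst]; rfl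

theorem upS_comp (ρ π : ℕ → ℕ) : (fun i => upS π (upS ρ i)) = upS (fun i => π (ρ i)) := by
  funext i; cases i <;> rfl

theorem Fm.subst_subst (φ : Fm) : ∀ (σ τ : ℕ → Tm) (ρ π : ℕ → ℕ),
    (φ.subst σ ρ).subst τ π = φ.subst (fun i => (σ i).subst τ) (fun i => π (ρ i)) := by
  induction φ with
  | eq s t => intro σ τ ρ π; simp only [Fm.subst, Tm.subst_subst]
  | lt s t => intro σ τ ρ π; simp only [Fm.subst, Tm.subst_subst]
  | mem s i => intro σ τ ρ π; simp only [Fm.subst, Tm.subst_subst]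
  | neg φ ih => intro σ τ ρ π; simp only [Fm.subst, ih]
  | and φ ψ ih1 ih2 => intro σ τ ρ π; simp only [Fm.subst, ih1, ih2]
  | all φ ih => intro σ τ ρ π; simp only [Fm.subst, ih, up_comp]
  | allS φ ih => intro σ τ ρ π; simp only [Fm.subst, ih, upS_comp]

/-- a formula has only finitely many free variables -/
theorem Tm.fresh (t : Tm) : ∃ K : ℕ, ∀ σ σ' : ℕ → Tm, (∀ i, i < K → σ i = σ' i) →
    t.subst σ = t.subst σ' := by
  induction t with
  | var i => exact ⟨i + 1, fun σ σ' h => h i (by omega)⟩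
  | zero => exact ⟨0, fun _ _ _ => rfl⟩
  | one => exact ⟨0, fun _ _ _ => rfl⟩
  | add s t ih1 ih2 =>
    obtain ⟨K1, h1⟩ := ih1
    obtain ⟨K2, h2⟩ := ih2
    refine ⟨K1 + K2, fun σ σ' h => ?_⟩
    simp only [Tm.subst, h1 σ σ' (fun i hi => h i (by omega)), h2 σ σ' (fun i hi => h i (by omega))]
  | mul s t ih1 ih2 =>
    obtain ⟨K1, h1⟩ := ih1
    obtain ⟨K2, h2⟩ := ih2
    refine ⟨K1 + K2, fun σ σ' h => ?_⟩
    simp only [Tm.subst, h1 σ σ' (fun i hi => h i (by omega)), h2 σ σ' (fun i hi => h i (by omega))]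

theorem Fm.fresh (φ : Fm) : ∃ K : ℕ, ∀ (σ σ' : ℕ → Tm) (ρ ρ' : ℕ → ℕ), (∀ i, i < K → σ i = σ' i) →
    (∀ i, i < K → ρ i = ρ' i) → φ.subst σ ρ = φ.subst σ' ρ' := by
  induction φ with
  | eq s t =>
    obtain ⟨K1, h1⟩ := s.fresh
    obtain ⟨K2, h2⟩ := t.fresh
    refine ⟨K1 + K2, fun σ σ' ρ ρ' h _ => ?_⟩
    simp only [Fm.subst, h1 σ σ' (fun i hi => h i (by omega)), h2 σ σ' (fun i hi => h i (by omega))]
  | lt s t =>
    obtain ⟨K1, h1⟩ := s.fresh
    obtain ⟨K2, h2⟩ := t.fresh
    refine ⟨K1 + K2, fun σ σ' ρ ρ' h _ => ?_⟩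
    simp only [Fm.subst, h1 σ σ' (fun i hi => h i (by omega)), h2 σ σ' (fun i hi => h i (by omega))]
  | mem s j =>
    obtain ⟨K1, h1⟩ := s.fresh
    refine ⟨K1 + j + 1, fun σ σ' ρ ρ' h h' => ?_⟩
    simp only [Fm.subst, h1 σ σ' (fun i hi => h i (by omega)), h' j (by omega)]
  | neg φ ih =>
    obtain ⟨K, h1⟩ := ih
    exact ⟨K, fun σ σ' ρ ρ' h h' => by simp only [Fm.subst, h1 σ σ' ρ ρ' h h']⟩
  | and φ ψ ih1 ih2 =>
    obtain ⟨K1, h1⟩ := ih1
    obtain ⟨K2, h2⟩ := ih2
    refine ⟨K1 + K2, fun σ σ' ρ ρ' h h' => ?_⟩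
    simp only [Fm.subst, h1 σ σ' ρ ρ' (fun i hi => h i (by omega)) (fun i hi => h' i (by omega)),
      h2 σ σ' ρ ρ' (fun i hi => h i (by omega)) (fun i hi => h' i (by omega))]
  | all φ ih =>
    obtain ⟨K, h1⟩ := ih
    refine ⟨K, fun σ σ' ρ ρ' h h' => ?_⟩
    simp only [Fm.subst]
    rw [h1 (up σ) (up σ') ρ ρ' ?_ h']
    intro i hi
    cases i with
    | zero => rfl
    | succ i => simp only [up, h i (by omega)]
  | allS φ ih =>
    obtain ⟨K, h1⟩ := ih
    refine ⟨K, fun σ σ' ρ ρ' h h' => ?_⟩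
    simp only [Fm.subst]
    rw [h1 σ σ' (upS ρ) (upS ρ') h ?_]
    intro i hi
    cases i with
    | zero => rfl
    | succ i => simp only [upS, h' i (by omega)]

/-! ### Soundness -/

section
variable {M : Type u} [Zero M] [One M] [Add M] [Mul M] [LT M] {S : Set (Set M)}

theorem Tm.ev_subst (σ : ℕ → Tm) (t : Tm) (v : ℕ → M) :
    (t.subst σ).ev v = t.ev (fun i => (σ i).ev v) := by
  induction t with
  | var i => rfl
  | zero => rfl
  | one => rfl
  | add s t ih1 ih2 => simp only [Tm.subst, Tm.ev, ih1, ih2]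
  | mul s t ih1 ih2 => simp only [Tm.subst, Tm.ev, ih1, ih2]

theorem ev_up (σ : ℕ → Tm) (x : M) (v : ℕ → M) :
    (fun i => (up σ i).ev (push x v)) = push x (fun i => (σ i).ev v) := by
  funext i
  cases i with
  | zero => rfl
  | succ i => simp only [up, Tm.ev_subst]; rfl

theorem push_upS {α : Type*} (ρ : ℕ → ℕ) (X : α) (V : ℕ → α) :
    (fun i => push X V (upS ρ i)) = push X (fun i => V (ρ i)) := by
  funext i; cases i <;> rfl

theorem Fm.sat_subst (φ : Fm) : ∀ (σ : ℕ → Tm) (ρ : ℕ → ℕ) (v : ℕ → M) (V : ℕ → Set M),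
    (φ.subst σ ρ).sat S v V ↔ φ.sat S (fun i => (σ i).ev v) (fun i => V (ρ i)) := by
  induction φ with
  | eq s t => intro σ ρ v V; simp only [Fm.subst, Fm.sat, Tm.ev_subst]
  | lt s t => intro σ ρ v V; simp only [Fm.subst, Fm.sat, Tm.ev_subst]
  | mem s i => intro σ ρ v V; simp only [Fm.subst, Fm.sat, Tm.ev_subst]
  | neg φ ih => intro σ ρ v V; simp only [Fm.subst, Fm.sat, ih]
  | and φ ψ ih1 ih2 => intro σ ρ v V; simp only [Fm.subst, Fm.sat, ih1, ih2]
  | all φ ih => intro σ ρ v V; simp only [Fm.subst, Fm.sat, ih, ev_up]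
  | allS φ ih => intro σ ρ v V; simp only [Fm.subst, Fm.sat, ih, push_upS]

theorem sat_imp' (φ ψ : Fm) (v : ℕ → M) (V : ℕ → Set M) :
    (Fm.imp φ ψ).sat S v V ↔ (φ.sat S v V → ψ.sat S v V) := by
  simp only [Fm.imp, Fm.sat]; tauto

theorem push_self_ev (t : Tm) (v : ℕ → M) :
    (fun i => ((push t Tm.var : ℕ → Tm) i).ev v) = push (t.ev v) v := by
  funext i; cases i <;> rfl

theorem push_self_id {α : Type*} (k : ℕ) (V : ℕ → α) :
    (fun i => V ((push k id : ℕ → ℕ) i)) = push (V k) V := by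
  funext i; cases i <;> rfl

end

/-- soundness of the calculus -/
theorem Prov.sound {T : Set Fm} {φ : Fm} (h : Prov T φ) : Proves.{u} T φ := by
  intro M iz io ia im il S hne hT
  induction h with
  | ax h => exact hT _ h
  | taut h => intro v V hV; exact h (fun ψ => ψ.sat S v V) (fun _ => Iff.rfl) (fun _ _ => Iff.rfl)
  | mp _ _ ih1 ih2 => intro v V hV; exact (sat_imp' _ _ v V).1 (ih1 v V hV) (ih2 v V hV)
  | gen _ ih => intro v V hV x; exact ih _ V hV
  | genS _ ih =>
    intro v V hV X hX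
    refine ih v _ (fun i => ?_)
    cases i with
    | zero => exact hX
    | succ i => exact hV i
  | subst σ ρ _ ih => intro v V hV; rw [Fm.sat_subst]; exact ih _ _ (fun i => hV _)
  | inst φ t =>
    intro v V hV
    rw [sat_imp', Fm.sat_subst, push_self_ev]
    intro h
    exact h (t.ev v)
  | instS φ i =>
    intro v V hV
    rw [sat_imp', Fm.sat_subst, push_self_id]
    intro h
    exact h (V i) (hV i)
  | dist φ ψ =>
    intro v V hV
    rw [sat_imp', sat_imp']
    intro h1 h2 x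
    exact (sat_imp' _ _ _ V).1 (h1 x) (h2 x)
  | distS φ ψ =>
    intro v V hV
    rw [sat_imp', sat_imp']
    intro h1 h2 X hX
    exact (sat_imp' _ _ v _).1 (h1 X hX) (h2 X hX)
  | vac φ =>
    intro v V hV
    rw [sat_imp']
    intro h x
    rw [Fm.sat_subst]
    exact h
  | vacS φ =>
    intro v V hV
    rw [sat_imp']
    intro h X hX
    rw [Fm.sat_subst]
    exact h
  | refl t => intro v V hV; rfl
  | leib s t φ =>
    intro v V hV
    rw [sat_imp', sat_imp', Fm.sat_subst, Fm.sat_subst, push_self_ev, push_self_ev]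
    intro h1 h2
    have h3 : s.ev v = t.ev v := h1
    rw [← h3]; exact h2

end Pool.Agent.Lib.Hin
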