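import Pool.Agent.Lib.Hin.Rec

/-!
# Chunk ORB: orbits (uses `rec_exists`)

Proof.  `H x y := x < y ∧ R x y ∧ I y ∧ ∀ z, z < y → ¬ (x < z ∧ R x z ∧ I z)` (`y` is the least
successor of `x`) is arithmetical, for `I x` there is exactly one such `y` (`PM.least`).
Apply `rec_exists` to
`Φ n P := n = x₀ ∨ (x₀ < n ∧ ∃ x, x < n ∧ P x ∧ (∀ z, x < z → z < n → ¬ P z) ∧ H x n)`
(local: only `P` below `n`).  So `O` satisfies: `y ∈ O` iff `y = x₀` or `x₀ < y` and the largest
element `x` of `O` below `y` exists and `H x y`.  All claims are immediate except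
`∀ x ∈ O, ∃ y ∈ O, x < y`: let `H x y`.  If there is `z ∈ O` with `x < z`, `z < y` we are done
(take `z`), otherwise `y ∈ O` by the recursion.
-/

set_option linter.unusedSectionVars false

namespace Pool.Agent.Lib.Hin

universe u
variable {N : Type u} [CommSemiring N] [LinearOrder N] [IsStrictOrderedRing N]
  [CanonicallyOrderedAdd N] [Disc N] {S : Set (Set N)}

theorem orbit_exists (h : PM S) (I : N → Prop) (hI : Ar S (fun v => I (v 0)))
    (R : N → N → Prop) (hR : Ar S (fun v => R (v 0) (v 1)))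
    (hs : ∀ x, I x → ∃ y, x < y ∧ R x y ∧ I y) (x₀ : N) (h0 : I x₀) :
    ∃ O ∈ S, x₀ ∈ O ∧ (∀ x ∈ O, I x) ∧ (∀ x ∈ O, ∃ y ∈ O, x < y) ∧
      (∀ y ∈ O, y = x₀ ∨ ∃ x ∈ O, x < y ∧ R x y ∧ ∀ z ∈ O, z < y → z ≤ x) := by
  obtain ⟨O, hOS, hO⟩ := rec_exists h
    (fun n P => n = x₀ ∨ (x₀ < n ∧ ∃ x, x < n ∧ P x ∧ (∀ z, x < z → z < n → ¬ P z) ∧
      (x < n ∧ R x n ∧ I n ∧ ∀ z, z < n → ¬ (x < z ∧ R x z ∧ I z))))
    (by (repeat' (first
        | assumption | exact ArT.const _ | exact ArT.var _ | apply ArT.add | apply ArT.mul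
        | apply ArT.pr | exact Ar.prop _ | apply Ar.and | apply Ar.or | apply Ar.not | apply Ar.iff
        | apply Ar.ex | apply Ar.imp | apply Ar.all | apply Ar.eq | apply Ar.ne | apply Ar.lt
        | apply Ar.le | apply Ar.bit | apply Ar.E | (apply Ar.mem; assumption)
        | (refine Ar.app1 ?_ ?_; assumption) | (refine Ar.app2 ?_ ?_ ?_; assumption)
        | (refine Ar.app3 ?_ ?_ ?_ ?_; assumption)))) (by
      intro n P Q hPQ hP
      rcases hP with hP | ⟨h1, x, h2, h3, h4, h5⟩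
      · exact Or.inl hP
      · refine Or.inr ⟨h1, x, h2, (hPQ x h2).1 h3, ?_, h5⟩
        intro z hz hzn hQ
        exact h4 z hz hzn ((hPQ z hzn).2 hQ))
  have hge : ∀ y ∈ O, x₀ ≤ y := by
    intro y hy
    rcases (hO y).1 hy with h1 | h1
    · exact h1.ge
    · exact h1.1.le
  have hI' : ∀ y ∈ O, I y := by
    intro y hy
    rcases (hO y).1 hy with h1 | ⟨_, x, _, _, _, h5⟩
    · rw [h1]; exact h0
    · exact h5.2.2.1
  refine ⟨O, hOS, (hO x₀).2 (Or.inl rfl), hI', ?_, ?_⟩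
  · intro x hx
    obtain ⟨y₀, hy₀⟩ := hs x (hI' x hx)
    obtain ⟨y, hy, hmin⟩ := h.least (fun y => x < y ∧ R x y ∧ I y) (by (repeat' (first
        | assumption | exact ArT.const _ | exact ArT.var _ | apply ArT.add | apply ArT.mul
        | apply ArT.pr | exact Ar.prop _ | apply Ar.and | apply Ar.or | apply Ar.not | apply Ar.iff
        | apply Ar.ex | apply Ar.imp | apply Ar.all | apply Ar.eq | apply Ar.ne | apply Ar.lt
        | apply Ar.le | apply Ar.bit | apply Ar.E | (apply Ar.mem; assumption)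
        | (refine Ar.app1 ?_ ?_; assumption) | (refine Ar.app2 ?_ ?_ ?_; assumption)
        | (refine Ar.app3 ?_ ?_ ?_ ?_; assumption)))) hy₀
    by_cases hz : ∃ z ∈ O, x < z ∧ z < y
    · obtain ⟨z, hz, hxz, _⟩ := hz
      exact ⟨z, hz, hxz⟩
    · refine ⟨y, (hO y).2 (Or.inr ⟨lt_of_le_of_lt (hge x hx) hy.1, x, hy.1, hx, ?_, hy.1, hy.2.1,
        hy.2.2, fun z hz hc => hmin z hz hc⟩), hy.1⟩
      intro z hxz hzy hzO
      exact hz ⟨z, hzO, hxz, hzy⟩
  · intro y hy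
    rcases (hO y).1 hy with h1 | ⟨_, x, h2, h3, h4, h5⟩
    · exact Or.inl h1
    · refine Or.inr ⟨x, h3, h2, h5.2.1, ?_⟩
      intro z hz hzy
      by_contra hc
      exact h4 z (not_le.1 hc) hzy hz

end Pool.Agent.Lib.Hin
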