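import Pool.Agent.Lib.Hin.Lang
import Pool.Agent.Lib.Hin.Orbit

/-!
# Chunk CA: case A (uses `orbit_exists`)

States are codes `pr x' l'` of words.  `I q := ∃ x' l', q = pr x' l' ∧ l ≤ l' ∧ E C x' C x l ∧
L x' l'`,  `R q q' := ∃ x' l' z y, q = pr x' l' ∧ q' = pr z (y + w + w + 1) ∧ l' ≤ y ∧
E C y C x' l' ∧ E C z C x' l' ∧ (z + (y + w + w) ∈ C ↔ x' + w ∈ C)`.
Successors: `hno` with `N₀ = l'` (unfold `Blk`, `push_neg`) gives `y, z`; by `hL.far` we may move
`z` to `z' ≥ x'` (`congr`), then `pr x' l' < pr z' (y + w + w + 1)` (`pr` is strictly increasing: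
`pr_mono` and `pr_inj`).
Let `O` be the orbit from `x₀ = pr x l`.
(1) coherence: `pr x' l', pr z k ∈ O`, `pr x' l' < pr z k` imply `l' < k` and `E C z C x' l'`
(strong induction on `pr z k`, arithmetical).
(2) lengths are unbounded: `∀ K, ∃ x' l', pr x' l' ∈ O ∧ K ≤ l'` (induction on `K`).
(3) `f = {i | ∃ x' l', pr x' l' ∈ O ∧ i < l' ∧ x' + i ∈ C} ∈ S`; by (1), `E f 0 C x' l'` for
`pr x' l' ∈ O`.
(4) `Pw`: given `m, N₀` choose `pr x' l' ∈ O` with `m + N₀ + l ≤ l'` and not the first one; the next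
element is `q' = pr z (y + w + w + 1)` (take an element of `O` above, then the least such one in
`O`; its predecessor is `pr x' l'`).  `l' ≤ y`, `E C y C x' l'`, so `E C y f 0 l'`; and
`y + w + w ∈ f ↔ z + (y + w + w) ∈ C ↔ x' + w ∈ C ↔ w ∈ f`.
-/

set_option linter.unusedSectionVars false

namespace Pool.Agent.Lib.Hin

universe u
variable {N : Type u} [CommSemiring N] [LinearOrder N] [IsStrictOrderedRing N]
  [CanonicallyOrderedAdd N] [Disc N] {S : Set (Set N)} {C : Set N} {L : N → N → Prop}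

theorem caseA (h : PM S) (hC : C ∈ S) (hL : Lang S C L) {w x l : N} (hw : w < l) (hx : L x l)
    (hno : ∀ x' l' N₀, l ≤ l' → E C x' C x l → L x' l' → ¬ Blk C L x' l' w N₀) :
    ∃ f ∈ S, Pw C f w := by
  have hLar := hL.ar
  obtain ⟨O, hO, hx0, hOI, hOu, hOp⟩ := orbit_exists h
    (fun q => ∃ x' l', q = pr x' l' ∧ l ≤ l' ∧ E C x' C x l ∧ L x' l') (by (repeat' (first
        | assumption | exact ArT.const _ | exact ArT.var _ | apply ArT.add | apply ArT.mul
        | apply ArT.pr | exact Ar.prop _ | apply Ar.and | apply Ar.or | apply Ar.not | apply Ar.iff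
        | apply Ar.ex | apply Ar.imp | apply Ar.all | apply Ar.eq | apply Ar.ne | apply Ar.lt
        | apply Ar.le | apply Ar.bit | apply Ar.E | (apply Ar.mem; assumption)
        | (refine Ar.app1 ?_ ?_; assumption) | (refine Ar.app2 ?_ ?_ ?_; assumption)
        | (refine Ar.app3 ?_ ?_ ?_ ?_; assumption))))
    (fun q q' => ∃ x' l' z y, q = pr x' l' ∧ q' = pr z (y + w + w + 1) ∧ l' ≤ y ∧
      E C y C x' l' ∧ E C z C x' l' ∧ (z + (y + w + w) ∈ C ↔ x' + w ∈ C)) (by (repeat' (first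
          | assumption | exact ArT.const _ | exact ArT.var _ | apply ArT.add | apply ArT.mul
          | apply ArT.pr | exact Ar.prop _ | apply Ar.and | apply Ar.or | apply Ar.not | apply Ar.iff
          | apply Ar.ex | apply Ar.imp | apply Ar.all | apply Ar.eq | apply Ar.ne | apply Ar.lt
          | apply Ar.le | apply Ar.bit | apply Ar.E | (apply Ar.mem; assumption)
          | (refine Ar.app1 ?_ ?_; assumption) | (refine Ar.app2 ?_ ?_ ?_; assumption)
          | (refine Ar.app3 ?_ ?_ ?_ ?_; assumption))))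
    (by
      rintro q ⟨x', l', rfl, hl, hE, hLx⟩
      have h1 := hno x' l' l' hl hE hLx
      unfold Blk at h1
      push Not at h1
      obtain ⟨y, hy, hyE, z, hzE, hzL, hz⟩ := h1
      obtain ⟨z', hz', hz'E⟩ := hL.far z (y + w + w + 1) hzL x'
      have hlt : l' ≤ y + w + w + 1 := by grind
      have hzx : E C z' C x' l' := (hz'E.mono hlt).trans hzE
      refine ⟨pr z' (y + w + w + 1), ?_, ⟨x', l', z', y, rfl, rfl, hy, hyE, hzx, ?_⟩,
        ⟨z', y + w + w + 1, rfl, by grind, (hzx.mono hl).trans hE,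
          hL.congr _ _ _ hz'E.symm hzL⟩⟩
      · refine lt_of_le_of_ne (pr_mono hz' hlt) ?_
        intro hc
        have := (pr_inj hc).2
        grind
      · exact (hz'E (y + w + w) (by grind)).trans hz)
    (pr x l) ⟨x, l, rfl, le_rfl, E.refl _ _ _, hx⟩
  -- the first element
  have hmin : ∀ q ∈ O, pr x l ≤ q := by
    obtain ⟨m, hm, hmm⟩ := h.least (fun q => q ∈ O) (by (repeat' (first
        | assumption | exact ArT.const _ | exact ArT.var _ | apply ArT.add | apply ArT.mul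
        | apply ArT.pr | exact Ar.prop _ | apply Ar.and | apply Ar.or | apply Ar.not | apply Ar.iff
        | apply Ar.ex | apply Ar.imp | apply Ar.all | apply Ar.eq | apply Ar.ne | apply Ar.lt
        | apply Ar.le | apply Ar.bit | apply Ar.E | (apply Ar.mem; assumption)
        | (refine Ar.app1 ?_ ?_; assumption) | (refine Ar.app2 ?_ ?_ ?_; assumption)
        | (refine Ar.app3 ?_ ?_ ?_ ?_; assumption)))) hx0
    intro q hq
    have h1 : m ≤ q := by
      by_contra hc
      exact hmm q (not_le.mp hc) hq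
    rcases hOp m hm with h2 | ⟨p, hp, hpm, -, -⟩
    · rw [← h2]; exact h1
    · exact absurd hp (hmm p hpm)
  -- coherence
  have hcoh : ∀ n, ∀ x' l' z k, n = pr z k → pr z k ∈ O → pr x' l' ∈ O → pr x' l' < pr z k →
      l' < k ∧ E C z C x' l' := by
    refine h.strong (fun n => ∀ x' l' z k, n = pr z k → pr z k ∈ O → pr x' l' ∈ O →
      pr x' l' < pr z k → l' < k ∧ E C z C x' l') (by (repeat' (first
          | assumption | exact ArT.const _ | exact ArT.var _ | apply ArT.add | apply ArT.mul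
          | apply ArT.pr | exact Ar.prop _ | apply Ar.and | apply Ar.or | apply Ar.not | apply Ar.iff
          | apply Ar.ex | apply Ar.imp | apply Ar.all | apply Ar.eq | apply Ar.ne | apply Ar.lt
          | apply Ar.le | apply Ar.bit | apply Ar.E | (apply Ar.mem; assumption)
          | (refine Ar.app1 ?_ ?_; assumption) | (refine Ar.app2 ?_ ?_ ?_; assumption)
          | (refine Ar.app3 ?_ ?_ ?_ ?_; assumption)))) ?_
    intro n ih x' l' z k hn hz hx' hlt
    rcases hOp _ hz with h2 | ⟨p, hp, hpm, ⟨x₁, l₁, z₁, y, hp1, hz1, hly, hyE, hzE, -⟩, hpl⟩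
    · exact absurd (hmin _ hx') (by rw [← h2]; exact not_le.mpr hlt)
    · obtain ⟨rfl, rfl⟩ := pr_inj hz1
      subst hp1
      rcases lt_or_eq_of_le (hpl _ hx' hlt) with h3 | h3
      · obtain ⟨h4, h5⟩ := ih (pr x₁ l₁) (by rw [hn]; exact hpm) x' l' x₁ l₁ rfl hp hx' h3
        exact ⟨by grind, (hzE.mono h4.le).trans h5⟩
      · obtain ⟨rfl, rfl⟩ := pr_inj h3
        exact ⟨by grind, hzE⟩
  -- unbounded lengths
  have hlen : ∀ K, ∃ x' l', pr x' l' ∈ O ∧ K ≤ l' := by
    refine h.induct (fun K => ∃ x' l', pr x' l' ∈ O ∧ K ≤ l') (by (repeat' (first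
        | assumption | exact ArT.const _ | exact ArT.var _ | apply ArT.add | apply ArT.mul
        | apply ArT.pr | exact Ar.prop _ | apply Ar.and | apply Ar.or | apply Ar.not | apply Ar.iff
        | apply Ar.ex | apply Ar.imp | apply Ar.all | apply Ar.eq | apply Ar.ne | apply Ar.lt
        | apply Ar.le | apply Ar.bit | apply Ar.E | (apply Ar.mem; assumption)
        | (refine Ar.app1 ?_ ?_; assumption) | (refine Ar.app2 ?_ ?_ ?_; assumption)
        | (refine Ar.app3 ?_ ?_ ?_ ?_; assumption)))) ⟨x, l, hx0, zero_le⟩ ?_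
    rintro K ⟨x', l', hq, hK⟩
    obtain ⟨q, hq', hlt⟩ := hOu _ hq
    obtain ⟨z, k, rfl, -, -, -⟩ := hOI q hq'
    have := (hcoh _ x' l' z k rfl hq' hq hlt).1
    exact ⟨z, k, hq', by grind⟩
  -- the point
  have hf : {i | ∃ x' l', pr x' l' ∈ O ∧ i < l' ∧ x' + i ∈ C} ∈ S :=
    h.comp (fun i => ∃ x' l', pr x' l' ∈ O ∧ i < l' ∧ x' + i ∈ C) (by (repeat' (first
        | assumption | exact ArT.const _ | exact ArT.var _ | apply ArT.add | apply ArT.mul
        | apply ArT.pr | exact Ar.prop _ | apply Ar.and | apply Ar.or | apply Ar.not | apply Ar.iff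
        | apply Ar.ex | apply Ar.imp | apply Ar.all | apply Ar.eq | apply Ar.ne | apply Ar.lt
        | apply Ar.le | apply Ar.bit | apply Ar.E | (apply Ar.mem; assumption)
        | (refine Ar.app1 ?_ ?_; assumption) | (refine Ar.app2 ?_ ?_ ?_; assumption)
        | (refine Ar.app3 ?_ ?_ ?_ ?_; assumption))))
  have hfE : ∀ x' l', pr x' l' ∈ O →
      E {i | ∃ x' l', pr x' l' ∈ O ∧ i < l' ∧ x' + i ∈ C} 0 C x' l' := by
    intro x' l' hq i hi
    rw [zero_add]
    constructor
    · rintro ⟨x₁, l₁, h1, h2, h3⟩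
      rcases lt_trichotomy (pr x' l') (pr x₁ l₁) with h4 | h4 | h4
      · exact ((hcoh _ _ _ _ _ rfl h1 hq h4).2 i hi).mp h3
      · obtain ⟨rfl, rfl⟩ := pr_inj h4
        exact h3
      · exact ((hcoh _ _ _ _ _ rfl hq h1 h4).2 i h2).mpr h3
    · intro h1
      exact ⟨x', l', hq, hi, h1⟩
  refine ⟨_, hf, ?_⟩
  intro m N₀
  obtain ⟨x', l', hq, hl'⟩ := hlen (m + N₀ + l)
  obtain ⟨q₁, hq₁, hlt₁⟩ := hOu _ hq
  obtain ⟨q₂, ⟨hq₂, hlt₂⟩, hleast⟩ := h.least (fun q => q ∈ O ∧ pr x' l' < q) (by (repeat' (first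
      | assumption | exact ArT.const _ | exact ArT.var _ | apply ArT.add | apply ArT.mul
      | apply ArT.pr | exact Ar.prop _ | apply Ar.and | apply Ar.or | apply Ar.not | apply Ar.iff
      | apply Ar.ex | apply Ar.imp | apply Ar.all | apply Ar.eq | apply Ar.ne | apply Ar.lt
      | apply Ar.le | apply Ar.bit | apply Ar.E | (apply Ar.mem; assumption)
      | (refine Ar.app1 ?_ ?_; assumption) | (refine Ar.app2 ?_ ?_ ?_; assumption)
      | (refine Ar.app3 ?_ ?_ ?_ ?_; assumption))))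
    ⟨hq₁, hlt₁⟩
  rcases hOp _ hq₂ with h2 | ⟨p, hp, hpm, ⟨x₁, l₁, z, y, hp1, hz1, hly, hyE, hzE, hzw⟩, hpl⟩
  · exact absurd (hmin _ hq) (by rw [← h2]; exact not_le.mpr hlt₂)
  · have h3 : pr x' l' ≤ p := hpl _ hq hlt₂
    have h4 : ¬ pr x' l' < p := fun hc => hleast p hpm ⟨hp, hc⟩
    have h5 : pr x' l' = pr x₁ l₁ := by
      rw [← hp1]
      exact le_antisymm h3 (not_lt.mp h4)
    obtain ⟨rfl, rfl⟩ := pr_inj h5
    subst hz1
    have hE1 := hfE _ _ hq
    have hE2 := hfE _ _ hq₂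
    refine ⟨y, by grind, (hyE.trans hE1.symm).mono (by grind), ?_⟩
    have h6 := hE2 (y + w + w) (by grind)
    have h7 := hE1 w (by grind)
    rw [zero_add] at h6 h7
    exact h6.trans (hzw.trans h7.symm)

end Pool.Agent.Lib.Hin
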