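import Pool.Agent.Lib.Hin.Window
import Pool.Agent.Lib.Hin.BlkAll

/-!
# Chunk CB: case B (uses `window`, `blk_all`)

Given `m, N₀`; we may assume `1 ≤ m` (replace `m` by `m + 1`).  By `pref` there is `xv` with
`L xv m`, `E f 0 C xv m`.  Let `W` be given by `window` for `(xv, m)`; by `blk_all` let
`(xu, lu)` with `m ≤ lu`, `W ≤ lu`, `E C xu C xv m`, `L xu lu`, blocked for all `w < W` with bound
`Nu`.  By `hR` let `b, b', e, z` with `Nu ≤ b`, `b = b' + e`, `E f b' C xu lu`, `E C b C xu lu`,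
`L z (e + lu)`, `E C z C xu lu`, `E C (z + e) C xu lu`.  Extend `(z, e + lu)` to `(a₀, K)` in `L`,
`K = e + lu + b + W + m` (`ext`), and move it to `a ≥ N₀ + Nu + lu` (`far`, `congr`).
So `L a K`, `E C a C xu lu`, `E C (a + e) C xu lu`, `Nu ≤ a + e`.
Let `p` with `L p l`, `E f 0 C p l`, `l = b' + (a + e) + W + W + lu + 1` (`pref`); in particular
`E C p C xv m`, `E C (p + b') C xu lu`, `L p (b' + m)`.
Apply `window`: `w < W` with `b + w + w + m ≤ K`, `E C (a + (b + w + w)) C xv m`.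
The result is `y = a + (b + w + w)`:
* `E C y f 0 m`  (`E C y C xv m` and `E f 0 C xv m`), `N₀ ≤ y`;
* (I) `¬ (a + (b + w + w) ∈ C ↔ xu + w ∈ C)`: `Blk` for `(xu, lu)`, `w` with `y := b`, `z := a`;
* (II) `¬ (p + b' + ((a + e) + w + w) ∈ C ↔ xu + w ∈ C)`: `Blk` with `y := a + e`, `z := p + b'`
  (`L (p + b') (a + e + w + w + 1)` by `factor`); and
  `p + b' + ((a + e) + w + w) = p + (a + (b + w + w))`, `p + i ∈ C ↔ i ∈ f` for `i < l`;
* so `y ∈ C ↔ y ∈ f`; `y ∈ C ↔ 0 ∈ f` by `E C y f 0 m`, `0 < m`.  Hence `y ∈ f ↔ 0 ∈ f`.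
-/

set_option linter.unusedSectionVars false

namespace Pool.Agent.Lib.Hin

universe u
variable {N : Type u} [CommSemiring N] [LinearOrder N] [IsStrictOrderedRing N]
  [CanonicallyOrderedAdd N] [Disc N] {S : Set (Set N)} {C : Set N} {L : N → N → Prop}

theorem caseB (h : PM S) (hC : C ∈ S) (hL : Lang S C L)
    (hB : ∀ w x l, L x l → w < l →
      ∃ x' l' N₀, l ≤ l' ∧ E C x' C x l ∧ L x' l' ∧ Blk C L x' l' w N₀)
    {f : Set N} (pref : ∀ l, ∃ p, L p l ∧ E f 0 C p l)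
    (hR : ∀ x l, L x l → ∀ N₀, ∃ b b' e z, N₀ ≤ b ∧ b = b' + e ∧ E f b' C x l ∧ E C b C x l ∧
        L z (e + l) ∧ E C z C x l ∧ E C (z + e) C x l) :
    Pw C f 0 := by
  intro m N₀
  obtain ⟨xv, hxv, hEv⟩ := pref (m + 1)
  obtain ⟨W, hW⟩ := window h hL hxv
  obtain ⟨xu, lu, Nu, h1, h2, h3, h4, h5⟩ := blk_all h hC hL hB hxv W
  obtain ⟨b, b', e, z, hb, hbe, hfb', hCb, hLz, hCz, hCze⟩ := hR xu lu h4 Nu
  obtain ⟨K, hK⟩ : ∃ K, K = e + lu + b + W + (m + 1) := ⟨_, rfl⟩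
  obtain ⟨a₀, ha₀, hLa₀⟩ := hL.ext z (e + lu) K hLz (by grind)
  obtain ⟨a, ha, hEa⟩ := hL.far a₀ K hLa₀ (N₀ + Nu + lu)
  have hLa : L a K := hL.congr a₀ a K hEa.symm hLa₀
  have hau : E C a C xu lu :=
    ((hEa.mono (by grind)).trans (ha₀.mono (by grind))).trans hCz
  have hau' : E C (a + e) C xu lu :=
    (hEa.shift (by grind)).trans ((ha₀.shift (le_refl (e + lu))).trans hCze)
  obtain ⟨l, hl⟩ : ∃ l, l = b' + (a + e) + W + W + lu + 1 := ⟨_, rfl⟩
  obtain ⟨p, hLp, hEp⟩ := pref l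
  have hpv : E C p C xv (m + 1) := (hEp.symm.mono (by grind)).trans hEv
  have hpu : E C (p + b') C xu lu := by
    have h6 : E C (p + b') f (0 + b') lu := hEp.symm.shift (by grind)
    rw [zero_add] at h6
    exact h6.trans hfb'
  have hLp' : L p (b' + (m + 1)) := by
    have h6 := hL.factor p l 0 (b' + (m + 1)) hLp (by grind)
    rwa [add_zero] at h6
  obtain ⟨w, hw, hbw, hE⟩ := hW a K b b' e p hLa (by grind) (by grind)
    ((hau.mono h1).trans h3) ((hau'.mono h1).trans h3) hLp' hpv ((hpu.mono h1).trans h3) hbe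
  refine ⟨a + (b + w + w), by grind, (hE.trans hEv.symm).mono (by grind), ?_⟩
  have hLa' : L a (b + w + w + 1) := by
    have h6 := hL.factor a K 0 (b + w + w + 1) hLa (by grind)
    rwa [add_zero] at h6
  have e1 := h5 w hw b hb hCb a hau hLa'
  have hLp2 : L (p + b') (a + e + w + w + 1) := hL.factor p l b' (a + e + w + w + 1) hLp (by grind)
  have e2 := h5 w hw (a + e) (by grind) hau' (p + b') hpu hLp2
  have e3 : p + b' + (a + e + w + w) = p + (a + (b + w + w)) := by grind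
  rw [e3] at e2
  have e4 := hEp (a + (b + w + w)) (by grind)
  have e5 := hE 0 (by grind)
  have e6 := hEv 0 (by grind)
  rw [zero_add] at e4
  rw [add_zero] at e5
  rw [add_zero] at e6
  rw [add_zero, add_zero]
  tauto

end Pool.Agent.Lib.Hin
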