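import Pool.Agent.Lib.Hin.Base

/-!
# Chunk COD: coding of finite sets

Proof.  (1) For every `n` there is `b` with `0 < b` and `∀ j, 0 < j → j ≤ n → ∃ q, b = j * q`
(induction on `n`: multiply by `n + 1`).
(2) `Bez x y := ∃ u v, v * y = u * x + 1` (`y` is invertible modulo `x`).
`Bez x y → Bez x z → Bez x (y * z)` (multiply the two equations), `Bez x 1`.
If `Bez x y`, `y = x * q`, then `x = 1` (`x` divides 1).
(3) If `i ≠ j`, `b > 0` and the difference of `i` and `j` divides `b`, then
`Bez (1 + (i + 1) * b) (1 + (j + 1) * b)`.  Let `x = 1 + (i + 1) * b`, `y = 1 + (j + 1) * b`,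
`(i + 1) * b = t + 1` (so `x = t + 2`).
 * case `j = i + r`, `b = r * q`: `v = q * (i + 1) * (i + 1)`, `u = q * (i + 1) * (i + 1) + t`:
   `v * y = q (i+1)^2 (x + r b) = q (i+1)^2 x + ((i+1) b)^2 = q (i+1)^2 x + (t+1)^2` and
   `(t + 1)^2 = t * (t + 2) + 1 = t * x + 1`.
 * case `i = j + r`, `b = r * q`: `v = q * (i + 1) * (i + 1) * ((i + 1) * b)`,
   `u = q * (i + 1) * (i + 1) * ((j + 1) * b) + t`.
(4) Fix `A`, `n`, `b` as in (1).  By induction on `m`:  `m ≤ n →` there is `a` with
`∀ i, i < m → i ∈ A → ∃ q, a = (1 + (i + 1) * b) * q` and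
`∀ i, i < n → ¬ (i < m ∧ i ∈ A) → Bez (1 + (i + 1) * b) a`   (`m = 0`: `a = 1`; step: multiply `a`
by `1 + (m + 1) * b` if `m ∈ A`).
(5) `m = n`: `i ∉ A` gives `Bez (1 + (i + 1) * b) a`, hence not `bit a b i` as `1 + (i+1) b > 1`.
-/

set_option linter.unusedSectionVars false

namespace Pool.Agent.Lib.Hin

universe u
variable {N : Type u} [CommSemiring N] [LinearOrder N] [IsStrictOrderedRing N]
  [CanonicallyOrderedAdd N] [Disc N] {S : Set (Set N)}

/-- (1) a common multiple -/
theorem cod_mult (h : PM S) (n : N) : ∃ b : N, 0 < b ∧ ∀ j, 0 < j → j ≤ n → ∃ q, b = j * q := by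
  have key : ∀ n : N, ∃ b : N, 0 < b ∧ ∀ j, 0 < j → j ≤ n → ∃ q, b = j * q := by
    refine h.induct (fun n => ∃ b : N, 0 < b ∧ ∀ j, 0 < j → j ≤ n → ∃ q, b = j * q) (by (repeat' (first
        | assumption | exact ArT.const _ | exact ArT.var _ | apply ArT.add | apply ArT.mul
        | apply ArT.pr | exact Ar.prop _ | apply Ar.and | apply Ar.or | apply Ar.not | apply Ar.iff
        | apply Ar.ex | apply Ar.imp | apply Ar.all | apply Ar.eq | apply Ar.ne | apply Ar.lt
        | apply Ar.le | apply Ar.bit | apply Ar.E | (apply Ar.mem; assumption)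
        | (refine Ar.app1 ?_ ?_; assumption) | (refine Ar.app2 ?_ ?_ ?_; assumption)
        | (refine Ar.app3 ?_ ?_ ?_ ?_; assumption)))) ?_ ?_
    · exact ⟨1, zero_lt_one, fun j h0 h1 => absurd h0 (by grind)⟩
    · rintro x ⟨b, hb0, hb⟩
      refine ⟨b * (x + 1), mul_pos hb0 (by grind), fun j h0 h1 => ?_⟩
      rcases lt_or_eq_of_le h1 with h2 | h2
      · obtain ⟨q, hq⟩ := hb j h0 (by grind)
        exact ⟨q * (x + 1), by rw [hq, mul_assoc]⟩
      · exact ⟨b, by rw [h2, mul_comm]⟩
  exact key n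

/-- `y` is invertible modulo `x` -/
def Bez (x y : N) : Prop := ∃ u v : N, v * y = u * x + 1

omit [LinearOrder N] [IsStrictOrderedRing N] [CanonicallyOrderedAdd N] [Disc N] in
theorem Bez.one (x : N) : Bez x 1 := ⟨0, 1, by ring⟩

omit [LinearOrder N] [IsStrictOrderedRing N] [CanonicallyOrderedAdd N] [Disc N] in
theorem Bez.mul {x y z : N} (h1 : Bez x y) (h2 : Bez x z) : Bez x (y * z) := by
  obtain ⟨u, v, h⟩ := h1
  obtain ⟨u', v', h'⟩ := h2
  refine ⟨u * u' * x + u + u', v * v', ?_⟩
  calc v * v' * (y * z) = (v * y) * (v' * z) := by ring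
    _ = (u * x + 1) * (u' * x + 1) := by rw [h, h']
    _ = _ := by ring

/-- `x * q` is not invertible modulo `x` if `1 < x` -/
theorem Bez.not_mul {x q : N} (hx : 1 < x) : ¬ Bez x (x * q) := by
  rintro ⟨u, v, h⟩
  have h1 : v * (x * q) = x * (v * q) := by ring
  have h2 : u * x + 1 = x * u + 1 := by ring
  rw [h1, h2] at h
  rcases lt_trichotomy (v * q) u with h3 | h3 | h3
  · have := mul_le_mul_of_nonneg_left h3.le (zero_le (a := x))
    grind
  · rw [h3] at h
    grind
  · have h4 : u + 1 ≤ v * q := disc_lt h3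
    have := mul_le_mul_of_nonneg_left h4 (zero_le (a := x))
    have h5 : x * (u + 1) = x * u + x := by ring
    grind

/-- (3) -/
theorem Bez.of_ne {b i j : N} (hb : 0 < b) (hij : i ≠ j)
    (hd : ∀ r, i = j + r ∨ j = i + r → ∃ q, b = r * q) :
    Bez (1 + (i + 1) * b) (1 + (j + 1) * b) := by
  have hpos : 0 < (i + 1) * b := mul_pos (by grind) hb
  obtain ⟨t, ht⟩ : ∃ t, (i + 1) * b = t + 1 := by
    obtain ⟨c, hc⟩ := exists_add_of_le (disc_lt hpos)
    exact ⟨c, by rw [hc]; ring⟩
  rcases lt_or_gt_of_ne hij with h1 | h1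
  · obtain ⟨r, hr⟩ := exists_add_of_le h1.le
    obtain ⟨q, hq⟩ := hd r (Or.inr hr)
    refine ⟨q * (i + 1) * (i + 1) + t, q * (i + 1) * (i + 1), ?_⟩
    calc q * (i + 1) * (i + 1) * (1 + (j + 1) * b)
        = q * (i + 1) * (i + 1) * (1 + (i + 1) * b) + ((i + 1) * (r * q)) * ((i + 1) * b) := by
          rw [hr]; ring
      _ = q * (i + 1) * (i + 1) * (1 + (i + 1) * b) + ((i + 1) * b) * ((i + 1) * b) := by
          rw [← hq]
      _ = q * (i + 1) * (i + 1) * (1 + (i + 1) * b) + (t * (1 + (i + 1) * b) + 1) := by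
          rw [ht]; ring
      _ = _ := by ring
  · obtain ⟨r, hr⟩ := exists_add_of_le h1.le
    obtain ⟨q, hq⟩ := hd r (Or.inl hr)
    refine ⟨q * (i + 1) * (i + 1) * ((j + 1) * b) + t,
      q * (i + 1) * (i + 1) * ((i + 1) * b), ?_⟩
    have e1 : (i + 1) * b = (j + 1) * b + r * b := by rw [hr]; ring
    have e2 : (i + 1) * b = r * (q * (i + 1)) := by rw [mul_comm]; conv_lhs => rw [hq]
                                                    ring
    calc q * (i + 1) * (i + 1) * ((i + 1) * b) * (1 + (j + 1) * b)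
        = q * (i + 1) * (i + 1) * ((i + 1) * b) + q * (i + 1) * (i + 1) * ((j + 1) * b) * ((i + 1) * b) := by
          ring
      _ = q * (i + 1) * (i + 1) * ((j + 1) * b + r * b) + q * (i + 1) * (i + 1) * ((j + 1) * b) * ((i + 1) * b) := by
          rw [← e1]
      _ = q * (i + 1) * (i + 1) * ((j + 1) * b) * (1 + (i + 1) * b) + ((i + 1) * b) * (r * (q * (i + 1))) := by
          ring
      _ = q * (i + 1) * (i + 1) * ((j + 1) * b) * (1 + (i + 1) * b) + ((i + 1) * b) * ((i + 1) * b) := by
          rw [← e2]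
      _ = q * (i + 1) * (i + 1) * ((j + 1) * b) * (1 + (i + 1) * b) + (t * (1 + (i + 1) * b) + 1) := by
          rw [ht]; ring
      _ = _ := by ring

theorem Ar.Bez {x y : (ℕ → N) → N} (hx : ArT x) (hy : ArT y) :
    Ar S (fun v => Bez (x v) (y v)) := by
  have h : Ar S (fun v : ℕ → N => Hin.Bez (v 0) (v 1)) := by
    unfold Hin.Bez
    (repeat' (first
        | assumption | exact ArT.const _ | exact ArT.var _ | apply ArT.add | apply ArT.mul
        | apply ArT.pr | exact Ar.prop _ | apply Ar.and | apply Ar.or | apply Ar.not | apply Ar.iff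
        | apply Ar.ex | apply Ar.imp | apply Ar.all | apply Ar.eq | apply Ar.ne | apply Ar.lt
        | apply Ar.le | apply Ar.bit | apply Ar.E | (apply Ar.mem; assumption)
        | (refine Ar.app1 ?_ ?_; assumption) | (refine Ar.app2 ?_ ?_ ?_; assumption)
        | (refine Ar.app3 ?_ ?_ ?_ ?_; assumption)))
  exact Ar.app2 (R := fun a b => Hin.Bez a b) h hx hy

theorem cod (h : PM S) {A : Set N} (hA : A ∈ S) (n : N) :
    ∃ a b : N, ∀ i, i < n → (bit a b i ↔ i ∈ A) := by
  obtain ⟨b, hb0, hb⟩ := cod_mult h n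
  have hne : ∀ i j, i < n → j < n → i ≠ j → Bez (1 + (i + 1) * b) (1 + (j + 1) * b) := by
    intro i j hi hj hij
    refine Bez.of_ne hb0 hij ?_
    intro r hr
    refine hb r ?_ ?_
    · rcases eq_or_lt_of_le (zero_le (a := r)) with h0 | h0
      · exact absurd hij (by rcases hr with hr | hr <;> subst hr <;> subst h0 <;> simp)
      · exact h0
    · grind
  have hgt : ∀ i : N, 1 < 1 + (i + 1) * b := by
    intro i
    have : 0 < (i + 1) * b := mul_pos (by grind) hb0
    grind
  have key : ∀ m : N, m ≤ n → ∃ a : N, (∀ i, i < m → i ∈ A → ∃ q, a = (1 + (i + 1) * b) * q) ∧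
      (∀ i, i < n → ¬ (i < m ∧ i ∈ A) → Bez (1 + (i + 1) * b) a) := by
    refine h.induct (fun m => m ≤ n → ∃ a : N,
      (∀ i, i < m → i ∈ A → ∃ q, a = (1 + (i + 1) * b) * q) ∧
      (∀ i, i < n → ¬ (i < m ∧ i ∈ A) → Bez (1 + (i + 1) * b) a)) ?_ ?_ ?_
    · apply Ar.imp
      · (repeat' (first
          | assumption | exact ArT.const _ | exact ArT.var _ | apply ArT.add | apply ArT.mul
          | apply ArT.pr | exact Ar.prop _ | apply Ar.and | apply Ar.or | apply Ar.not | apply Ar.iff
          | apply Ar.ex | apply Ar.imp | apply Ar.all | apply Ar.eq | apply Ar.ne | apply Ar.lt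
          | apply Ar.le | apply Ar.bit | apply Ar.E | (apply Ar.mem; assumption)
          | (refine Ar.app1 ?_ ?_; assumption) | (refine Ar.app2 ?_ ?_ ?_; assumption)
          | (refine Ar.app3 ?_ ?_ ?_ ?_; assumption)))
      apply Ar.ex
      apply Ar.and
      · (repeat' (first
          | assumption | exact ArT.const _ | exact ArT.var _ | apply ArT.add | apply ArT.mul
          | apply ArT.pr | exact Ar.prop _ | apply Ar.and | apply Ar.or | apply Ar.not | apply Ar.iff
          | apply Ar.ex | apply Ar.imp | apply Ar.all | apply Ar.eq | apply Ar.ne | apply Ar.lt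
          | apply Ar.le | apply Ar.bit | apply Ar.E | (apply Ar.mem; assumption)
          | (refine Ar.app1 ?_ ?_; assumption) | (refine Ar.app2 ?_ ?_ ?_; assumption)
          | (refine Ar.app3 ?_ ?_ ?_ ?_; assumption)))
      · apply Ar.all
        apply Ar.imp
        · (repeat' (first
            | assumption | exact ArT.const _ | exact ArT.var _ | apply ArT.add | apply ArT.mul
            | apply ArT.pr | exact Ar.prop _ | apply Ar.and | apply Ar.or | apply Ar.not | apply Ar.iff
            | apply Ar.ex | apply Ar.imp | apply Ar.all | apply Ar.eq | apply Ar.ne | apply Ar.lt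
            | apply Ar.le | apply Ar.bit | apply Ar.E | (apply Ar.mem; assumption)
            | (refine Ar.app1 ?_ ?_; assumption) | (refine Ar.app2 ?_ ?_ ?_; assumption)
            | (refine Ar.app3 ?_ ?_ ?_ ?_; assumption)))
        · apply Ar.imp
          · (repeat' (first
              | assumption | exact ArT.const _ | exact ArT.var _ | apply ArT.add | apply ArT.mul
              | apply ArT.pr | exact Ar.prop _ | apply Ar.and | apply Ar.or | apply Ar.not | apply Ar.iff
              | apply Ar.ex | apply Ar.imp | apply Ar.all | apply Ar.eq | apply Ar.ne | apply Ar.lt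
              | apply Ar.le | apply Ar.bit | apply Ar.E | (apply Ar.mem; assumption)
              | (refine Ar.app1 ?_ ?_; assumption) | (refine Ar.app2 ?_ ?_ ?_; assumption)
              | (refine Ar.app3 ?_ ?_ ?_ ?_; assumption)))
          · apply Ar.Bez <;> (repeat' (first
              | assumption | exact ArT.const _ | exact ArT.var _ | apply ArT.add | apply ArT.mul
              | apply ArT.pr | exact Ar.prop _ | apply Ar.and | apply Ar.or | apply Ar.not | apply Ar.iff
              | apply Ar.ex | apply Ar.imp | apply Ar.all | apply Ar.eq | apply Ar.ne | apply Ar.lt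
              | apply Ar.le | apply Ar.bit | apply Ar.E | (apply Ar.mem; assumption)
              | (refine Ar.app1 ?_ ?_; assumption) | (refine Ar.app2 ?_ ?_ ?_; assumption)
              | (refine Ar.app3 ?_ ?_ ?_ ?_; assumption)))
    · intro _
      exact ⟨1, fun i hi => absurd hi (by grind), fun i _ _ => Bez.one _⟩
    · intro m ih hm
      obtain ⟨a, ha1, ha2⟩ := ih (by grind)
      by_cases hmA : m ∈ A
      · refine ⟨a * (1 + (m + 1) * b), ?_, ?_⟩
        · intro i hi hiA
          rcases lt_or_eq_of_le (show i ≤ m by grind) with h2 | h2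
          · obtain ⟨q, hq⟩ := ha1 i h2 hiA
            exact ⟨q * (1 + (m + 1) * b), by rw [hq, mul_assoc]⟩
          · exact ⟨a, by rw [h2, mul_comm]⟩
        · intro i hi hni
          have h3 : i ≠ m := by
            rintro rfl
            exact hni ⟨by grind, hmA⟩
          refine (ha2 i hi (fun h4 => hni ⟨by grind, h4.2⟩)).mul (hne i m hi (by grind) h3)
      · refine ⟨a, ?_, ?_⟩
        · intro i hi hiA
          rcases lt_or_eq_of_le (show i ≤ m by grind) with h2 | h2
          · exact ha1 i h2 hiA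
          · exact absurd hiA (h2 ▸ hmA)
        · intro i hi hni
          exact ha2 i hi (fun h4 => hni ⟨by grind, h4.2⟩)
  obtain ⟨a, ha1, ha2⟩ := key n le_rfl
  refine ⟨a, b, fun i hi => ⟨fun hbit => ?_, fun hiA => ha1 i hi hiA⟩⟩
  by_contra hiA
  have h1 := ha2 i hi (fun h4 => hiA h4.2)
  obtain ⟨q, hq⟩ := hbit
  rw [hq] at h1
  exact Bez.not_mul (hgt i) h1

end Pool.Agent.Lib.Hin
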