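import Pool.Agent.Lib.Hin.Calc

/-!
# Completeness of the calculus (Henkin)
-/

namespace Pool.Agent.Lib.Hin

universe u

deriving instance Countable for Tm
deriving instance Countable for Fm

instance : Nonempty Fm := ⟨.eq .zero .zero⟩

namespace Prov

variable {T : Set Fm}

theorem tmp1 {φ ψ : Fm} (h : Taut (.imp φ ψ)) (hφ : Prov T φ) : Prov T ψ := .mp (.taut h) hφ

theorem tmp2 {φ ψ χ : Fm} (h : Taut (.imp φ (.imp ψ χ))) (hφ : Prov T φ) (hψ : Prov T ψ) :
    Prov T χ := .mp (.mp (.taut h) hφ) hψ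

theorem trans {φ ψ χ : Fm} (h1 : Prov T (.imp φ ψ)) (h2 : Prov T (.imp ψ χ)) :
    Prov T (.imp φ χ) := by
  refine tmp2 ?_ h1 h2
  intro val hn ha
  simp only [Fm.imp, hn, ha]
  tauto

theorem imp_self (φ : Fm) : Prov T (.imp φ φ) := by
  refine .taut ?_
  intro val hn ha
  simp only [Fm.imp, hn, ha]
  tauto

end Prov

section henkin

variable {T : Set Fm}

/-- consistency with `T` -/
def Con (T : Set Fm) (δ : Fm) : Prop := ¬ Prov T (.neg δ)

theorem henkin_num {δ ψ : Fm} (h : Con T (.and δ (.neg (.all ψ)))) :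
    ∃ y : ℕ, Con T (.and (.and δ (.neg (.all ψ))) (.neg (ψ.subst (push (.var y) .var) id))) := by
  by_contra hc
  have hc' : ∀ y : ℕ,
      Prov T (.neg (.and (.and δ (.neg (.all ψ))) (.neg (ψ.subst (push (.var y) .var) id)))) := by
    intro y
    by_contra hy
    exact hc ⟨y, hy⟩
  obtain ⟨θ, hθ⟩ : ∃ θ, θ = Fm.and δ (.neg (.all ψ)) := ⟨_, rfl⟩
  rw [← hθ] at h hc'
  obtain ⟨K1, h1⟩ := θ.fresh
  obtain ⟨K2, h2⟩ := ψ.fresh
  have h3 := Prov.subst (fun i => if i = K1 + K2 then .var 0 else .var (i + 1)) id (hc' (K1 + K2))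
  have e1 : θ.subst (fun i => if i = K1 + K2 then .var 0 else .var (i + 1)) id =
      θ.subst (fun i => .var (i + 1)) id := by
    refine h1 _ _ _ _ (fun i hi => ?_) (fun _ _ => rfl)
    rw [if_neg (by omega)]
  have e2 : (ψ.subst (push (.var (K1 + K2)) .var) id).subst
      (fun i => if i = K1 + K2 then .var 0 else .var (i + 1)) id = ψ := by
    rw [Fm.subst_subst]
    have : ψ.subst .var id = ψ := Fm.subst_id ψ
    rw [← this, Fm.subst_subst]
    refine h2 _ _ _ _ (fun i hi => ?_) (fun _ _ => rfl)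
    cases i with
    | zero => simp [Tm.subst, push]
    | succ i =>
      simp only [Tm.subst, push]
      rw [if_neg (by omega)]
  have h4 : Prov T (.imp (θ.subst (fun i => .var (i + 1)) id) ψ) := by
    have h5 := h3
    simp only [Fm.subst] at h5
    rw [e1, e2] at h5
    exact h5
  have h6 := Prov.mp (.dist _ _) (.gen h4)
  have h7 : Prov T (.imp θ (.all ψ)) := (Prov.vac θ).trans h6
  refine h ?_
  refine Prov.tmp1 ?_ h7
  rw [hθ]
  intro val hn ha
  simp only [Fm.imp, hn, ha]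
  tauto

theorem henkin_set {δ ψ : Fm} (h : Con T (.and δ (.neg (.allS ψ)))) :
    ∃ y : ℕ, Con T (.and (.and δ (.neg (.allS ψ))) (.neg (ψ.subst .var (push y id)))) := by
  by_contra hc
  have hc' : ∀ y : ℕ,
      Prov T (.neg (.and (.and δ (.neg (.allS ψ))) (.neg (ψ.subst .var (push y id))))) := by
    intro y
    by_contra hy
    exact hc ⟨y, hy⟩
  obtain ⟨θ, hθ⟩ : ∃ θ, θ = Fm.and δ (.neg (.allS ψ)) := ⟨_, rfl⟩
  rw [← hθ] at h hc'
  obtain ⟨K1, h1⟩ := θ.fresh
  obtain ⟨K2, h2⟩ := ψ.fresh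
  have h3 := Prov.subst .var (fun i => if i = K1 + K2 then 0 else i + 1) (hc' (K1 + K2))
  have e1 : θ.subst .var (fun i => if i = K1 + K2 then 0 else i + 1) =
      θ.subst .var (fun i => i + 1) := by
    refine h1 _ _ _ _ (fun _ _ => rfl) (fun i hi => ?_)
    rw [if_neg (by omega)]
  have e2 : (ψ.subst .var (push (K1 + K2) id)).subst
      .var (fun i => if i = K1 + K2 then 0 else i + 1) = ψ := by
    rw [Fm.subst_subst]
    have : ψ.subst .var id = ψ := Fm.subst_id ψ
    rw [← this, Fm.subst_subst]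
    refine h2 _ _ _ _ (fun _ _ => rfl) (fun i hi => ?_)
    cases i with
    | zero => simp [push]
    | succ i =>
      simp only [push, id]
      rw [if_neg (by omega)]
  have h4 : Prov T (.imp (θ.subst .var (fun i => i + 1)) ψ) := by
    have h5 := h3
    simp only [Fm.subst] at h5
    rw [e1, e2] at h5
    exact h5
  have h6 := Prov.mp (.distS _ _) (.genS h4)
  have h7 : Prov T (.imp θ (.allS ψ)) := (Prov.vacS θ).trans h6
  refine h ?_
  refine Prov.tmp1 ?_ h7
  rw [hθ]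
  intro val hn ha
  simp only [Fm.imp, hn, ha]
  tauto

/-- `δ'` decides `χ`, with witnesses -/
def Decides (T : Set Fm) (δ χ : Fm) : Prop :=
  (Prov T (.imp δ χ) ∨ Prov T (.imp δ (.neg χ))) ∧
  (∀ ψ, χ = .all ψ → Prov T (.imp δ χ) ∨
    ∃ y : ℕ, Prov T (.imp δ (.neg (ψ.subst (push (.var y) .var) id)))) ∧
  (∀ ψ, χ = .allS ψ → Prov T (.imp δ χ) ∨
    ∃ y : ℕ, Prov T (.imp δ (.neg (ψ.subst .var (push y id)))))

theorem con_of_imp {δ δ' : Fm} (h : Prov T (.imp δ δ')) (hc : Con T δ) : Con T δ' := by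
  intro hn
  refine hc (Prov.tmp2 ?_ h hn)
  intro val hn ha
  simp only [Fm.imp, hn, ha]
  tauto

theorem step {δ : Fm} (h : Con T δ) (χ : Fm) :
    ∃ δ', Con T δ' ∧ Prov T (.imp δ' δ) ∧ Decides T δ' χ := by
  by_cases hneg : Con T (.and δ (.neg χ))
  · have base : ∀ δ', Prov T (.imp δ' (.and δ (.neg χ))) →
        Prov T (.imp δ' δ) ∧ (Prov T (.imp δ' χ) ∨ Prov T (.imp δ' (.neg χ))) := by
      intro δ' h'
      constructor
      · refine Prov.tmp1 ?_ h'
        intro val hn ha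
        simp only [Fm.imp, hn, ha]
        tauto
      · right
        refine Prov.tmp1 ?_ h'
        intro val hn ha
        simp only [Fm.imp, hn, ha]
        tauto
    cases χ with
    | all ψ =>
      obtain ⟨y, hy⟩ := henkin_num hneg
      have hb := base (.and (.and δ (.neg (.all ψ))) (.neg (ψ.subst (push (.var y) .var) id)))
        (by
          refine .taut ?_
          intro val hn ha
          simp only [Fm.imp, hn, ha]
          tauto)
      refine ⟨_, hy, hb.1, hb.2, ?_, ?_⟩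
      · intro ψ' hψ'
        cases hψ'
        right
        refine ⟨y, .taut ?_⟩
        intro val hn ha
        simp only [Fm.imp, hn, ha]
        tauto
      · intro ψ' hψ'; cases hψ'
    | allS ψ =>
      obtain ⟨y, hy⟩ := henkin_set hneg
      have hb := base (.and (.and δ (.neg (.allS ψ))) (.neg (ψ.subst .var (push y id))))
        (by
          refine .taut ?_
          intro val hn ha
          simp only [Fm.imp, hn, ha]
          tauto)
      refine ⟨_, hy, hb.1, hb.2, ?_, ?_⟩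
      · intro ψ' hψ'; cases hψ'
      · intro ψ' hψ'
        cases hψ'
        right
        refine ⟨y, .taut ?_⟩
        intro val hn ha
        simp only [Fm.imp, hn, ha]
        tauto
    | eq s t =>
      have hb := base _ (Prov.imp_self _)
      refine ⟨_, hneg, hb.1, hb.2, ?_, ?_⟩ <;> (intro ψ' hψ'; cases hψ')
    | lt s t =>
      have hb := base _ (Prov.imp_self _)
      refine ⟨_, hneg, hb.1, hb.2, ?_, ?_⟩ <;> (intro ψ' hψ'; cases hψ')
    | mem s t =>
      have hb := base _ (Prov.imp_self _)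
      refine ⟨_, hneg, hb.1, hb.2, ?_, ?_⟩ <;> (intro ψ' hψ'; cases hψ')
    | neg φ =>
      have hb := base _ (Prov.imp_self _)
      refine ⟨_, hneg, hb.1, hb.2, ?_, ?_⟩ <;> (intro ψ' hψ'; cases hψ')
    | and φ ψ =>
      have hb := base _ (Prov.imp_self _)
      refine ⟨_, hneg, hb.1, hb.2, ?_, ?_⟩ <;> (intro ψ' hψ'; cases hψ')
  · have h' : Prov T (.imp δ χ) := by
      unfold Con at hneg
      push Not at hneg
      exact hneg
    exact ⟨δ, h, Prov.imp_self _, Or.inl h', fun ψ hψ => Or.inl h', fun ψ hψ => Or.inl h'⟩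

/-- a maximal consistent Henkin set -/
theorem exists_max {δ₀ : Fm} (h : Con T δ₀) :
    ∃ Γ : Set Fm, δ₀ ∈ Γ ∧ (∀ φ, Prov T φ → φ ∈ Γ) ∧
      (∀ φ ψ, Fm.imp φ ψ ∈ Γ → φ ∈ Γ → ψ ∈ Γ) ∧
      (∀ φ, Fm.neg φ ∈ Γ ↔ φ ∉ Γ) ∧
      (∀ φ, (∀ y : ℕ, φ.subst (push (.var y) .var) id ∈ Γ) → Fm.all φ ∈ Γ) ∧
      (∀ φ, (∀ y : ℕ, φ.subst .var (push y id) ∈ Γ) → Fm.allS φ ∈ Γ) := by
  obtain ⟨e, he⟩ := exists_surjective_nat Fm
  choose nxt hn1 hn2 hn3 using fun (δ : {δ : Fm // Con T δ}) (χ : Fm) => step δ.2 χ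
  let seq : ℕ → {δ : Fm // Con T δ} := fun n =>
    Nat.rec ⟨δ₀, h⟩ (fun n δ => ⟨nxt δ (e n), hn1 δ (e n)⟩) n
  have hs : ∀ n, Prov T (.imp (seq (n + 1)).1 (seq n).1) := fun n => hn2 (seq n) (e n)
  have hd : ∀ n, Decides T (seq (n + 1)).1 (e n) := fun n => hn3 (seq n) (e n)
  have hmono : ∀ m n, m ≤ n → Prov T (.imp (seq n).1 (seq m).1) := by
    intro m n hmn
    induction n, hmn using Nat.le_induction with
    | base => exact Prov.imp_self _
    | succ n _ ih => exact (hs n).trans ih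
  let Γ : Set Fm := {χ | ∃ n, Prov T (.imp (seq n).1 χ)}
  have hmp : ∀ φ ψ, Fm.imp φ ψ ∈ Γ → φ ∈ Γ → ψ ∈ Γ := by
    rintro φ ψ ⟨m, hm⟩ ⟨n, hn⟩
    refine ⟨m + n, ?_⟩
    refine Prov.tmp2 ?_ ((hmono m (m + n) (by omega)).trans hm)
      ((hmono n (m + n) (by omega)).trans hn)
    intro val hn ha
    simp only [Fm.imp, hn, ha]
    tauto
  have hcons : ∀ φ, Fm.neg φ ∈ Γ → φ ∈ Γ → False := by
    rintro φ ⟨m, hm⟩ ⟨n, hn⟩
    refine (seq (m + n)).2 ?_
    refine Prov.tmp2 ?_ ((hmono m (m + n) (by omega)).trans hm)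
      ((hmono n (m + n) (by omega)).trans hn)
    intro val hn ha
    simp only [Fm.imp, hn, ha]
    tauto
  refine ⟨Γ, ⟨0, Prov.imp_self _⟩, ?_, hmp, ?_, ?_, ?_⟩
  · intro φ hφ
    refine ⟨0, Prov.tmp1 ?_ hφ⟩
    intro val hn ha
    simp only [Fm.imp, hn, ha]
    tauto
  · intro φ
    constructor
    · intro h1 h2; exact hcons φ h1 h2
    · intro h1
      obtain ⟨n, rfl⟩ := he φ
      rcases (hd n).1 with h2 | h2
      · exact absurd ⟨n + 1, h2⟩ h1
      · exact ⟨n + 1, h2⟩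
  · intro φ hφ
    obtain ⟨n, hn⟩ := he (.all φ)
    rcases (hd n).2.1 φ hn with h2 | ⟨y, hy⟩
    · rw [hn] at h2
      exact ⟨n + 1, h2⟩
    · exact (hcons _ ⟨n + 1, hy⟩ (hφ y)).elim
  · intro φ hφ
    obtain ⟨n, hn⟩ := he (.allS φ)
    rcases (hd n).2.2 φ hn with h2 | ⟨y, hy⟩
    · rw [hn] at h2
      exact ⟨n + 1, h2⟩
    · exact (hcons _ ⟨n + 1, hy⟩ (hφ y)).elim

end henkin

/-- the properties of the maximal consistent set -/
structure Hk (T Γ : Set Fm) : Prop where
  prov : ∀ φ, Prov T φ → φ ∈ Γ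
  mp : ∀ φ ψ, Fm.imp φ ψ ∈ Γ → φ ∈ Γ → ψ ∈ Γ
  neg : ∀ φ, Fm.neg φ ∈ Γ ↔ φ ∉ Γ
  all : ∀ φ, (∀ y : ℕ, φ.subst (push (.var y) .var) id ∈ Γ) → Fm.all φ ∈ Γ
  allS : ∀ φ, (∀ y : ℕ, φ.subst .var (push y id) ∈ Γ) → Fm.allS φ ∈ Γ

section model

variable {T Γ : Set Fm}

theorem Tm.subst_push_shift (s t : Tm) :
    (s.subst (fun i => .var (i + 1))).subst (push t .var) = s := by
  rw [Tm.subst_subst]
  exact s.subst_var

namespace Hk

variable (H : Hk T Γ)
include H

theorem refl (t : Tm) : Fm.eq t t ∈ Γ := H.prov _ (.refl t)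

theorem leib {s t : Tm} (h : Fm.eq s t ∈ Γ) (φ : Fm) (hφ : φ.subst (push s .var) id ∈ Γ) :
    φ.subst (push t .var) id ∈ Γ :=
  H.mp _ _ (H.mp _ _ (H.prov _ (.leib s t φ)) h) hφ

theorem symm {s t : Tm} (h : Fm.eq s t ∈ Γ) : Fm.eq t s ∈ Γ := by
  have := H.leib h (.eq (.var 0) (s.subst (fun i => .var (i + 1))))
    (by simp only [Fm.subst, Tm.subst_push_shift]; exact H.refl s)
  simp only [Fm.subst, Tm.subst_push_shift] at this
  exact this

theorem trans {s t r : Tm} (h : Fm.eq s t ∈ Γ) (h' : Fm.eq t r ∈ Γ) : Fm.eq s r ∈ Γ := by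
  have := H.leib h' (.eq (s.subst (fun i => .var (i + 1))) (.var 0))
    (by simp only [Fm.subst, Tm.subst_push_shift]; exact h)
  simp only [Fm.subst, Tm.subst_push_shift] at this
  exact this

theorem add_congr {s s' t t' : Tm} (h : Fm.eq s s' ∈ Γ) (h' : Fm.eq t t' ∈ Γ) :
    Fm.eq (.add s t) (.add s' t') ∈ Γ := by
  have h1 := H.leib h (.eq ((Tm.add s t).subst (fun i => .var (i + 1)))
    (.add (.var 0) (t.subst (fun i => .var (i + 1)))))
    (by simp only [Fm.subst, Tm.subst_push_shift, Tm.subst]; exact H.refl _)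
  have h2 := H.leib h' (.eq ((Tm.add s t).subst (fun i => .var (i + 1)))
    (.add (s'.subst (fun i => .var (i + 1))) (.var 0)))
    (by
      simp only [Fm.subst, Tm.subst_push_shift, Tm.subst] at h1 ⊢
      exact h1)
  simp only [Fm.subst, Tm.subst_push_shift, Tm.subst] at h2
  exact h2

theorem mul_congr {s s' t t' : Tm} (h : Fm.eq s s' ∈ Γ) (h' : Fm.eq t t' ∈ Γ) :
    Fm.eq (.mul s t) (.mul s' t') ∈ Γ := by
  have h1 := H.leib h (.eq ((Tm.mul s t).subst (fun i => .var (i + 1)))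
    (.mul (.var 0) (t.subst (fun i => .var (i + 1)))))
    (by simp only [Fm.subst, Tm.subst_push_shift, Tm.subst]; exact H.refl _)
  have h2 := H.leib h' (.eq ((Tm.mul s t).subst (fun i => .var (i + 1)))
    (.mul (s'.subst (fun i => .var (i + 1))) (.var 0)))
    (by
      simp only [Fm.subst, Tm.subst_push_shift, Tm.subst] at h1 ⊢
      exact h1)
  simp only [Fm.subst, Tm.subst_push_shift, Tm.subst] at h2
  exact h2

theorem lt_congr {s s' t t' : Tm} (h : Fm.eq s s' ∈ Γ) (h' : Fm.eq t t' ∈ Γ)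
    (hlt : Fm.lt s t ∈ Γ) : Fm.lt s' t' ∈ Γ := by
  have h1 := H.leib h (.lt (.var 0) (t.subst (fun i => .var (i + 1))))
    (by simp only [Fm.subst, Tm.subst_push_shift]; exact hlt)
  have h2 := H.leib h' (.lt (s'.subst (fun i => .var (i + 1))) (.var 0))
    (by
      simp only [Fm.subst, Tm.subst_push_shift] at h1 ⊢
      exact h1)
  simp only [Fm.subst, Tm.subst_push_shift] at h2
  exact h2

theorem mem_congr {s s' : Tm} {i : ℕ} (h : Fm.eq s s' ∈ Γ) (hm : Fm.mem s i ∈ Γ) :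
    Fm.mem s' i ∈ Γ := by
  have h1 := H.leib h (.mem (.var 0) i) (by simp only [Fm.subst]; exact hm)
  simp only [Fm.subst] at h1
  exact h1

/-- the setoid on terms -/
def setoid : Setoid Tm where
  r s t := Fm.eq s t ∈ Γ
  iseqv := ⟨H.refl, H.symm, H.trans⟩

theorem and_iff (φ ψ : Fm) : Fm.and φ ψ ∈ Γ ↔ φ ∈ Γ ∧ ψ ∈ Γ := by
  constructor
  · intro h
    constructor
    · refine H.mp _ _ (H.prov _ (.taut ?_)) h
      intro val hn ha
      simp only [Fm.imp, hn, ha]
      tauto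
    · refine H.mp _ _ (H.prov _ (.taut ?_)) h
      intro val hn ha
      simp only [Fm.imp, hn, ha]
      tauto
  · rintro ⟨h1, h2⟩
    refine H.mp _ _ (H.mp _ _ (H.prov _ (.taut ?_)) h1) h2
    intro val hn ha
    simp only [Fm.imp, hn, ha]
    tauto

theorem all_iff (φ : Fm) : Fm.all φ ∈ Γ ↔ ∀ t : Tm, φ.subst (push t .var) id ∈ Γ :=
  ⟨fun h t => H.mp _ _ (H.prov _ (.inst φ t)) h, fun h => H.all φ fun y => h (.var y)⟩

theorem allS_iff (φ : Fm) : Fm.allS φ ∈ Γ ↔ ∀ i : ℕ, φ.subst .var (push i id) ∈ Γ :=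
  ⟨fun h i => H.mp _ _ (H.prov _ (.instS φ i)) h, fun h => H.allS φ h⟩

end Hk

end model

/-- completeness of the calculus -/
theorem Prov.complete {T : Set Fm} {φ : Fm} (h : Proves.{0} T φ) : Prov T φ := by
  by_contra hcon
  have hcon' : Con T (.neg φ) := by
    intro h1
    refine hcon (Prov.tmp1 ?_ h1)
    intro val hn ha
    simp only [Fm.imp, hn, ha]
    tauto
  obtain ⟨Γ, h0, h1, h2, h3, h4, h5⟩ := exists_max hcon'
  have H : Hk T Γ := ⟨h1, h2, h3, h4, h5⟩
  let st : Setoid Tm := H.setoid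
  let Q : Type := Quotient st
  let iz : Zero Q := ⟨Quotient.mk st .zero⟩
  let io : One Q := ⟨Quotient.mk st .one⟩
  let ia : Add Q := ⟨Quotient.map₂ .add (fun _ _ h _ _ h' => H.add_congr h h')⟩
  let im : Mul Q := ⟨Quotient.map₂ .mul (fun _ _ h _ _ h' => H.mul_congr h h')⟩
  let il : LT Q := ⟨fun a b => Quotient.lift₂ (fun s t => Fm.lt s t ∈ Γ)
    (fun _ _ _ _ h h' => propext ⟨H.lt_congr h h', H.lt_congr (H.symm h) (H.symm h')⟩) a b⟩
  let A : ℕ → Set Q := fun i => {q | Quotient.lift (fun s => Fm.mem s i ∈ Γ)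
    (fun _ _ h => propext ⟨H.mem_congr h, H.mem_congr (H.symm h)⟩) q}
  let S : Set (Set Q) := Set.range A
  have hev : ∀ (t : Tm) (σ : ℕ → Tm),
      t.ev (fun i => (Quotient.mk st (σ i) : Q)) = Quotient.mk st (t.subst σ) := by
    intro t σ
    induction t with
    | var i => rfl
    | zero => rfl
    | one => rfl
    | add s t ih1 ih2 => simp only [Tm.ev, Tm.subst, ih1, ih2]; rfl
    | mul s t ih1 ih2 => simp only [Tm.ev, Tm.subst, ih1, ih2]; rfl
  have truth : ∀ (φ : Fm) (σ : ℕ → Tm) (ρ : ℕ → ℕ),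
      φ.subst σ ρ ∈ Γ ↔ φ.sat S (fun i => (Quotient.mk st (σ i) : Q)) (fun i => A (ρ i)) := by
    intro φ
    induction φ with
    | eq s t =>
      intro σ ρ
      simp only [Fm.subst, Fm.sat, hev]
      exact (Quotient.eq (r := st)).symm
    | lt s t =>
      intro σ ρ
      simp only [Fm.subst, Fm.sat, hev]
      exact Iff.rfl
    | mem s j =>
      intro σ ρ
      simp only [Fm.subst, Fm.sat, hev]
      exact Iff.rfl
    | neg φ ih =>
      intro σ ρ
      simp only [Fm.subst, Fm.sat]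
      rw [H.neg, ih]
    | and φ ψ ih1 ih2 =>
      intro σ ρ
      simp only [Fm.subst, Fm.sat]
      rw [H.and_iff, ih1, ih2]
    | all φ ih =>
      intro σ ρ
      simp only [Fm.subst, Fm.sat]
      rw [H.all_iff]
      have e : ∀ t : Tm, (φ.subst (up σ) ρ).subst (push t .var) id = φ.subst (push t σ) ρ := by
        intro t
        rw [Fm.subst_subst]
        congr 1
        funext i
        cases i with
        | zero => rfl
        | succ i => exact Tm.subst_push_shift (σ i) t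
      have e2 : ∀ t : Tm, (fun i => (Quotient.mk st ((push t σ : ℕ → Tm) i) : Q)) =
          push (Quotient.mk st t) (fun i => (Quotient.mk st (σ i) : Q)) := by
        intro t; funext i; cases i <;> rfl
      constructor
      · intro h x
        obtain ⟨t, rfl⟩ := Quotient.exists_rep x
        have := h t
        rw [e, ih, e2] at this
        exact this
      · intro h t
        rw [e, ih, e2]
        exact h _
    | allS φ ih =>
      intro σ ρ
      simp only [Fm.subst, Fm.sat]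
      rw [H.allS_iff]
      have e : ∀ k : ℕ, (φ.subst σ (upS ρ)).subst .var (push k id) = φ.subst σ (push k ρ) := by
        intro k
        rw [Fm.subst_subst]
        congr 1
        · funext i; exact Tm.subst_var _
        · funext i; cases i <;> rfl
      have e2 : ∀ k : ℕ, (fun i => A ((push k ρ : ℕ → ℕ) i)) = push (A k) (fun i => A (ρ i)) := by
        intro k; funext i; cases i <;> rfl
      constructor
      · rintro h X ⟨k, rfl⟩
        have := h k
        rw [e, ih, e2] at this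
        exact this
      · intro h k
        rw [e, ih, e2]
        exact h _ ⟨k, rfl⟩
  have hmodel : ∀ ψ ∈ T, Models S ψ := by
    intro ψ hψ v V hV
    choose σ hσ using fun i => Quotient.exists_rep (v i)
    choose ρ hρ using hV
    have h6 := (truth ψ σ ρ).1 (H.prov _ (.subst σ ρ (.ax hψ)))
    have e1 : (fun i => (Quotient.mk st (σ i) : Q)) = v := funext hσ
    have e2 : (fun i => A (ρ i)) = V := funext hρ
    rw [e1, e2] at h6
    exact h6
  have hφ := h Q S ⟨A 0, 0, rfl⟩ hmodel (fun i => Quotient.mk st (.var i)) A (fun i => ⟨i, rfl⟩)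
  have h7 := (truth φ .var id).2 hφ
  rw [Fm.subst_id] at h7
  exact (H.neg φ).1 h0 h7

end Pool.Agent.Lib.Hin
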