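import Pool.Agent.Lib.Hin.Cod

/-!
# Chunk REC: definition by recursion (uses `cod`)

Proof.  `Good a b n := ∀ i, i < n → (bit a b i ↔ Φ i (bit a b))` is arithmetical (`har'` below).
(1) `∀ n ∃ a b, Good a b n` by induction on `n`: given `a b` for `n` the set
`A = {i | (i < n ∧ bit a b i) ∨ (i = n ∧ Φ n (bit a b))}` is in `S`, apply `cod` to `A` and
`n + 1`, use `hloc`.
(2) If `Good a b n`, `Good a' b' n'`, `i < n`, `i < n'`, then `bit a b i ↔ bit a' b' i`
(strong induction on `i`, arithmetical; `hloc`).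
(3) `Y = {n | ∃ a b, Good a b (n + 1) ∧ bit a b n} ∈ S`; for `Good a b (n+1)` and `i ≤ n`:
`bit a b i ↔ i ∈ Y` by (2) (and (1)), hence `n ∈ Y ↔ bit a b n ↔ Φ n (bit a b) ↔ Φ n (· ∈ Y)`.
-/

set_option linter.unusedSectionVars false

namespace Pool.Agent.Lib.Hin

universe u
variable {N : Type u} [CommSemiring N] [LinearOrder N] [IsStrictOrderedRing N]
  [CanonicallyOrderedAdd N] [Disc N] {S : Set (Set N)}

theorem rec_exists (h : PM S) (Φ : N → (N → Prop) → Prop)
    (har : Ar S (fun v => Φ (v 0) (fun i => bit (v 1) (v 2) i)))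
    (hloc : ∀ n (P Q : N → Prop), (∀ i, i < n → (P i ↔ Q i)) → (Φ n P → Φ n Q)) :
    ∃ Y ∈ S, ∀ n, (n ∈ Y ↔ Φ n (fun i => i ∈ Y)) := by
  have hloc' : ∀ n (P Q : N → Prop), (∀ i, i < n → (P i ↔ Q i)) → (Φ n P ↔ Φ n Q) :=
    fun n P Q hPQ => ⟨hloc n P Q hPQ, hloc n Q P (fun i hi => (hPQ i hi).symm)⟩
  have har' : Ar S (fun v =>
      ∀ i, i < v 0 → (bit (v 1) (v 2) i ↔ Φ i (fun i => bit (v 1) (v 2) i))) := by
    apply Ar.all
    apply Ar.imp
    · (repeat' (first
        | assumption | exact ArT.const _ | exact ArT.var _ | apply ArT.add | apply ArT.mul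
        | apply ArT.pr | exact Ar.prop _ | apply Ar.and | apply Ar.or | apply Ar.not | apply Ar.iff
        | apply Ar.ex | apply Ar.imp | apply Ar.all | apply Ar.eq | apply Ar.ne | apply Ar.lt
        | apply Ar.le | apply Ar.bit | apply Ar.E | (apply Ar.mem; assumption)
        | (refine Ar.app1 ?_ ?_; assumption) | (refine Ar.app2 ?_ ?_ ?_; assumption)
        | (refine Ar.app3 ?_ ?_ ?_ ?_; assumption)))
    · apply Ar.iff
      · (repeat' (first
          | assumption | exact ArT.const _ | exact ArT.var _ | apply ArT.add | apply ArT.mul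
          | apply ArT.pr | exact Ar.prop _ | apply Ar.and | apply Ar.or | apply Ar.not | apply Ar.iff
          | apply Ar.ex | apply Ar.imp | apply Ar.all | apply Ar.eq | apply Ar.ne | apply Ar.lt
          | apply Ar.le | apply Ar.bit | apply Ar.E | (apply Ar.mem; assumption)
          | (refine Ar.app1 ?_ ?_; assumption) | (refine Ar.app2 ?_ ?_ ?_; assumption)
          | (refine Ar.app3 ?_ ?_ ?_ ?_; assumption)))
      · exact Ar.app3 (R := fun n a b => Φ n (fun i => bit a b i)) har
          (ArT.var 0) (ArT.var 2) (ArT.var 3)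
  -- (1) existence
  have ex : ∀ n : N, ∃ a b : N, ∀ i, i < n → (bit a b i ↔ Φ i (fun i => bit a b i)) := by
    refine h.induct (fun n => ∃ a b : N, ∀ i, i < n → (bit a b i ↔ Φ i (fun i => bit a b i)))
      ?_ ?_ ?_
    · apply Ar.ex
      apply Ar.ex
      exact Ar.app3 (R := fun n a b => ∀ i, i < n → (bit a b i ↔ Φ i (fun i => bit a b i))) har'
        (ArT.var 2) (ArT.var 1) (ArT.var 0)
    · exact ⟨0, 0, fun i hi => absurd hi (by grind)⟩
    · rintro n ⟨a, b, hab⟩
      obtain ⟨a', b', hab'⟩ := cod h (A := {i | (i < n ∧ bit a b i) ∨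
        (i = n ∧ Φ n (fun i => bit a b i))}) (h.comp _ (by (repeat' (first
            | assumption | exact ArT.const _ | exact ArT.var _ | apply ArT.add | apply ArT.mul
            | apply ArT.pr | exact Ar.prop _ | apply Ar.and | apply Ar.or | apply Ar.not | apply Ar.iff
            | apply Ar.ex | apply Ar.imp | apply Ar.all | apply Ar.eq | apply Ar.ne | apply Ar.lt
            | apply Ar.le | apply Ar.bit | apply Ar.E | (apply Ar.mem; assumption)
            | (refine Ar.app1 ?_ ?_; assumption) | (refine Ar.app2 ?_ ?_ ?_; assumption)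
            | (refine Ar.app3 ?_ ?_ ?_ ?_; assumption))))) (n + 1)
      have hlt : ∀ i, i < n → (bit a' b' i ↔ bit a b i) := by
        intro i hi
        rw [hab' i (by grind)]
        constructor
        · rintro (h1 | h1)
          · exact h1.2
          · exact absurd h1.1 (ne_of_lt hi)
        · exact fun h1 => Or.inl ⟨hi, h1⟩
      refine ⟨a', b', fun i hi => ?_⟩
      rcases lt_or_eq_of_le (show i ≤ n by grind) with h2 | h2
      · rw [hlt i h2, hab i h2]
        exact hloc' i _ _ (fun j hj => (hlt j (lt_trans hj h2)).symm)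
      · subst h2
        rw [hab' i hi]
        constructor
        · rintro (h1 | h1)
          · exact absurd h1.1 (lt_irrefl _)
          · exact (hloc' i _ _ (fun j hj => (hlt j hj).symm)).1 h1.2
        · exact fun h1 => Or.inr ⟨rfl, (hloc' i _ _ (fun j hj => hlt j hj)).1 h1⟩
  -- (2) uniqueness
  have uniq : ∀ a b n a' b' n' : N, (∀ i, i < n → (bit a b i ↔ Φ i (fun i => bit a b i))) →
      (∀ i, i < n' → (bit a' b' i ↔ Φ i (fun i => bit a' b' i))) →
      ∀ i, i < n → i < n' → (bit a b i ↔ bit a' b' i) := by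
    intro a b n a' b' n' h1 h2
    refine h.strong (fun i => i < n → i < n' → (bit a b i ↔ bit a' b' i)) (by (repeat' (first
        | assumption | exact ArT.const _ | exact ArT.var _ | apply ArT.add | apply ArT.mul
        | apply ArT.pr | exact Ar.prop _ | apply Ar.and | apply Ar.or | apply Ar.not | apply Ar.iff
        | apply Ar.ex | apply Ar.imp | apply Ar.all | apply Ar.eq | apply Ar.ne | apply Ar.lt
        | apply Ar.le | apply Ar.bit | apply Ar.E | (apply Ar.mem; assumption)
        | (refine Ar.app1 ?_ ?_; assumption) | (refine Ar.app2 ?_ ?_ ?_; assumption)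
        | (refine Ar.app3 ?_ ?_ ?_ ?_; assumption)))) ?_
    intro i ih hi hi'
    rw [h1 i hi, h2 i hi']
    exact hloc' i _ _ (fun j hj => ih j hj (lt_trans hj hi) (lt_trans hj hi'))
  -- (3)
  have hYmem : ∀ n : N, ∀ a b : N,
      (∀ i, i < n + 1 → (bit a b i ↔ Φ i (fun i => bit a b i))) →
      ∀ i, i ≤ n → (i ∈ {n : N | ∃ a b : N, (∀ i, i < n + 1 →
        (bit a b i ↔ Φ i (fun i => bit a b i))) ∧ bit a b n} ↔ bit a b i) := by
    intro n a b hab i hi
    constructor
    · rintro ⟨a', b', h1, h2⟩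
      exact (uniq a' b' (i + 1) a b (n + 1) h1 hab i (by grind) (by grind)).1 h2
    · intro h1
      exact ⟨a, b, fun j hj => hab j (by grind), h1⟩
  refine ⟨{n : N | ∃ a b : N, (∀ i, i < n + 1 →
        (bit a b i ↔ Φ i (fun i => bit a b i))) ∧ bit a b n}, h.comp _ ?_, ?_⟩
  · apply Ar.ex
    apply Ar.ex
    apply Ar.and
    · exact Ar.app3 (R := fun n a b => ∀ i, i < n → (bit a b i ↔ Φ i (fun i => bit a b i))) har'
        (ArT.add (ArT.var 2) (ArT.const 1)) (ArT.var 1) (ArT.var 0)
    · (repeat' (first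
        | assumption | exact ArT.const _ | exact ArT.var _ | apply ArT.add | apply ArT.mul
        | apply ArT.pr | exact Ar.prop _ | apply Ar.and | apply Ar.or | apply Ar.not | apply Ar.iff
        | apply Ar.ex | apply Ar.imp | apply Ar.all | apply Ar.eq | apply Ar.ne | apply Ar.lt
        | apply Ar.le | apply Ar.bit | apply Ar.E | (apply Ar.mem; assumption)
        | (refine Ar.app1 ?_ ?_; assumption) | (refine Ar.app2 ?_ ?_ ?_; assumption)
        | (refine Ar.app3 ?_ ?_ ?_ ?_; assumption)))
  · intro n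
    obtain ⟨a, b, hab⟩ := ex (n + 1)
    have h1 := hYmem n a b hab
    rw [h1 n le_rfl, hab n (by grind)]
    exact hloc' n _ _ (fun j hj => (h1 j hj.le).symm)

end Pool.Agent.Lib.Hin
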