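import Pool.Agent.Lib.Hin.Lang
import Pool.Agent.Lib.Hin.Rec

/-!
# Chunk PATH: the point `f` in phase with `C` (uses `rec_exists`)

`Q p b m := L p (b + m) ∧ E C (p + b) C b m`.

(P1) For all `m, N₀` there are `b ≥ N₀` and `p` with `Q p b m`.  Proof: `hL.ext` from the empty
word gives `u` with `L u m`; `hL.gap`: `d` such that every word of `L` of length `d` contains
`(u, m)`.  Let `b₀ ≥ N₀ + d` ... : `hL.far` gives `b ≥ N₀ + d` with `E C b C u m`.
We need a word of `L` with `(u, m)` at position `b`: take a word `(t, b + d)` in `L` (`ext`), its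
factor `(t + b, d)` contains `(u, m)` at `t + b + o`, `o + m ≤ d`; `p = t + o`:
`(p, b + m)` is a factor of `(t, b + d)` and `E C (p + b) C u m`.

(P2) There is `f ∈ S` with `∀ l m N₀, ∃ b ≥ N₀, ∃ p, Q p b m ∧ E f 0 C p l`.  Proof: `rec_exists`
with `Φ n P := ¬ ∀ m N₀, ∃ b p, N₀ ≤ b ∧ Q p b m ∧ (∀ i, i < n → (P i ↔ p + i ∈ C)) ∧ p + n ∉ C`,
then induction on `l`:  if `l ∉ f` this is the equation for `f`; if `l ∈ f` then for some
`m₁, N₁` there is no `b ≥ N₁, p` with `Q p b m₁`, `E f 0 C p l` and `p + l ∉ C`; for given `m, N₀`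
use the induction hypothesis for `m + m₁`, `N₀ + N₁` (`Q` is monotone in `m`).

(P3) the two claims: `pref`: from (P2) with `m = l`, `N₀ = l`: `L p (b + m)`, `factor` with `o = 0`.
Second claim: `(x, l)` in `L`, `d` its gap; (P2) with `l := d`, `m := d`, `N₀ + d`: `b₀, p`.
`(p, d)` contains `(x, l)` at `b' `: `E C (p + b') C x l`, `b' + l ≤ d`, so `E f b' C x l`.
`(b₀, d)` is in `L` (`congr` with `(p + b₀, d)`) and contains `(x, l)` at `o`, `b = b₀ + o`,
`e = b - b'` (`b' ≤ d ≤ b₀`), `z = p + b'`: `L z (e + l)` is a factor of `(p, b₀ + d)`.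
-/

set_option linter.unusedSectionVars false

namespace Pool.Agent.Lib.Hin

universe u
variable {N : Type u} [CommSemiring N] [LinearOrder N] [IsStrictOrderedRing N]
  [CanonicallyOrderedAdd N] [Disc N] {S : Set (Set N)} {C : Set N} {L : N → N → Prop}

theorem path_exists (h : PM S) (hC : C ∈ S) (hL : Lang S C L) :
    ∃ f ∈ S, (∀ l, ∃ p, L p l ∧ E f 0 C p l) ∧
      ∀ x l, L x l → ∀ N₀, ∃ b b' e z, N₀ ≤ b ∧ b = b' + e ∧ E f b' C x l ∧ E C b C x l ∧
        L z (e + l) ∧ E C z C x l ∧ E C (z + e) C x l := by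
  have hLar := hL.ar
  have hpre : ∀ p a a', L p a → a' ≤ a → L p a' := by
    intro p a a' h1 h2
    have := hL.factor p a 0 a' h1 (by grind)
    rwa [add_zero] at this
  -- (P1)
  have hP1 : ∀ m N₀, ∃ b p, N₀ ≤ b ∧ L p (b + m) ∧ E C (p + b) C b m := by
    intro m N₀
    obtain ⟨u, -, hu⟩ := hL.ext 0 0 m hL.empty zero_le
    obtain ⟨d, hd⟩ := hL.gap u m hu
    obtain ⟨b, hb, hbE⟩ := hL.far u m hu N₀
    obtain ⟨t, -, ht⟩ := hL.ext 0 0 (b + d) hL.empty zero_le
    obtain ⟨o, ho, hoE⟩ := hd (t + b) (hL.factor t (b + d) b d ht le_rfl)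
    refine ⟨b, t + o, hb, hL.factor t (b + d) o (b + m) ht (by grind), ?_⟩
    have h1 : t + o + b = t + b + o := by ring
    rw [h1]
    exact hoE.trans hbE.symm
  -- (P2)
  obtain ⟨f, hf, hfeq⟩ := rec_exists h
    (fun n P => ¬ ∀ m N₀, ∃ b p, N₀ ≤ b ∧ (L p (b + m) ∧ E C (p + b) C b m) ∧
      (∀ i, i < n → (P i ↔ p + i ∈ C)) ∧ ¬ p + n ∈ C) (by (repeat' (first
          | assumption | exact ArT.const _ | exact ArT.var _ | apply ArT.add | apply ArT.mul
          | apply ArT.pr | exact Ar.prop _ | apply Ar.and | apply Ar.or | apply Ar.not | apply Ar.iff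
          | apply Ar.ex | apply Ar.imp | apply Ar.all | apply Ar.eq | apply Ar.ne | apply Ar.lt
          | apply Ar.le | apply Ar.bit | apply Ar.E | (apply Ar.mem; assumption)
          | (refine Ar.app1 ?_ ?_; assumption) | (refine Ar.app2 ?_ ?_ ?_; assumption)
          | (refine Ar.app3 ?_ ?_ ?_ ?_; assumption))))
    (by
      intro n P Q hPQ h1 h2
      refine h1 fun m N₀ => ?_
      obtain ⟨b, p, h3, h4, h5, h6⟩ := h2 m N₀
      exact ⟨b, p, h3, h4, fun i hi => (hPQ i hi).trans (h5 i hi), h6⟩)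
  have hP2 : ∀ l m N₀, ∃ b p, N₀ ≤ b ∧ (L p (b + m) ∧ E C (p + b) C b m) ∧ E f 0 C p l := by
    refine h.induct (fun l => ∀ m N₀, ∃ b p, N₀ ≤ b ∧ (L p (b + m) ∧ E C (p + b) C b m) ∧
      E f 0 C p l) (by (repeat' (first
          | assumption | exact ArT.const _ | exact ArT.var _ | apply ArT.add | apply ArT.mul
          | apply ArT.pr | exact Ar.prop _ | apply Ar.and | apply Ar.or | apply Ar.not | apply Ar.iff
          | apply Ar.ex | apply Ar.imp | apply Ar.all | apply Ar.eq | apply Ar.ne | apply Ar.lt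
          | apply Ar.le | apply Ar.bit | apply Ar.E | (apply Ar.mem; assumption)
          | (refine Ar.app1 ?_ ?_; assumption) | (refine Ar.app2 ?_ ?_ ?_; assumption)
          | (refine Ar.app3 ?_ ?_ ?_ ?_; assumption)))) ?_ ?_
    · intro m N₀
      obtain ⟨b, p, h1, h2, h3⟩ := hP1 m N₀
      exact ⟨b, p, h1, ⟨h2, h3⟩, fun i hi => absurd hi (by grind)⟩
    · intro l ih m N₀
      by_cases hl : l ∈ f
      · have h1 := (hfeq l).mp hl
        push Not at h1
        obtain ⟨m₁, N₁, h1⟩ := h1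
        obtain ⟨b, p, h2, ⟨h3, h4⟩, h5⟩ := ih (m + m₁) (N₀ + N₁)
        have h6 : p + l ∈ C := by
          refine h1 b p (by grind) ⟨hpre _ _ _ h3 (by grind), h4.mono (by grind)⟩ ?_
          intro i hi
          have := h5 i hi
          rwa [zero_add] at this
        refine ⟨b, p, by grind, ⟨hpre _ _ _ h3 (by grind), h4.mono (by grind)⟩, ?_⟩
        intro i hi
        rcases lt_or_eq_of_le (show i ≤ l by grind) with h7 | h7
        · exact h5 i h7
        · subst h7
          rw [zero_add]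
          exact ⟨fun _ => h6, fun _ => hl⟩
      · have h1 : ∀ m N₀, ∃ b p, N₀ ≤ b ∧ (L p (b + m) ∧ E C (p + b) C b m) ∧
            (∀ i, i < l → (i ∈ f ↔ p + i ∈ C)) ∧ ¬ p + l ∈ C := by
          by_contra hc
          exact hl ((hfeq l).mpr hc)
        obtain ⟨b, p, h2, h3, h4, h5⟩ := h1 m N₀
        refine ⟨b, p, h2, h3, ?_⟩
        intro i hi
        rw [zero_add]
        rcases lt_or_eq_of_le (show i ≤ l by grind) with h7 | h7
        · exact h4 i h7
        · subst h7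
          exact ⟨fun h8 => absurd h8 hl, fun h8 => absurd h8 h5⟩
  -- (P3)
  refine ⟨f, hf, ?_, ?_⟩
  · intro l
    obtain ⟨b, p, h1, ⟨h2, h3⟩, h4⟩ := hP2 l l l
    exact ⟨p, hpre _ _ _ h2 (by grind), h4⟩
  · intro x l hx N₀
    obtain ⟨d, hd⟩ := hL.gap x l hx
    obtain ⟨b₀, p, h1, ⟨h2, h3⟩, h4⟩ := hP2 d d (N₀ + d)
    obtain ⟨b', hb', hb'E⟩ := hd p (hpre _ _ _ h2 (by grind))
    have h5 : L (p + b₀) d := hL.factor p (b₀ + d) b₀ d h2 le_rfl
    obtain ⟨o, ho, hoE⟩ := hd b₀ (hL.congr _ _ _ h3 h5)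
    obtain ⟨e, he⟩ := exists_add_of_le (show b' ≤ b₀ + o by grind)
    refine ⟨b₀ + o, b', e, p + b', by grind, he, ?_, hoE, ?_, hb'E, ?_⟩
    · have h6 := h4.shift (o := b') (l' := l) hb'
      rw [zero_add] at h6
      exact h6.trans hb'E
    · refine hL.factor p (b₀ + d) b' (e + l) h2 ?_
      rw [← add_assoc, ← he]
      grind
    · have h7 : p + b' + e = p + b₀ + o := by rw [add_assoc, ← he, add_assoc]
      rw [h7]
      exact (h3.shift ho).trans hoE

end Pool.Agent.Lib.Hin
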