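import Pool.Agent.Lib.Hin.Lang
import Pool.Agent.Lib.Hin.Orbit

/-!
# Chunk THIN: the homogeneous set (uses `orbit_exists`)

`orbit_exists` with `I y := (y + w ∈ C ↔ w ∈ f) ∧ (y + w + w ∈ f ↔ w ∈ f)` and
`R y y' := E C y' f 0 (y + w + w + 1)`.
Successor of `y`: `hP` with `m = y + w + w + 1`, `N₀ = y + 1`; `y' + w ∈ C ↔ w ∈ f` since `w < m`.
First element: `hP` with `m = w + 1`.  For `y < y'` in `O`: the predecessor `y''` of `y'` satisfies
`y ≤ y''` and `E C y' f 0 (y'' + w + w + 1)`, hence `y' + (y + w + w) ∈ C ↔ y + w + w ∈ f ↔ w ∈ f`.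
`X = {x | ∃ y ∈ O, x = y + w}`.
-/

set_option linter.unusedSectionVars false

namespace Pool.Agent.Lib.Hin

universe u
variable {N : Type u} [CommSemiring N] [LinearOrder N] [IsStrictOrderedRing N]
  [CanonicallyOrderedAdd N] [Disc N] {S : Set (Set N)} {C : Set N}

theorem thin (h : PM S) (hC : C ∈ S) {f : Set N} (hf : f ∈ S) {w : N} (hP : Pw C f w) :
    ∃ X ∈ S, (∀ x, ∃ y ∈ X, x < y) ∧ (∀ x ∈ X, (x ∈ C ↔ w ∈ f)) ∧
      ∀ x ∈ X, ∀ y ∈ X, x < y → (x + y ∈ C ↔ w ∈ f) := by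
  have hEw : ∀ y m, w < m → E C y f 0 m → (y + w ∈ C ↔ w ∈ f) := by
    intro y m hm hE
    have h1 := hE w hm
    rwa [zero_add] at h1
  have hIar : Ar S (fun v => (v 0 + w ∈ C ↔ w ∈ f) ∧ (v 0 + w + w ∈ f ↔ w ∈ f)) := by (repeat' (first
      | assumption | exact ArT.const _ | exact ArT.var _ | apply ArT.add | apply ArT.mul
      | apply ArT.pr | exact Ar.prop _ | apply Ar.and | apply Ar.or | apply Ar.not | apply Ar.iff
      | apply Ar.ex | apply Ar.imp | apply Ar.all | apply Ar.eq | apply Ar.ne | apply Ar.lt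
      | apply Ar.le | apply Ar.bit | apply Ar.E | (apply Ar.mem; assumption)
      | (refine Ar.app1 ?_ ?_; assumption) | (refine Ar.app2 ?_ ?_ ?_; assumption)
      | (refine Ar.app3 ?_ ?_ ?_ ?_; assumption)))
  have hRar : Ar S (fun v => E C (v 1) f 0 (v 0 + w + w + 1)) := by (repeat' (first
      | assumption | exact ArT.const _ | exact ArT.var _ | apply ArT.add | apply ArT.mul
      | apply ArT.pr | exact Ar.prop _ | apply Ar.and | apply Ar.or | apply Ar.not | apply Ar.iff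
      | apply Ar.ex | apply Ar.imp | apply Ar.all | apply Ar.eq | apply Ar.ne | apply Ar.lt
      | apply Ar.le | apply Ar.bit | apply Ar.E | (apply Ar.mem; assumption)
      | (refine Ar.app1 ?_ ?_; assumption) | (refine Ar.app2 ?_ ?_ ?_; assumption)
      | (refine Ar.app3 ?_ ?_ ?_ ?_; assumption)))
  obtain ⟨y0, -, hE0, hy0⟩ := hP (w + 1) 0
  obtain ⟨O, hO, hx0, hOI, hOinf, hOpred⟩ := orbit_exists h
    (fun y => (y + w ∈ C ↔ w ∈ f) ∧ (y + w + w ∈ f ↔ w ∈ f)) hIar
    (fun y y' => E C y' f 0 (y + w + w + 1)) hRar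
    (by
      intro x _
      obtain ⟨y, hy, hE, hyw⟩ := hP (x + w + w + 1) (x + 1)
      exact ⟨y, by grind, hE, hEw y _ (by grind) hE, hyw⟩)
    y0 ⟨hEw y0 _ (by grind) hE0, hy0⟩
  have hunb : ∀ x, ∃ y ∈ O, x < y := by
    have key : ∀ x, ∃ y, y ∈ O ∧ x < y := by
      refine h.induct (fun x => ∃ y, y ∈ O ∧ x < y) (by (repeat' (first
          | assumption | exact ArT.const _ | exact ArT.var _ | apply ArT.add | apply ArT.mul
          | apply ArT.pr | exact Ar.prop _ | apply Ar.and | apply Ar.or | apply Ar.not | apply Ar.iff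
          | apply Ar.ex | apply Ar.imp | apply Ar.all | apply Ar.eq | apply Ar.ne | apply Ar.lt
          | apply Ar.le | apply Ar.bit | apply Ar.E | (apply Ar.mem; assumption)
          | (refine Ar.app1 ?_ ?_; assumption) | (refine Ar.app2 ?_ ?_ ?_; assumption)
          | (refine Ar.app3 ?_ ?_ ?_ ?_; assumption)))) ?_ ?_
      · obtain ⟨y, hy, hlt⟩ := hOinf y0 hx0
        exact ⟨y, hy, by grind⟩
      · intro x ⟨y, hy, hlt⟩
        obtain ⟨y', hy', hlt'⟩ := hOinf y hy
        exact ⟨y', hy', by grind⟩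
    exact key
  have hmin : ∀ y, y ∈ O → y0 ≤ y := by
    refine h.strong (fun y => y ∈ O → y0 ≤ y) (by (repeat' (first
        | assumption | exact ArT.const _ | exact ArT.var _ | apply ArT.add | apply ArT.mul
        | apply ArT.pr | exact Ar.prop _ | apply Ar.and | apply Ar.or | apply Ar.not | apply Ar.iff
        | apply Ar.ex | apply Ar.imp | apply Ar.all | apply Ar.eq | apply Ar.ne | apply Ar.lt
        | apply Ar.le | apply Ar.bit | apply Ar.E | (apply Ar.mem; assumption)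
        | (refine Ar.app1 ?_ ?_; assumption) | (refine Ar.app2 ?_ ?_ ?_; assumption)
        | (refine Ar.app3 ?_ ?_ ?_ ?_; assumption)))) ?_
    intro y ih hy
    rcases hOpred y hy with h1 | ⟨x, hx, hlt, -, -⟩
    · rw [h1]
    · exact le_trans (ih x hlt hx) (le_of_lt hlt)
  refine ⟨{x | ∃ y, y ∈ O ∧ x = y + w}, h.comp (fun x => ∃ y, y ∈ O ∧ x = y + w) (by (repeat' (first
      | assumption | exact ArT.const _ | exact ArT.var _ | apply ArT.add | apply ArT.mul
      | apply ArT.pr | exact Ar.prop _ | apply Ar.and | apply Ar.or | apply Ar.not | apply Ar.iff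
      | apply Ar.ex | apply Ar.imp | apply Ar.all | apply Ar.eq | apply Ar.ne | apply Ar.lt
      | apply Ar.le | apply Ar.bit | apply Ar.E | (apply Ar.mem; assumption)
      | (refine Ar.app1 ?_ ?_; assumption) | (refine Ar.app2 ?_ ?_ ?_; assumption)
      | (refine Ar.app3 ?_ ?_ ?_ ?_; assumption)))), ?_, ?_, ?_⟩
  · intro x
    obtain ⟨y, hy, hlt⟩ := hunb x
    exact ⟨y + w, ⟨y, hy, rfl⟩, by grind⟩
  · rintro x ⟨y, hy, rfl⟩
    exact (hOI y hy).1
  · rintro x ⟨y1, hy1, rfl⟩ y ⟨y2, hy2, rfl⟩ hlt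
    have hlt' : y1 < y2 := by grind
    have h1 := hmin y1 hy1
    rcases hOpred y2 hy2 with h2 | ⟨x, hx, hxl, hE, hmax⟩
    · grind
    · have h3 := hmax y1 hy1 hlt'
      have h4 := hE (y1 + w + w) (by grind)
      rw [zero_add] at h4
      have h5 : y1 + w + (y2 + w) = y2 + (y1 + w + w) := by ring
      rw [h5, h4]
      exact (hOI y1 hy1).2

end Pool.Agent.Lib.Hin
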