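import Pool.Agent.Lib.Hin.LangEx
import Pool.Agent.Lib.Hin.Path
import Pool.Agent.Lib.Hin.CaseA
import Pool.Agent.Lib.Hin.CaseB
import Pool.Agent.Lib.Hin.Thin

/-!
# The combinatorial theorem inside a model of `ACA_0`
-/

set_option linter.unusedSectionVars false

namespace Pool.Agent.Lib.Hin

universe u
variable {N : Type u} [CommSemiring N] [LinearOrder N] [IsStrictOrderedRing N]
  [CanonicallyOrderedAdd N] [Disc N] {S : Set (Set N)} {C : Set N}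

theorem hindman_core (h : PM S) (hC : C ∈ S) :
    ∃ X ∈ S, ∃ i : Prop, (∀ x, ∃ y ∈ X, x < y) ∧ (∀ x ∈ X, (x ∈ C ↔ i)) ∧
      ∀ x ∈ X, ∀ y ∈ X, x < y → (x + y ∈ C ↔ i) := by
  obtain ⟨L, hL⟩ := lang_exists h hC
  have key : ∃ f ∈ S, ∃ w, Pw C f w := by
    by_cases hA : ∃ w x l, w < l ∧ L x l ∧
        ∀ x' l' N₀, l ≤ l' → E C x' C x l → L x' l' → ¬ Blk C L x' l' w N₀
    · obtain ⟨w, x, l, hw, hx, hno⟩ := hA
      obtain ⟨f, hf, hP⟩ := caseA h hC hL hw hx hno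
      exact ⟨f, hf, w, hP⟩
    · obtain ⟨f, hf, pref, hR⟩ := path_exists h hC hL
      refine ⟨f, hf, 0, caseB h hC hL ?_ pref hR⟩
      intro w x l hx hw
      by_contra hc
      refine hA ⟨w, x, l, hw, hx, fun x' l' N₀ h1 h2 h3 h4 => hc ⟨x', l', N₀, h1, h2, h3, h4⟩⟩
  obtain ⟨f, hf, w, hP⟩ := key
  obtain ⟨X, hX, h1, h2, h3⟩ := thin h hC hf hP
  exact ⟨X, hX, w ∈ f, h1, h2, h3⟩

end Pool.Agent.Lib.Hin
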