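import Mathlib

/-!
# Second order arithmetic: the theory `ACA_0` and the bounded Hindman principles `HT_k^{≤n}`

An `L_2`-structure (Simpson, Definition I.2.3) is a type `M` with `0, 1, +, *, <` together with a
nonempty set `S : Set (Set M)` of subsets of `M` (the range of the set variables).

`Fm` is the type of formulas of `L_2` (de Bruijn indices for the number variables and, separately,
for the set variables), `ACA0 : Set Fm` is the theory `ACA_0` (Simpson, Definition III.1.2) and
`HT n k : Fm` is the sentence `HT_k^{≤n}`.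
-/

namespace Pool.Agent.Lib.Hin

universe u

/-- Numerical terms of `L_2`; `var i` is the `i`-th number variable (de Bruijn). -/
inductive Tm : Type
  | var (i : ℕ) : Tm
  | zero : Tm
  | one : Tm
  | add (s t : Tm) : Tm
  | mul (s t : Tm) : Tm

/-- Formulas of `L_2`: `mem t i` is `t ∈ X_i`; `all` is a quantifier over numbers (it binds number
variable `0` and shifts the others), `allS` is a quantifier over sets (it binds set variable `0`
and shifts the others). -/
inductive Fm : Type
  | eq (s t : Tm) : Fm
  | lt (s t : Tm) : Fm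
  | mem (s : Tm) (i : ℕ) : Fm
  | neg (φ : Fm) : Fm
  | and (φ ψ : Fm) : Fm
  | all (φ : Fm) : Fm
  | allS (φ : Fm) : Fm

namespace Fm

def or (φ ψ : Fm) : Fm := neg (and (neg φ) (neg ψ))
def imp (φ ψ : Fm) : Fm := neg (and φ (neg ψ))
def iff (φ ψ : Fm) : Fm := and (imp φ ψ) (imp ψ φ)
def ex (φ : Fm) : Fm := neg (all (neg φ))
def exS (φ : Fm) : Fm := neg (allS (neg φ))

/-- conjunction of a finite list of formulas -/
def conj : List Fm → Fm
  | [] => eq Tm.zero Tm.zero
  | φ :: l => and φ (conj l)

/-- `j` number quantifiers `∀ x_{j-1} ... ∀ x_0` in front of `φ` -/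
def alls : ℕ → Fm → Fm
  | 0, φ => φ
  | j + 1, φ => all (alls j φ)

/-- Arithmetical formulas: no set quantifiers. -/
def Arith : Fm → Prop
  | eq _ _ => True
  | lt _ _ => True
  | mem _ _ => True
  | neg φ => φ.Arith
  | and φ ψ => φ.Arith ∧ ψ.Arith
  | all φ => φ.Arith
  | allS _ => False

/-- Raise the set variables with index at least `c` by one. -/
def shiftS : ℕ → Fm → Fm
  | _, eq s t => eq s t
  | _, lt s t => lt s t
  | c, mem s i => mem s (if i < c then i else i + 1)
  | c, neg φ => neg (shiftS c φ)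
  | c, and φ ψ => and (shiftS c φ) (shiftS c ψ)
  | c, all φ => all (shiftS c φ)
  | c, allS φ => allS (shiftS (c + 1) φ)

end Fm

/-- `x, v 0, v 1, ...` -/
def push {α : Type*} (x : α) (v : ℕ → α) : ℕ → α
  | 0 => x
  | i + 1 => v i

section sat
variable {M : Type u} [Zero M] [One M] [Add M] [Mul M] [LT M]

/-- the value of a term -/
def Tm.ev (v : ℕ → M) : Tm → M
  | .var i => v i
  | .zero => 0
  | .one => 1
  | .add s t => s.ev v + t.ev v
  | .mul s t => s.ev v * t.ev v

/-- Satisfaction in the `L_2`-structure `(M, S)`: set quantifiers range over `S`. -/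
def Fm.sat (S : Set (Set M)) : Fm → (ℕ → M) → (ℕ → Set M) → Prop
  | .eq s t, v, _ => s.ev v = t.ev v
  | .lt s t, v, _ => s.ev v < t.ev v
  | .mem s i, v, V => s.ev v ∈ V i
  | .neg φ, v, V => ¬ φ.sat S v V
  | .and φ ψ, v, V => φ.sat S v V ∧ ψ.sat S v V
  | .all φ, v, V => ∀ x : M, φ.sat S (push x v) V
  | .allS φ, v, V => ∀ X ∈ S, φ.sat S v (push X V)

/-- `(M, S)` is a model of `φ` (all free variables are understood as universally quantified). -/
def Models (S : Set (Set M)) (φ : Fm) : Prop :=
  ∀ (v : ℕ → M) (V : ℕ → Set M), (∀ i, V i ∈ S) → φ.sat S v V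

end sat

/-- `T` proves `φ`, in the semantic form given by the completeness theorem: `φ` holds in every
`L_2`-structure which is a model of `T`. -/
def Proves (T : Set Fm) (φ : Fm) : Prop :=
  ∀ (M : Type u) [Zero M] [One M] [Add M] [Mul M] [LT M] (S : Set (Set M)), S.Nonempty →
    (∀ ψ ∈ T, Models S ψ) → Models S φ

/-! ### The theory `ACA_0` -/

section axioms
open Tm Fm

/-- The basic axioms (Simpson, Definition I.2.4 (i)). -/
def basicAxioms : List Fm :=
  [ -- n + 1 ≠ 0
    neg (eq (add (var 0) one) zero),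
    -- m + 1 = n + 1 → m = n
    imp (eq (add (var 0) one) (add (var 1) one)) (eq (var 0) (var 1)),
    -- m + 0 = m
    eq (add (var 0) zero) (var 0),
    -- m + (n + 1) = (m + n) + 1
    eq (add (var 0) (add (var 1) one)) (add (add (var 0) (var 1)) one),
    -- m * 0 = 0
    eq (mul (var 0) zero) zero,
    -- m * (n + 1) = (m * n) + m
    eq (mul (var 0) (add (var 1) one)) (add (mul (var 0) (var 1)) (var 0)),
    -- ¬ m < 0
    neg (lt (var 0) zero),
    -- m < n + 1 ↔ (m < n ∨ m = n)
    iff (lt (var 0) (add (var 1) one)) (or (lt (var 0) (var 1)) (eq (var 0) (var 1)))]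

/-- The induction axiom: `(0 ∈ X ∧ ∀ n (n ∈ X → n + 1 ∈ X)) → ∀ n (n ∈ X)`. -/
def inductionAxiom : Fm :=
  imp (and (mem zero 0) (all (imp (mem (var 0) 0) (mem (add (var 0) one) 0))))
    (all (mem (var 0) 0))

/-- The comprehension axiom `∃ X ∀ n (n ∈ X ↔ φ(n))`, where `n` is the number variable `0` of `φ`
and `X` is not free in `φ` (the other free variables of `φ` are parameters). -/
def comprehension (φ : Fm) : Fm :=
  exS (all (iff (mem (var 0) 0) (shiftS 0 φ)))

/-- `ACA_0`: basic axioms, induction axiom, arithmetical comprehension. -/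
def ACA0 : Set Fm :=
  {ψ | ψ ∈ basicAxioms ∨ ψ = inductionAxiom ∨ ∃ φ : Fm, φ.Arith ∧ ψ = comprehension φ}

end axioms

/-! ### The bounded Hindman principles -/

section hindman
open Tm Fm

/-- the numeral `k` -/
def numeral : ℕ → Tm
  | 0 => zero
  | k + 1 => add (numeral k) one

/-- the pair `(s, t)`, coded by `(s + t)^2 + s` (Simpson, II.2) -/
def pair (s t : Tm) : Tm := add (mul (add s t) (add s t)) s

/-- `X_0` (a set of pairs) is a function from `ℕ` to `{0, ..., k - 1}`:
`∀ x ∃ y (y < k ∧ (x, y) ∈ X_0 ∧ ∀ z ((x, z) ∈ X_0 → z = y))` -/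
def isColoring (k : ℕ) : Fm :=
  all (ex (conj [lt (var 0) (numeral k), mem (pair (var 1) (var 0)) 0,
    all (imp (mem (pair (var 2) (var 0)) 0) (eq (var 0) (var 1)))]))

/-- `X_0` is infinite: `∀ x ∃ y (x < y ∧ y ∈ X_0)` -/
def isInfinite : Fm :=
  all (ex (and (lt (var 1) (var 0)) (mem (var 0) 0)))

/-- the sum `x_0 + ... + x_{j-1}` -/
def sum : ℕ → Tm
  | 0 => zero
  | j + 1 => add (sum j) (var j)

/-- `x_0, ..., x_{j-1} ∈ X_0` and `x_0 < x_1 < ... < x_{j-1}` -/
def increasing (j : ℕ) : Fm :=
  conj ((List.range j).map (fun a => mem (var a) 0) ++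
    (List.range (j - 1)).map (fun a => lt (var a) (var (a + 1))))

/-- All sums of exactly `j` distinct elements of `X_0` have colour `x_0` for the colouring `X_1`:
for all `x_0 < ... < x_{j-1}` in `X_0`, `(x_0 + ... + x_{j-1}, x_j) ∈ X_1`
(the colour is the number variable `0` outside of the `j` quantifiers, hence `j` inside). -/
def sumsHaveColor (j : ℕ) : Fm :=
  alls j (imp (increasing j) (mem (pair (sum j) (var j)) 1))

/-- `HT_k^{≤n}`: for every coloring `C : ℕ → {0, ..., k - 1}` there are an infinite set `X`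
and a colour `x_0` such that all sums of at most `n` distinct elements of `X` (and at least
one) have colour `x_0`; inside of `exS`, the set variable `0` is `X` and `1` is `C`. -/
def HT (n k : ℕ) : Fm :=
  allS (imp (isColoring k) (exS (and isInfinite
    (ex (conj ((List.range n).map (fun j => sumsHaveColor (j + 1))))))))

end hindman

end Pool.Agent.Lib.Hin
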