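import Pool.Agent.Lib.Hin.Raw

/-!
# Chunk EXT: the axioms of `ACA_0` give `Raw S`
-/

set_option linter.unusedSectionVars false

namespace Pool.Agent.Lib.Hin

universe u

namespace EXT

/-- interleave two sequences -/
def mix {α : Type*} (v w : ℕ → α) (i : ℕ) : α := if i % 2 = 0 then v (i / 2) else w (i / 2)

theorem mix_even {α : Type*} (v w : ℕ → α) (i : ℕ) : mix v w (2 * i) = v i := by
  unfold mix
  rw [if_pos (by omega), show 2 * i / 2 = i by omega]

theorem mix_odd {α : Type*} (v w : ℕ → α) (i : ℕ) : mix v w (2 * i + 1) = w i := by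
  unfold mix
  rw [if_neg (by omega), show (2 * i + 1) / 2 = i by omega]

def liftR (r : ℕ → ℕ) : ℕ → ℕ
  | 0 => 0
  | i + 1 => r i + 1

def rnT (r : ℕ → ℕ) : Tm → Tm
  | .var i => .var (r i)
  | .zero => .zero
  | .one => .one
  | .add s t => .add (rnT r s) (rnT r t)
  | .mul s t => .mul (rnT r s) (rnT r t)

def rn : (ℕ → ℕ) → (ℕ → ℕ) → Fm → Fm
  | r, _, .eq s t => .eq (rnT r s) (rnT r t)
  | r, _, .lt s t => .lt (rnT r s) (rnT r t)
  | r, q, .mem s i => .mem (rnT r s) (q i)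
  | r, q, .neg φ => .neg (rn r q φ)
  | r, q, .and φ ψ => .and (rn r q φ) (rn r q ψ)
  | r, q, .all φ => .all (rn (liftR r) q φ)
  | r, q, .allS φ => .allS (rn r q φ)

section
variable {M : Type u} [Zero M] [One M] [Add M] [Mul M] [LT M] {S : Set (Set M)}

theorem ev_rnT (r : ℕ → ℕ) (t : Tm) (v : ℕ → M) : (rnT r t).ev v = t.ev (fun i => v (r i)) := by
  induction t with
  | var i => rfl
  | zero => rfl
  | one => rfl
  | add s t ih1 ih2 => simp only [rnT, Tm.ev, ih1, ih2]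
  | mul s t ih1 ih2 => simp only [rnT, Tm.ev, ih1, ih2]

theorem sat_rn (φ : Fm) (hφ : φ.Arith) : ∀ (r q : ℕ → ℕ) (v : ℕ → M) (V : ℕ → Set M),
    (rn r q φ).sat S v V ↔ φ.sat S (fun i => v (r i)) (fun i => V (q i)) := by
  induction φ with
  | eq s t => intro r q v V; simp only [rn, Fm.sat, ev_rnT]
  | lt s t => intro r q v V; simp only [rn, Fm.sat, ev_rnT]
  | mem s i => intro r q v V; simp only [rn, Fm.sat, ev_rnT]
  | neg φ ih => intro r q v V; simp only [rn, Fm.sat, ih hφ]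
  | and φ ψ ih1 ih2 => intro r q v V; simp only [rn, Fm.sat, ih1 hφ.1, ih2 hφ.2]
  | all φ ih =>
    intro r q v V
    simp only [rn, Fm.sat]
    refine forall_congr' fun x => ?_
    rw [ih hφ]
    have : (fun i => push x v (liftR r i)) = push x (fun i => v (r i)) := by
      funext i; cases i <;> rfl
    rw [this]
  | allS φ ih => exact absurd hφ id

theorem arith_rn (φ : Fm) (hφ : φ.Arith) : ∀ (r q : ℕ → ℕ), (rn r q φ).Arith := by
  induction φ with
  | eq s t => intro r q; trivial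
  | lt s t => intro r q; trivial
  | mem s i => intro r q; trivial
  | neg φ ih => intro r q; exact ih hφ r q
  | and φ ψ ih1 ih2 => intro r q; exact ⟨ih1 hφ.1 r q, ih2 hφ.2 r q⟩
  | all φ ih => intro r q; exact ih hφ _ q
  | allS φ ih => exact absurd hφ id

/-- renaming when the parameters `w₁` are replaced by `mix w₁ w₂` -/
def r1 (n : ℕ) : ℕ := if n % 2 = 0 then n else 2 * (2 * (n / 2)) + 1
def r2 (n : ℕ) : ℕ := if n % 2 = 0 then n else 2 * (2 * (n / 2) + 1) + 1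

theorem mix_r1 {α : Type*} (v w₁ w₂ : ℕ → α) :
    (fun n => mix v (mix w₁ w₂) (r1 n)) = mix v w₁ := by
  funext n
  obtain ⟨i, rfl | rfl⟩ : ∃ i, n = 2 * i ∨ n = 2 * i + 1 := ⟨n / 2, by omega⟩
  · have : r1 (2 * i) = 2 * i := by unfold r1; rw [if_pos (by omega)]
    rw [this, mix_even, mix_even]
  · have : r1 (2 * i + 1) = 2 * (2 * i) + 1 := by
      unfold r1; rw [if_neg (by omega), show (2 * i + 1) / 2 = i by omega]
    rw [this, mix_odd, mix_even, mix_odd]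

theorem mix_r2 {α : Type*} (v w₁ w₂ : ℕ → α) :
    (fun n => mix v (mix w₁ w₂) (r2 n)) = mix v w₂ := by
  funext n
  obtain ⟨i, rfl | rfl⟩ : ∃ i, n = 2 * i ∨ n = 2 * i + 1 := ⟨n / 2, by omega⟩
  · have : r2 (2 * i) = 2 * i := by unfold r2; rw [if_pos (by omega)]
    rw [this, mix_even, mix_even]
  · have : r2 (2 * i + 1) = 2 * (2 * i + 1) + 1 := by
      unfold r2; rw [if_neg (by omega), show (2 * i + 1) / 2 = i by omega]
    rw [this, mix_odd, mix_odd, mix_odd]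

theorem mix_e {α : Type*} (w₁ w₂ : ℕ → α) : (fun n => mix w₁ w₂ (2 * n)) = w₁ := by
  funext n; exact mix_even _ _ _

theorem mix_o {α : Type*} (w₁ w₂ : ℕ → α) : (fun n => mix w₁ w₂ (2 * n + 1)) = w₂ := by
  funext n; exact mix_odd _ _ _

theorem term_extract {t : (ℕ → M) → M} (ht : ArT t) :
    ∃ (τ : Tm) (w : ℕ → M), ∀ v, t v = τ.ev (mix v w) := by
  induction ht with
  | var i => exact ⟨.var (2 * i), fun _ => 0, fun v => (mix_even _ _ _).symm⟩
  | const a => exact ⟨.var 1, fun _ => a, fun v => (mix_odd v (fun _ => a) 0).symm⟩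
  | add _ _ ih1 ih2 =>
    obtain ⟨τ1, w1, h1⟩ := ih1
    obtain ⟨τ2, w2, h2⟩ := ih2
    refine ⟨.add (rnT r1 τ1) (rnT r2 τ2), mix w1 w2, fun v => ?_⟩
    simp only [Tm.ev, ev_rnT, mix_r1, mix_r2, h1, h2]
  | mul _ _ ih1 ih2 =>
    obtain ⟨τ1, w1, h1⟩ := ih1
    obtain ⟨τ2, w2, h2⟩ := ih2
    refine ⟨.mul (rnT r1 τ1) (rnT r2 τ2), mix w1 w2, fun v => ?_⟩
    simp only [Tm.ev, ev_rnT, mix_r1, mix_r2, h1, h2]

/-- renaming under a quantifier: `push x (mix v w)` read as `mix (push x v) w` -/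
def r3 (n : ℕ) : ℕ := if n = 0 then 0 else if n % 2 = 0 then n - 1 else n + 1

theorem mix_r3 {α : Type*} (x : α) (v w : ℕ → α) :
    (fun n => push x (mix v w) (r3 n)) = mix (push x v) w := by
  funext n
  obtain ⟨i, rfl | rfl⟩ : ∃ i, n = 2 * i ∨ n = 2 * i + 1 := ⟨n / 2, by omega⟩
  · cases i with
    | zero => rfl
    | succ i =>
      have : r3 (2 * (i + 1)) = 2 * i + 1 := by
        unfold r3; rw [if_neg (by omega), if_pos (by omega)]; omega
      rw [this, mix_even]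
      show mix v w (2 * i) = v i
      exact mix_even _ _ _
  · have : r3 (2 * i + 1) = (2 * i + 1) + 1 := by
      unfold r3; rw [if_neg (by omega), if_neg (by omega)]
    rw [this, mix_odd]
    show mix v w (2 * i + 1) = w i
    exact mix_odd _ _ _

theorem extract (hne : S.Nonempty) {P : (ℕ → M) → Prop} (hP : Ar S P) :
    ∃ φ : Fm, φ.Arith ∧ ∃ (w : ℕ → M) (V : ℕ → Set M), (∀ i, V i ∈ S) ∧
      ∀ v, P v ↔ φ.sat S (mix v w) V := by
  obtain ⟨A₀, hA₀⟩ := hne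
  induction hP with
  | eq hs ht =>
    obtain ⟨τ1, w1, h1⟩ := term_extract hs
    obtain ⟨τ2, w2, h2⟩ := term_extract ht
    refine ⟨.eq (rnT r1 τ1) (rnT r2 τ2), trivial, mix w1 w2, fun _ => A₀, fun _ => hA₀,
      fun v => ?_⟩
    simp only [Fm.sat, ev_rnT, mix_r1, mix_r2, h1, h2]
  | lt hs ht =>
    obtain ⟨τ1, w1, h1⟩ := term_extract hs
    obtain ⟨τ2, w2, h2⟩ := term_extract ht
    refine ⟨.lt (rnT r1 τ1) (rnT r2 τ2), trivial, mix w1 w2, fun _ => A₀, fun _ => hA₀,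
      fun v => ?_⟩
    simp only [Fm.sat, ev_rnT, mix_r1, mix_r2, h1, h2]
  | @mem A hA t ht =>
    obtain ⟨τ1, w1, h1⟩ := term_extract ht
    refine ⟨.mem τ1 0, trivial, w1, fun _ => A, fun _ => hA, fun v => ?_⟩
    simp only [Fm.sat, h1]
  | not _ ih =>
    obtain ⟨φ, hφ, w, V, hV, h⟩ := ih
    exact ⟨.neg φ, hφ, w, V, hV, fun v => not_congr (h v)⟩
  | and _ _ ih1 ih2 =>
    obtain ⟨φ1, hφ1, w1, V1, hV1, h1⟩ := ih1
    obtain ⟨φ2, hφ2, w2, V2, hV2, h2⟩ := ih2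
    refine ⟨.and (rn r1 (fun n => 2 * n) φ1) (rn r2 (fun n => 2 * n + 1) φ2),
      ⟨arith_rn _ hφ1 _ _, arith_rn _ hφ2 _ _⟩, mix w1 w2, mix V1 V2, ?_, fun v => ?_⟩
    · intro i
      unfold mix
      split_ifs
      · exact hV1 _
      · exact hV2 _
    · simp only [Fm.sat, sat_rn _ hφ1, sat_rn _ hφ2, mix_r1, mix_r2, mix_e, mix_o, h1, h2]
  | @all P _ ih =>
    obtain ⟨φ, hφ, w, V, hV, h⟩ := ih
    refine ⟨.all (rn r3 id φ), arith_rn _ hφ _ _, w, V, hV, fun v => ?_⟩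
    simp only [Fm.sat, sat_rn _ hφ, mix_r3]
    exact forall_congr' fun x => h (push x v)

theorem sat_shiftS (φ : Fm) (hφ : φ.Arith) : ∀ (v : ℕ → M) (X : Set M) (V : ℕ → Set M),
    (φ.shiftS 0).sat S v (push X V) ↔ φ.sat S v V := by
  induction φ with
  | eq s t => intro v X V; simp only [Fm.shiftS, Fm.sat]
  | lt s t => intro v X V; simp only [Fm.shiftS, Fm.sat]
  | mem s i => intro v X V; simp only [Fm.shiftS, Fm.sat, Nat.not_lt_zero, if_false, push]
  | neg φ ih => intro v X V; simp only [Fm.shiftS, Fm.sat, ih hφ]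
  | and φ ψ ih1 ih2 => intro v X V; simp only [Fm.shiftS, Fm.sat, ih1 hφ.1, ih2 hφ.2]
  | all φ ih => intro v X V; simp only [Fm.shiftS, Fm.sat, ih hφ]
  | allS φ ih => exact absurd hφ id

theorem comp (hne : S.Nonempty) (h : ∀ ψ ∈ ACA0, Models S ψ) (Q : M → Prop)
    (hQ : Ar S (fun v => Q (v 0))) : {x | Q x} ∈ S := by
  obtain ⟨φ, hφ, w, V, hV, hφQ⟩ := extract hne hQ
  have h1 := h (comprehension (rn r3 id φ))
    (Or.inr (Or.inr ⟨_, arith_rn _ hφ _ _, rfl⟩)) (mix w w) V hV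
  simp only [comprehension, Fm.exS, Fm.iff, Fm.imp, Fm.sat, Tm.ev] at h1
  push Not at h1
  obtain ⟨X, hX, hXX⟩ := h1
  have : {x | Q x} = X := by
    ext x
    have h2 := hXX x
    rw [sat_shiftS _ (arith_rn _ hφ _ _), sat_rn _ hφ, mix_r3] at h2
    have h3 := hφQ (push x w)
    simp only [push] at h3 h2
    show Q x ↔ x ∈ X
    rw [h3]
    simp only [id] at h2
    tauto
  rw [this]
  exact hX

end

end EXT

theorem raw_of_models {M : Type u} [Zero M] [One M] [Add M] [Mul M] [LT M] {S : Set (Set M)}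
    (hne : S.Nonempty) (h : ∀ ψ ∈ ACA0, Models S ψ) : Raw S := by
  obtain ⟨A₀, hA₀⟩ := hne
  have hb : ∀ ψ ∈ basicAxioms, ∀ v : ℕ → M, ψ.sat S v (fun _ => A₀) :=
    fun ψ hψ v => h ψ (Or.inl hψ) v _ (fun _ => hA₀)
  refine ⟨?_, ?_, ?_, ?_, ?_, ?_, ?_, ?_, EXT.comp ⟨A₀, hA₀⟩ h, ?_⟩
  · intro n
    have := hb (Fm.neg (Fm.eq (Tm.add (Tm.var 0) Tm.one) Tm.zero)) (by simp [basicAxioms])
      (fun _ => n)
    simpa [Fm.sat, Tm.ev] using this
  · intro m n
    have := hb (Fm.imp (Fm.eq (Tm.add (Tm.var 0) Tm.one) (Tm.add (Tm.var 1) Tm.one))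
      (Fm.eq (Tm.var 0) (Tm.var 1))) (by simp [basicAxioms]) (push m (push n (fun _ => 0)))
    simpa [Fm.sat, Fm.imp, Tm.ev, push] using this
  · intro m
    have := hb (Fm.eq (Tm.add (Tm.var 0) Tm.zero) (Tm.var 0)) (by simp [basicAxioms])
      (fun _ => m)
    simpa [Fm.sat, Tm.ev] using this
  · intro m n
    have := hb (Fm.eq (Tm.add (Tm.var 0) (Tm.add (Tm.var 1) Tm.one))
      (Tm.add (Tm.add (Tm.var 0) (Tm.var 1)) Tm.one)) (by simp [basicAxioms])
      (push m (push n (fun _ => 0)))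
    simpa [Fm.sat, Tm.ev, push] using this
  · intro m
    have := hb (Fm.eq (Tm.mul (Tm.var 0) Tm.zero) Tm.zero) (by simp [basicAxioms])
      (fun _ => m)
    simpa [Fm.sat, Tm.ev] using this
  · intro m n
    have := hb (Fm.eq (Tm.mul (Tm.var 0) (Tm.add (Tm.var 1) Tm.one))
      (Tm.add (Tm.mul (Tm.var 0) (Tm.var 1)) (Tm.var 0))) (by simp [basicAxioms])
      (push m (push n (fun _ => 0)))
    simpa [Fm.sat, Tm.ev, push] using this
  · intro m
    have := hb (Fm.neg (Fm.lt (Tm.var 0) Tm.zero)) (by simp [basicAxioms])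
      (fun _ => m)
    simpa [Fm.sat, Tm.ev] using this
  · intro m n
    have := hb (Fm.iff (Fm.lt (Tm.var 0) (Tm.add (Tm.var 1) Tm.one))
      (Fm.or (Fm.lt (Tm.var 0) (Tm.var 1)) (Fm.eq (Tm.var 0) (Tm.var 1))))
      (by simp [basicAxioms]) (push m (push n (fun _ => 0)))
    simp only [Fm.sat, Fm.iff, Fm.imp, Fm.or, Tm.ev, push] at this
    tauto
  · intro A hA h0 h1
    have := h inductionAxiom (Or.inr (Or.inl rfl)) (fun _ => 0) (fun _ => A) (fun _ => hA)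
    simp only [inductionAxiom, Fm.sat, Fm.imp, Tm.ev, push] at this
    by_contra hc
    refine this ⟨⟨h0, fun x hx => hx.2 (h1 x hx.1)⟩, hc⟩

end Pool.Agent.Lib.Hin
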