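import Pool.Agent.Lib.Hin.Lang
import Pool.Agent.Lib.Hin.Rec

/-!
# Chunk FORB: the forbidden words (uses `rec_exists`)

Proof.  Apply `rec_exists` to
`Φ n P := ∃ x l, n = pr x l ∧ ∀ K N₀, ∃ y, N₀ ≤ y ∧ Adm C P y K n ∧ ¬ Occ C y K x l`
(local: `Adm C P y K n` only uses `P` below `n`; arithmetical: unfold `Adm`, `Occ`, then `ar`),
get `F ∈ S`.
(F1) by induction on `n` (for all `K N₀`; `F` fixed, arithmetical): `n = 0` trivial; step: if
`n ∉ F` then `Adm C F y K (n + 1) ↔ Adm C F y K n`; if `n ∈ F` use the equation for `F` (with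
`pr_inj`).
(F2) is the negation of the equation for `F` at `n = pr x l ∉ F` (`pr_inj`).
-/

set_option linter.unusedSectionVars false

namespace Pool.Agent.Lib.Hin

universe u
variable {N : Type u} [CommSemiring N] [LinearOrder N] [IsStrictOrderedRing N]
  [CanonicallyOrderedAdd N] [Disc N] {S : Set (Set N)} {C : Set N}

theorem forb_exists (h : PM S) (hC : C ∈ S) :
    ∃ F ∈ S, (∀ n K N₀, ∃ y, N₀ ≤ y ∧ Adm C (fun i => i ∈ F) y K n) ∧
      (∀ x l, pr x l ∉ F → ∃ K N₀, ∀ y, N₀ ≤ y → Adm C (fun i => i ∈ F) y K (pr x l) →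
        Occ C y K x l) := by
  have har : Ar S (fun v => ∃ x l, v 0 = pr x l ∧ ∀ K N₀, ∃ y, N₀ ≤ y ∧
      Adm C (fun i => bit (v 1) (v 2) i) y K (v 0) ∧ ¬ Occ C y K x l) := by
    unfold Adm Occ
    (repeat' (first
        | assumption | exact ArT.const _ | exact ArT.var _ | apply ArT.add | apply ArT.mul
        | apply ArT.pr | exact Ar.prop _ | apply Ar.and | apply Ar.or | apply Ar.not | apply Ar.iff
        | apply Ar.ex | apply Ar.imp | apply Ar.all | apply Ar.eq | apply Ar.ne | apply Ar.lt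
        | apply Ar.le | apply Ar.bit | apply Ar.E | (apply Ar.mem; assumption)
        | (refine Ar.app1 ?_ ?_; assumption) | (refine Ar.app2 ?_ ?_ ?_; assumption)
        | (refine Ar.app3 ?_ ?_ ?_ ?_; assumption)))
  have hloc : ∀ n (P Q : N → Prop), (∀ i, i < n → (P i ↔ Q i)) →
      (∃ x l, n = pr x l ∧ ∀ K N₀, ∃ y, N₀ ≤ y ∧ Adm C P y K n ∧ ¬ Occ C y K x l) →
      (∃ x l, n = pr x l ∧ ∀ K N₀, ∃ y, N₀ ≤ y ∧ Adm C Q y K n ∧ ¬ Occ C y K x l) := by
    rintro n P Q hPQ ⟨x, l, hn, hK⟩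
    refine ⟨x, l, hn, fun K N₀ => ?_⟩
    obtain ⟨y, hy, hA, hO⟩ := hK K N₀
    exact ⟨y, hy, fun x' l' hlt hQ => hA x' l' hlt ((hPQ _ hlt).2 hQ), hO⟩
  obtain ⟨F, hF, hrec⟩ := rec_exists h
    (fun n P => ∃ x l, n = pr x l ∧ ∀ K N₀, ∃ y, N₀ ≤ y ∧ Adm C P y K n ∧ ¬ Occ C y K x l)
    har hloc
  refine ⟨F, hF, ?_, ?_⟩
  · refine h.induct (fun n => ∀ K N₀, ∃ y, N₀ ≤ y ∧ Adm C (fun i => i ∈ F) y K n) ?_ ?_ ?_
    · unfold Adm Occ
      (repeat' (first
          | assumption | exact ArT.const _ | exact ArT.var _ | apply ArT.add | apply ArT.mul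
          | apply ArT.pr | exact Ar.prop _ | apply Ar.and | apply Ar.or | apply Ar.not | apply Ar.iff
          | apply Ar.ex | apply Ar.imp | apply Ar.all | apply Ar.eq | apply Ar.ne | apply Ar.lt
          | apply Ar.le | apply Ar.bit | apply Ar.E | (apply Ar.mem; assumption)
          | (refine Ar.app1 ?_ ?_; assumption) | (refine Ar.app2 ?_ ?_ ?_; assumption)
          | (refine Ar.app3 ?_ ?_ ?_ ?_; assumption)))
    · intro K N₀
      exact ⟨N₀, le_rfl, fun x l hlt => absurd hlt (by grind)⟩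
    · intro n ih K N₀
      by_cases hn : n ∈ F
      · obtain ⟨x, l, hxl, hK⟩ := (hrec n).1 hn
        obtain ⟨y, hy, hA, hO⟩ := hK K N₀
        refine ⟨y, hy, fun x' l' hlt hF' => ?_⟩
        rcases lt_or_eq_of_le (show pr x' l' ≤ n by grind) with h1 | h1
        · exact hA x' l' h1 hF'
        · obtain ⟨rfl, rfl⟩ := pr_inj (h1.trans hxl)
          exact hO
      · obtain ⟨y, hy, hA⟩ := ih K N₀
        refine ⟨y, hy, fun x' l' hlt hF' => ?_⟩
        rcases lt_or_eq_of_le (show pr x' l' ≤ n by grind) with h1 | h1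
        · exact hA x' l' h1 hF'
        · exact absurd (h1 ▸ hF') hn
  · intro x l hxl
    have h1 := fun h2 => hxl ((hrec (pr x l)).2 h2)
    by_contra hc
    apply h1
    refine ⟨x, l, rfl, fun K N₀ => ?_⟩
    by_contra hc2
    apply hc
    refine ⟨K, N₀, fun y hy hA => ?_⟩
    by_contra hc3
    exact hc2 ⟨y, hy, hA, hc3⟩

end Pool.Agent.Lib.Hin
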