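import Pool.Agent.Lib.Hin.Core

/-!
# Chunk HTS: the sentence `HT n k` semantically, and `HT 2 2` from `hindman_core`
-/

set_option linter.unusedSectionVars false

namespace Pool.Agent.Lib.Hin

universe u

section raw
variable {M : Type u} [Zero M] [One M] [Add M] [Mul M] [LT M] {S : Set (Set M)}

theorem sat_imp (φ ψ : Fm) (v : ℕ → M) (V : ℕ → Set M) :
    (Fm.imp φ ψ).sat S v V ↔ (φ.sat S v V → ψ.sat S v V) := by
  simp only [Fm.imp, Fm.sat]; tauto

theorem sat_or (φ ψ : Fm) (v : ℕ → M) (V : ℕ → Set M) :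
    (Fm.or φ ψ).sat S v V ↔ (φ.sat S v V ∨ ψ.sat S v V) := by
  simp only [Fm.or, Fm.sat]; tauto

theorem sat_iff (φ ψ : Fm) (v : ℕ → M) (V : ℕ → Set M) :
    (Fm.iff φ ψ).sat S v V ↔ (φ.sat S v V ↔ ψ.sat S v V) := by
  simp only [Fm.iff, Fm.imp, Fm.sat]; tauto

theorem sat_ex (φ : Fm) (v : ℕ → M) (V : ℕ → Set M) :
    (Fm.ex φ).sat S v V ↔ ∃ x, φ.sat S (push x v) V := by
  simp only [Fm.ex, Fm.sat, not_forall, not_not]

theorem sat_exS (φ : Fm) (v : ℕ → M) (V : ℕ → Set M) :
    (Fm.exS φ).sat S v V ↔ ∃ X ∈ S, φ.sat S v (push X V) := by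
  simp only [Fm.exS, Fm.sat]
  push Not
  rfl

theorem sat_conj (l : List Fm) (v : ℕ → M) (V : ℕ → Set M) :
    (Fm.conj l).sat S v V ↔ ∀ φ ∈ l, φ.sat S v V := by
  induction l with
  | nil => simp [Fm.conj, Fm.sat]
  | cons φ l ih => simp only [Fm.conj, Fm.sat, ih, List.forall_mem_cons]

end raw

variable {N : Type u} [CommSemiring N] [LinearOrder N] [IsStrictOrderedRing N]
  [CanonicallyOrderedAdd N] [Disc N] {S : Set (Set N)}

theorem sat_HT22 (h : PM S) : Models S (HT 2 2) := by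
  intro v V hV
  show ∀ X ∈ S, _
  intro D hD
  rw [sat_imp]
  intro hcol
  have hcol' : ∀ x : N, ∃ y, y < 0 + 1 + 1 ∧ pr x y ∈ D ∧ ∀ z, pr x z ∈ D → z = y := by
    intro x
    have h1 := hcol x
    rw [sat_ex] at h1
    obtain ⟨y, hy⟩ := h1
    rw [sat_conj] at hy
    refine ⟨y, ?_, ?_, ?_⟩
    · simpa [Fm.sat, Tm.ev, push, numeral] using hy _ (List.mem_cons_self)
    · have := hy (Fm.mem (pair (Tm.var 1) (Tm.var 0)) 0) (by simp)
      simpa [Fm.sat, Tm.ev, push, pair, pr] using this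
    · intro z hz
      have := hy _ (List.mem_cons_of_mem _ (List.mem_cons_of_mem _ List.mem_cons_self)) z
      rw [sat_imp] at this
      exact this hz
  have hC : {x | pr x 1 ∈ D} ∈ S := h.comp (fun x => pr x 1 ∈ D) (by (repeat' (first
      | assumption | exact ArT.const _ | exact ArT.var _ | apply ArT.add | apply ArT.mul
      | apply ArT.pr | exact Ar.prop _ | apply Ar.and | apply Ar.or | apply Ar.not | apply Ar.iff
      | apply Ar.ex | apply Ar.imp | apply Ar.all | apply Ar.eq | apply Ar.ne | apply Ar.lt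
      | apply Ar.le | apply Ar.bit | apply Ar.E | (apply Ar.mem; assumption)
      | (refine Ar.app1 ?_ ?_; assumption) | (refine Ar.app2 ?_ ?_ ?_; assumption)
      | (refine Ar.app3 ?_ ?_ ?_ ?_; assumption))))
  obtain ⟨X, hX, i, hub, h1, h2⟩ := hindman_core h hC
  have hcolor : ∃ a : N, ∀ x, (x ∈ {x | pr x 1 ∈ D} ↔ i) → pr x a ∈ D := by
    by_cases hi : i
    · exact ⟨1, fun x hx => hx.2 hi⟩
    · refine ⟨0, fun x hx => ?_⟩
      obtain ⟨y, hy, hy', _⟩ := hcol' x
      have hx' : pr x 1 ∉ D := fun hh => hi (hx.1 hh)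
      have h3 : y ≠ 1 := by rintro rfl; exact hx' hy'
      have h4 : y = 0 := by
        have h5 : y < 1 := lt_of_le_of_ne (by grind) h3
        grind
      rwa [h4] at hy'
  obtain ⟨a, ha⟩ := hcolor
  rw [sat_exS]
  refine ⟨X, hX, ?_, ?_⟩
  · intro x
    rw [sat_ex]
    obtain ⟨y, hy, hxy⟩ := hub x
    exact ⟨y, hxy, hy⟩
  · rw [sat_ex]
    refine ⟨a, ?_⟩
    rw [sat_conj]
    intro φ hφ
    have hφ' : φ = sumsHaveColor 1 ∨ φ = sumsHaveColor 2 := by
      simpa [List.range_succ] using hφ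
    rcases hφ' with rfl | rfl
    · intro x
      simp only [Fm.alls]
      rw [sat_imp]
      intro hx
      have hx1 : x ∈ X := by
        have := (sat_conj _ _ _).1 hx (Fm.mem (Tm.var 0) 0) (by simp [List.range_succ])
        exact this
      have := ha x (h1 x hx1)
      simpa [Fm.sat, Tm.ev, push, pair, sum, pr] using this
    · intro x1 x0
      simp only [Fm.alls]
      rw [sat_imp]
      intro hx
      have hx0 : x0 ∈ X := by
        have := (sat_conj _ _ _).1 hx (Fm.mem (Tm.var 0) 0) (by simp [List.range_succ])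
        exact this
      have hx1 : x1 ∈ X := by
        have := (sat_conj _ _ _).1 hx (Fm.mem (Tm.var 1) 0) (by simp [List.range_succ])
        exact this
      have hlt : x0 < x1 := by
        have := (sat_conj _ _ _).1 hx (Fm.lt (Tm.var 0) (Tm.var 1)) (by simp [List.range_succ])
        exact this
      have := ha (x0 + x1) (h2 x0 hx0 x1 hx1 hlt)
      simpa [Fm.sat, Tm.ev, push, pair, sum, pr] using this

end Pool.Agent.Lib.Hin
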