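import Pool.Agent.Lib.Hin.Base

/-!
# The language of a minimal subshift: definitions

Words are represented by pairs `(x, l)`: the word `C[x, x + l)`.
-/

set_option linter.unusedSectionVars false

namespace Pool.Agent.Lib.Hin

universe u
variable {N : Type u} [CommSemiring N] [LinearOrder N] [IsStrictOrderedRing N]
  [CanonicallyOrderedAdd N] [Disc N]

/-- the word `(x, l)` occurs in the interval `[y, y + K)` -/
def Occ (C : Set N) (y K x l : N) : Prop := ∃ z, y ≤ z ∧ z + l ≤ y + K ∧ E C z C x l

/-- the interval `[y, y + K)` contains no word with code in `F` below `n` -/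
def Adm (C : Set N) (F : N → Prop) (y K n : N) : Prop :=
  ∀ x l, pr x l < n → F (pr x l) → ¬ Occ C y K x l

/-- `L x l`: the word `(x, l)` belongs to the language of a (fixed) minimal subshift of the
omega-limit set of `C`. -/
structure Lang (S : Set (Set N)) (C : Set N) (L : N → N → Prop) : Prop where
  ar : Ar S (fun v => L (v 0) (v 1))
  /-- the empty word -/
  empty : L 0 0
  /-- every word of the language occurs in `C` at arbitrarily large positions -/
  far : ∀ x l, L x l → ∀ N₀, ∃ y, N₀ ≤ y ∧ E C y C x l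
  congr : ∀ x y l, E C x C y l → L x l → L y l
  /-- factors -/
  factor : ∀ x l o l', L x l → o + l' ≤ l → L (x + o) l'
  /-- extensions to the right -/
  ext : ∀ x l l', L x l → l ≤ l' → ∃ y, E C y C x l ∧ L y l'
  /-- bounded gaps -/
  gap : ∀ x l, L x l → ∃ d, ∀ y, L y d → ∃ o, o + l ≤ d ∧ E C (y + o) C x l

/-- `(x, l)` is `w`-blocked, with bound `N₀` -/
def Blk (C : Set N) (L : N → N → Prop) (x l w N₀ : N) : Prop :=
  ∀ y, N₀ ≤ y → E C y C x l → ∀ z, E C z C x l → L z (y + w + w + 1) →
    ¬ (z + (y + w + w) ∈ C ↔ x + w ∈ C)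

/-- the target property of `f` and `w` -/
def Pw (C f : Set N) (w : N) : Prop :=
  ∀ m N₀, ∃ y, N₀ ≤ y ∧ E C y f 0 m ∧ (y + w + w ∈ f ↔ w ∈ f)

end Pool.Agent.Lib.Hin
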