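import Pool.Agent.Lib.Hin.Base

/-!
# Chunk REP: all words of length `l` occur below some bound
-/

set_option linter.unusedSectionVars false

namespace Pool.Agent.Lib.Hin

universe u
variable {N : Type u} [CommSemiring N] [LinearOrder N] [IsStrictOrderedRing N]
  [CanonicallyOrderedAdd N] [Disc N] {S : Set (Set N)} {C : Set N}

theorem repr_exists (h : PM S) (hC : C ∈ S) (l : N) :
    ∃ B, ∀ x, ∃ x', x' ≤ B ∧ E C x' C x l := by
  refine h.induct (fun l => ∃ B, ∀ x, ∃ x', x' ≤ B ∧ E C x' C x l) (by (repeat' (first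
      | assumption | exact ArT.const _ | exact ArT.var _ | apply ArT.add | apply ArT.mul
      | apply ArT.pr | exact Ar.prop _ | apply Ar.and | apply Ar.or | apply Ar.not | apply Ar.iff
      | apply Ar.ex | apply Ar.imp | apply Ar.all | apply Ar.eq | apply Ar.ne | apply Ar.lt
      | apply Ar.le | apply Ar.bit | apply Ar.E | (apply Ar.mem; assumption)
      | (refine Ar.app1 ?_ ?_; assumption) | (refine Ar.app2 ?_ ?_ ?_; assumption)
      | (refine Ar.app3 ?_ ?_ ?_ ?_; assumption)))) ?_ ?_ l
  · exact ⟨0, fun x => ⟨0, le_rfl, fun i hi => absurd hi (by grind)⟩⟩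
  · rintro l ⟨B, hB⟩
    obtain ⟨B₁, hB₁⟩ := h.coll (fun x' y => (∃ x, E C x C x' l ∧ x + l ∈ C) →
      (E C y C x' l ∧ y + l ∈ C)) (by (repeat' (first
          | assumption | exact ArT.const _ | exact ArT.var _ | apply ArT.add | apply ArT.mul
          | apply ArT.pr | exact Ar.prop _ | apply Ar.and | apply Ar.or | apply Ar.not | apply Ar.iff
          | apply Ar.ex | apply Ar.imp | apply Ar.all | apply Ar.eq | apply Ar.ne | apply Ar.lt
          | apply Ar.le | apply Ar.bit | apply Ar.E | (apply Ar.mem; assumption)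
          | (refine Ar.app1 ?_ ?_; assumption) | (refine Ar.app2 ?_ ?_ ?_; assumption)
          | (refine Ar.app3 ?_ ?_ ?_ ?_; assumption)))) (B + 1) (by
        intro x' _
        by_cases hx : ∃ x, E C x C x' l ∧ x + l ∈ C
        · obtain ⟨x, hx⟩ := hx
          exact ⟨x, fun _ => hx⟩
        · exact ⟨0, fun hh => absurd hh hx⟩)
    obtain ⟨B₂, hB₂⟩ := h.coll (fun x' y => (∃ x, E C x C x' l ∧ x + l ∉ C) →
      (E C y C x' l ∧ y + l ∉ C)) (by (repeat' (first
          | assumption | exact ArT.const _ | exact ArT.var _ | apply ArT.add | apply ArT.mul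
          | apply ArT.pr | exact Ar.prop _ | apply Ar.and | apply Ar.or | apply Ar.not | apply Ar.iff
          | apply Ar.ex | apply Ar.imp | apply Ar.all | apply Ar.eq | apply Ar.ne | apply Ar.lt
          | apply Ar.le | apply Ar.bit | apply Ar.E | (apply Ar.mem; assumption)
          | (refine Ar.app1 ?_ ?_; assumption) | (refine Ar.app2 ?_ ?_ ?_; assumption)
          | (refine Ar.app3 ?_ ?_ ?_ ?_; assumption)))) (B + 1) (by
        intro x' _
        by_cases hx : ∃ x, E C x C x' l ∧ x + l ∉ C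
        · obtain ⟨x, hx⟩ := hx
          exact ⟨x, fun _ => hx⟩
        · exact ⟨0, fun hh => absurd hh hx⟩)
    refine ⟨B₁ + B₂, fun x => ?_⟩
    obtain ⟨x', hx', hE⟩ := hB x
    have key : ∀ y, E C y C x' l → (y + l ∈ C ↔ x + l ∈ C) → E C y C x (l + 1) := by
      intro y hy hyl i hi
      rcases lt_or_eq_of_le (show i ≤ l by grind) with h1 | h1
      · exact (hy i h1).trans (hE i h1)
      · subst h1; exact hyl
    by_cases hxl : x + l ∈ C
    · obtain ⟨y, hy, hy'⟩ := hB₁ x' (by grind)
      have := hy' ⟨x, hE.symm, hxl⟩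
      exact ⟨y, by grind, key y this.1 (by tauto)⟩
    · obtain ⟨y, hy, hy'⟩ := hB₂ x' (by grind)
      have := hy' ⟨x, hE.symm, hxl⟩
      exact ⟨y, by grind, key y this.1 (by tauto)⟩

end Pool.Agent.Lib.Hin
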