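import Pool.Agent.Lib.Hin.Forb
import Pool.Agent.Lib.Hin.Repr

/-!
# Chunk LANG: existence of the language (uses `forb_exists`, `repr_exists`)

Proof.  `L x l := pr x l ∉ F`.  `Adm C F y K m → n ≤ m → Adm C F y K n`, and `Adm C F y K n`
passes to subintervals.
* `congr`: let `E C x C y l`, `pr x l ∉ F`, suppose `pr y l ∈ F`.  Take `K, N₀` from (F2) for
  `(x, l)`, `m = pr x l + pr y l + 1` and `y' ≥ N₀` with `Adm y' K m` by (F1).  Then
  `Occ y' K x l`, hence `Occ y' K y l`, contradicting `Adm y' K m`.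
* `factor`: the same with `(x + o, l')` in place of `(y, l)`: an occurrence of `(x, l)` contains
  an occurrence of `(x + o, l')`.
* `empty`: if `pr 0 0 ∈ F`, then (F1) with `n = pr 0 0 + 1` gives an interval not containing the
  empty word, impossible.
* `far`: (F1) with `n = pr x l` and `K`, `max N₀ N₁` from (F2).
* `ext`: let `(x, l)`, `K, N₀` as in (F2).  Let `B` be the bound of `repr_exists` for `l'`, and
  `m = pr B l' + pr x l + 1`.  By (F1) there is `y ≥ N₀` with `Adm y (K + l') m`, hence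
  `Adm y K (pr x l)`, hence `(x, l)` occurs at some `z`, `y ≤ z`, `z + l ≤ y + K`.  Then
  `L z l'`: take `x' ≤ B` with `E C x' C z l'`; `pr x' l' ≤ pr B l' < m` (`pr_mono`) and
  `(x', l')` occurs in `[y, y + K + l')` (at `z`), hence `pr x' l' ∉ F`, now `congr`.
* `gap`: let `(x, l)`, `K, N₀` as in (F2), `d = K`.  Let `L y K`.  By `far` there is `y' ≥ N₀` with
  `E C y' C y K`, `L y' K` by `congr`.  `Adm y' K (pr x l)`: a word `(x', l')` with
  `pr x' l' ∈ F` occurring in `[y', y' + K)` would be a factor of `(y', K)`, contradiction to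
  `factor` and `congr`.  So `(x, l)` occurs in `[y', y' + K)`, at `y' + o`.
-/

set_option linter.unusedSectionVars false

namespace Pool.Agent.Lib.Hin

universe u
variable {N : Type u} [CommSemiring N] [LinearOrder N] [IsStrictOrderedRing N]
  [CanonicallyOrderedAdd N] [Disc N] {S : Set (Set N)} {C : Set N}

theorem lang_occ_congr {y K x x' l : N} (hE : E C x C x' l) (ho : Occ C y K x l) :
    Occ C y K x' l := by
  obtain ⟨z, h1, h2, h3⟩ := ho
  exact ⟨z, h1, h2, h3.trans hE⟩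

theorem lang_occ_factor {y K x l o l' : N} (hl : o + l' ≤ l) (ho : Occ C y K x l) :
    Occ C y K (x + o) l' := by
  obtain ⟨z, h1, h2, h3⟩ := ho
  exact ⟨z + o, by grind, by grind, h3.shift hl⟩

theorem lang_exists (h : PM S) (hC : C ∈ S) : ∃ L : N → N → Prop, Lang S C L := by
  obtain ⟨F, hF, F1, F2⟩ := forb_exists h hC
  have hcongr : ∀ x y l, E C x C y l → pr x l ∉ F → pr y l ∉ F := by
    intro x y l hE hx hy
    obtain ⟨K, N₀, h2⟩ := F2 x l hx
    obtain ⟨y', hy', hadm⟩ := F1 (pr x l + pr y l + 1) K N₀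
    have hadm1 : Adm C (fun i => i ∈ F) y' K (pr x l) := fun a b hab => hadm a b (by grind)
    have ho := h2 y' hy' hadm1
    exact hadm y l (by grind) hy (lang_occ_congr hE ho)
  have hfactor : ∀ x l o l', pr x l ∉ F → o + l' ≤ l → pr (x + o) l' ∉ F := by
    intro x l o l' hx hl hy
    obtain ⟨K, N₀, h2⟩ := F2 x l hx
    obtain ⟨y', hy', hadm⟩ := F1 (pr x l + pr (x + o) l' + 1) K N₀
    have hadm1 : Adm C (fun i => i ∈ F) y' K (pr x l) := fun a b hab => hadm a b (by grind)
    have ho := h2 y' hy' hadm1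
    exact hadm (x + o) l' (by grind) hy (lang_occ_factor hl ho)
  have hfar : ∀ x l, pr x l ∉ F → ∀ N₀, ∃ y, N₀ ≤ y ∧ E C y C x l := by
    intro x l hx N₁
    obtain ⟨K, N₀, h2⟩ := F2 x l hx
    obtain ⟨y', hy', hadm⟩ := F1 (pr x l) K (N₀ + N₁)
    obtain ⟨z, h3, h4, h5⟩ := h2 y' (by grind) hadm
    exact ⟨z, by grind, h5⟩
  refine ⟨fun x l => pr x l ∉ F, ?_, ?_, hfar, hcongr, hfactor, ?_, ?_⟩
  · (repeat' (first
      | assumption | exact ArT.const _ | exact ArT.var _ | apply ArT.add | apply ArT.mul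
      | apply ArT.pr | exact Ar.prop _ | apply Ar.and | apply Ar.or | apply Ar.not | apply Ar.iff
      | apply Ar.ex | apply Ar.imp | apply Ar.all | apply Ar.eq | apply Ar.ne | apply Ar.lt
      | apply Ar.le | apply Ar.bit | apply Ar.E | (apply Ar.mem; assumption)
      | (refine Ar.app1 ?_ ?_; assumption) | (refine Ar.app2 ?_ ?_ ?_; assumption)
      | (refine Ar.app3 ?_ ?_ ?_ ?_; assumption)))
  · intro h0
    obtain ⟨y, hy, hadm⟩ := F1 (pr 0 0 + 1) 0 0
    refine hadm 0 0 (by grind) h0 ⟨y, le_rfl, le_rfl, fun i hi => absurd hi (by grind)⟩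
  · intro x l l' hx hl
    obtain ⟨K, N₀, h2⟩ := F2 x l hx
    obtain ⟨B, hB⟩ := repr_exists h hC l'
    obtain ⟨y, hy, hadm⟩ := F1 (pr B l' + pr x l + 1) (K + l') N₀
    have hadm1 : Adm C (fun i => i ∈ F) y K (pr x l) := by
      intro a b hab hFab ho
      obtain ⟨z, h3, h4, h5⟩ := ho
      exact hadm a b (by grind) hFab ⟨z, h3, by grind, h5⟩
    obtain ⟨z, h3, h4, h5⟩ := h2 y hy hadm1
    obtain ⟨x', hx', hE'⟩ := hB z
    refine ⟨z, h5, hcongr x' z l' hE' fun hbad => ?_⟩
    have hm := pr_mono hx' (le_refl l')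
    exact hadm x' l' (by grind) hbad ⟨z, h3, by grind, hE'.symm⟩
  · intro x l hx
    obtain ⟨K, N₀, h2⟩ := F2 x l hx
    refine ⟨K, fun y hy => ?_⟩
    obtain ⟨y', hy', hE⟩ := hfar y K hy N₀
    have hLy' := hcongr y y' K hE.symm hy
    have hadm1 : Adm C (fun i => i ∈ F) y' K (pr x l) := by
      intro a b hab hFab ho
      obtain ⟨z, h3, h4, h5⟩ := ho
      obtain ⟨o, rfl⟩ := exists_add_of_le h3
      exact hcongr (y' + o) a b h5 (hfactor y' K o b hLy' (by grind)) hFab
    obtain ⟨z, h3, h4, h5⟩ := h2 y' hy' hadm1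
    obtain ⟨o, rfl⟩ := exists_add_of_le h3
    have hol : o + l ≤ K := by grind
    exact ⟨o, hol, (hE.symm.shift hol).trans h5⟩

end Pool.Agent.Lib.Hin
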