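import Pool.Agent.Lib.Hin.Ext
import Pool.Agent.Lib.Hin.Alg
import Pool.Agent.Lib.Hin.HTSat

/-!
# `ACA_0` proves `HT_2^{≤2}`
-/

namespace Pool.Agent.Lib.Hin

universe u

theorem main : Proves.{u} ACA0 (HT 2 2) := by
  intro M iz io ia im il S hne h
  have hr : Raw S := raw_of_models hne h
  obtain ⟨i1, i2, rfl, rfl, rfl, rfl, rfl, i3, i4, i5⟩ := alg_exists hr
  exact sat_HT22 ⟨hr.comp, hr.ind⟩

end Pool.Agent.Lib.Hin
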