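import Pool.Agent.Lib.Hin.Base

/-!
# The axioms of `ACA_0`, semantically
-/

namespace Pool.Agent.Lib.Hin

universe u

/-- The axioms of `ACA_0` in an `L_2`-structure. -/
structure Raw {M : Type u} [Zero M] [One M] [Add M] [Mul M] [LT M] (S : Set (Set M)) : Prop where
  succ_ne_zero : ∀ n : M, n + 1 ≠ 0
  succ_inj : ∀ m n : M, m + 1 = n + 1 → m = n
  add_zero' : ∀ m : M, m + 0 = m
  add_succ' : ∀ m n : M, m + (n + 1) = (m + n) + 1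
  mul_zero' : ∀ m : M, m * 0 = 0
  mul_succ' : ∀ m n : M, m * (n + 1) = m * n + m
  not_lt_zero' : ∀ m : M, ¬ m < 0
  lt_succ' : ∀ m n : M, m < n + 1 ↔ (m < n ∨ m = n)
  comp : ∀ Q : M → Prop, Ar S (fun v => Q (v 0)) → {x | Q x} ∈ S
  ind : ∀ A ∈ S, (0 : M) ∈ A → (∀ x ∈ A, x + 1 ∈ A) → ∀ x, x ∈ A

end Pool.Agent.Lib.Hin
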