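import Pool.Agent.Lib.Hin.Lang

/-!
# Chunk WIN: the window (parity argument)
-/

set_option linter.unusedSectionVars false

namespace Pool.Agent.Lib.Hin

universe u
variable {N : Type u} [CommSemiring N] [LinearOrder N] [IsStrictOrderedRing N]
  [CanonicallyOrderedAdd N] [Disc N] {S : Set (Set N)} {C : Set N} {L : N → N → Prop}

theorem WIN.parity (h : PM S) (x : N) : ∃ w, x = w + w ∨ x = w + w + 1 := by
  refine h.induct (fun x => ∃ w, x = w + w ∨ x = w + w + 1) (by (repeat' (first
      | assumption | exact ArT.const _ | exact ArT.var _ | apply ArT.add | apply ArT.mul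
      | apply ArT.pr | exact Ar.prop _ | apply Ar.and | apply Ar.or | apply Ar.not | apply Ar.iff
      | apply Ar.ex | apply Ar.imp | apply Ar.all | apply Ar.eq | apply Ar.ne | apply Ar.lt
      | apply Ar.le | apply Ar.bit | apply Ar.E | (apply Ar.mem; assumption)
      | (refine Ar.app1 ?_ ?_; assumption) | (refine Ar.app2 ?_ ?_ ?_; assumption)
      | (refine Ar.app3 ?_ ?_ ?_ ?_; assumption)))) ⟨0, Or.inl (by simp)⟩ ?_ x
  rintro x ⟨w, hw | hw⟩
  · exact ⟨w, Or.inr (by rw [hw])⟩
  · exact ⟨w + 1, Or.inl (by rw [hw]; ring)⟩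

theorem WIN.not_both {w w' : N} (hw : w + w = w' + w' + 1) : False := by
  rcases lt_or_ge w' w with h1 | h1
  · have := disc_lt h1
    grind
  · grind

theorem window (h : PM S) (hL : Lang S C L) {x m : N} (hx : L x m) :
    ∃ W, ∀ a K b b' e p, L a K → b + W ≤ K → e + m ≤ K → E C a C x m → E C (a + e) C x m →
      L p (b' + m) → E C p C x m → E C (p + b') C x m → b = b' + e →
      ∃ w, w < W ∧ b + w + w + m ≤ K ∧ E C (a + (b + w + w)) C x m := by
  by_cases hcase : ∃ y k u u', L y k ∧ (u + u) + m ≤ k ∧ (u' + u' + 1) + m ≤ k ∧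
      E C (y + (u + u)) C x m ∧ E C (y + (u' + u' + 1)) C x m
  · obtain ⟨y, k, u, u', hy, h1, h2, h3, h4⟩ := hcase
    obtain ⟨d, hd⟩ := hL.gap y k hy
    refine ⟨d + 1, ?_⟩
    intro a K b b' e p ha hb _ _ _ _ _ _ _
    obtain ⟨o, ho, hE⟩ := hd (a + b) (hL.factor a K b d ha (by grind))
    have hE1 : E C (a + b + o + (u + u)) C x m :=
      (hE.shift (o := u + u) (l' := m) h1).trans h3
    have hE2 : E C (a + b + o + (u' + u' + 1)) C x m :=
      (hE.shift (o := u' + u' + 1) (l' := m) h2).trans h4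
    obtain ⟨w, hw | hw⟩ := WIN.parity h o
    · refine ⟨w + u, by grind, by grind, ?_⟩
      have : a + (b + (w + u) + (w + u)) = a + b + o + (u + u) := by rw [hw]; ring
      rw [this]; exact hE1
    · refine ⟨w + u' + 1, by grind, by grind, ?_⟩
      have : a + (b + (w + u' + 1) + (w + u' + 1)) = a + b + o + (u' + u' + 1) := by
        rw [hw]; ring
      rw [this]; exact hE2
  · obtain ⟨d, hd⟩ := hL.gap x m hx
    refine ⟨d + 1, ?_⟩
    intro a K b b' e p ha hb he h1 h2 hp h3 h4 hbb
    -- occurrences in one word of the language are all even or all odd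
    have even : ∀ y k r, L y k → r + m ≤ k → E C y C x m → E C (y + r) C x m →
        ∃ w, r = w + w := by
      intro y k r hy hr h5 h6
      obtain ⟨w, hw | hw⟩ := WIN.parity h r
      · exact ⟨w, hw⟩
      · exfalso
        refine hcase ⟨y, k, 0, w, hy, by grind, by rw [← hw]; exact hr, ?_, ?_⟩
        · simpa using h5
        · rw [← hw]; exact h6
    obtain ⟨e', he'⟩ := even a K e ha he h1 h2
    obtain ⟨b'', hb''⟩ := even p (b' + m) b' hp le_rfl h3 h4
    obtain ⟨o, ho, hE⟩ := hd (a + b) (hL.factor a K b d ha (by grind))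
    obtain ⟨c, hc⟩ := even a K (b + o) ha (by grind) h1 (by rw [← add_assoc]; exact hE)
    obtain ⟨w, hw | hw⟩ := WIN.parity h o
    · refine ⟨w, by grind, by grind, ?_⟩
      have : a + (b + w + w) = a + b + o := by rw [hw]; ring
      rw [this]; exact hE
    · exfalso
      refine WIN.not_both (w := c) (w' := b'' + e' + w) ?_
      rw [← hc, hbb, hb'', he', hw]; ring

end Pool.Agent.Lib.Hin
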